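import Mathlib
import Pool.Agent.H.MP_deabf1_gt.PDefs

/-!
The scalar curvature is a potential for the Einstein equations: the logarithmic derivative of the
volume vanishes, over any field.
-/

namespace Pool.Agent.H.MP_deabf1_gt.Gen

variable {ι : Type*} [Fintype ι]

theorem vol_der {k E : Type*} [Field k] [Field E] [Algebra k E] (D : Derivation k E E)
    {T : ι → ι → ι → k} (hT : Sym T) {γ d : ι → k} {x y : ι → E} (hxy : ∀ i, x i * y i = 1)
    (hE : ∀ i, algebraMap k E (γ i) * y i + algebraMap k E (1 / 4) * ∑ j, ∑ l,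
      algebraMap k E (T i j l) * (2 * y i + x i * y j * y l - x j * y i * y l
        - x l * y i * y j) = algebraMap k E (d i)) :
    ∑ i, algebraMap k E (d i) * (D (y i) / y i) = 0 := by
  have hy : ∀ i, y i ≠ 0 := fun i h => by
    have := hxy i
    rw [h, mul_zero] at this
    exact zero_ne_one this
  have hx2 : ∀ i, D (x i) = - ((x i * x i) * D (y i)) := by
    intro i
    have h1 : D (x i * y i) = 0 := by
      rw [hxy i]
      exact D.map_one_eq_zero
    rw [Derivation.leibniz, smul_eq_mul, smul_eq_mul] at h1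
    linear_combination (x i) * h1 - D (x i) * hxy i
  -- the constants
  let g : ι → E := fun i => algebraMap k E (γ i)
  let t : ι → ι → ι → E := fun i j l => algebraMap k E (T i j l)
  let q : E := algebraMap k E (1 / 4)
  have ht1 : ∀ i j l, t i j l = t j i l := fun i j l => by
    simp only [t, hT.1 i j l]
  have ht2 : ∀ i j l, t i j l = t i l j := fun i j l => by
    simp only [t, hT.2 i j l]
  have ht3 : ∀ i j l, t i j l = t l j i := fun i j l => by
    rw [ht1 i j l, ht2 j i l, ht1 j l i]
  have hE' : ∀ i, g i * y i + q * ∑ j, ∑ l, t i j l * (2 * y i + x i * y j * y l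
      - x j * y i * y l - x l * y i * y j) = algebraMap k E (d i) := hE
  have hc : ∀ (c : k) (a : E), D (algebraMap k E c * a) = algebraMap k E c * D a := by
    intro c a
    rw [Derivation.leibniz, Derivation.map_algebraMap, smul_zero, add_zero, smul_eq_mul]
  -- the potential
  have hS : ∑ i, g i * y i + q * ∑ i, ∑ j, ∑ l, t i j l * (2 * y i - x i * y j * y l) =
      algebraMap k E (∑ i, d i) := by
    rw [map_sum, ← Finset.sum_congr rfl (fun i _ => hE' i), Finset.sum_add_distrib,
      ← Finset.mul_sum]
    congr 2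
    have e1 : ∑ i, ∑ j, ∑ l, t i j l * (x j * y i * y l) =
        ∑ i, ∑ j, ∑ l, t i j l * (x i * y j * y l) := by
      rw [Finset.sum_comm]
      refine Finset.sum_congr rfl fun i _ => Finset.sum_congr rfl fun j _ =>
        Finset.sum_congr rfl fun l _ => ?_
      rw [ht1 j i l]
    have e2 : ∑ i, ∑ j, ∑ l, t i j l * (x l * y i * y j) =
        ∑ i, ∑ j, ∑ l, t i j l * (x i * y j * y l) := by
      rw [← e1]
      refine Finset.sum_congr rfl fun i _ => ?_
      rw [Finset.sum_comm]
      refine Finset.sum_congr rfl fun j _ => Finset.sum_congr rfl fun l _ => ?_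
      rw [ht2 i l j]
    have e3 : ∑ i, ∑ j, ∑ l, t i j l * (2 * y i + x i * y j * y l
        - x j * y i * y l - x l * y i * y j) =
        ∑ i, ∑ j, ∑ l, t i j l * (2 * y i) + ∑ i, ∑ j, ∑ l, t i j l * (x i * y j * y l)
        - ∑ i, ∑ j, ∑ l, t i j l * (x j * y i * y l)
        - ∑ i, ∑ j, ∑ l, t i j l * (x l * y i * y j) := by
      simp only [← Finset.sum_add_distrib, ← Finset.sum_sub_distrib]
      refine Finset.sum_congr rfl fun i _ => Finset.sum_congr rfl fun j _ =>
        Finset.sum_congr rfl fun l _ => ?_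
      ring
    have e4 : ∑ i, ∑ j, ∑ l, t i j l * (2 * y i - x i * y j * y l) =
        ∑ i, ∑ j, ∑ l, t i j l * (2 * y i) - ∑ i, ∑ j, ∑ l, t i j l * (x i * y j * y l) := by
      simp only [← Finset.sum_sub_distrib]
      refine Finset.sum_congr rfl fun i _ => Finset.sum_congr rfl fun j _ =>
        Finset.sum_congr rfl fun l _ => ?_
      ring
    rw [e3, e4, e1, e2]
    ring
  -- its derivative
  have hD : ∑ i, g i * D (y i) + q * ∑ i, ∑ j, ∑ l, t i j l * (2 * D (y i)
      + (x i * x i * y j * y l) * D (y i) - (x i * y l) * D (y j) - (x i * y j) * D (y l)) = 0 := by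
    have h1 := congrArg D hS
    rw [Derivation.map_algebraMap, map_add, map_sum] at h1
    rw [← h1]
    congr 1
    · refine Finset.sum_congr rfl fun i _ => ?_
      exact (hc _ _).symm
    · rw [hc]
      congr 1
      simp only [map_sum]
      refine Finset.sum_congr rfl fun i _ => Finset.sum_congr rfl fun j _ =>
        Finset.sum_congr rfl fun l _ => ?_
      have h2 : D (2 : E) = 0 := by
        have := D.map_natCast 2
        exact_mod_cast this
      rw [hc, map_sub, Derivation.leibniz, Derivation.leibniz, Derivation.leibniz, h2,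
        hx2 i]
      congr 1
      simp only [smul_eq_mul]
      ring
  -- symmetrised
  have hD2 : ∑ i, g i * D (y i) + q * ∑ i, ∑ j, ∑ l, t i j l * (2 * D (y i)
      + (x i * x i * y j * y l) * D (y i) - (x j * y l) * D (y i) - (x l * y j) * D (y i)) = 0 := by
    rw [← hD]
    congr 2
    have f1 : ∑ i, ∑ j, ∑ l, t i j l * ((x i * y l) * D (y j)) =
        ∑ i, ∑ j, ∑ l, t i j l * ((x j * y l) * D (y i)) := by
      rw [Finset.sum_comm]
      refine Finset.sum_congr rfl fun i _ => Finset.sum_congr rfl fun j _ =>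
        Finset.sum_congr rfl fun l _ => ?_
      rw [ht1 j i l]
    have f2 : ∑ i, ∑ j, ∑ l, t i j l * ((x i * y j) * D (y l)) =
        ∑ i, ∑ j, ∑ l, t i j l * ((x l * y j) * D (y i)) := by
      have f3 : ∀ i, ∑ j, ∑ l, t i j l * ((x i * y j) * D (y l)) =
          ∑ l, ∑ j, t i j l * ((x i * y j) * D (y l)) := fun i => Finset.sum_comm
      rw [Finset.sum_congr rfl fun i _ => f3 i, Finset.sum_comm]
      refine Finset.sum_congr rfl fun i _ => ?_
      rw [Finset.sum_comm]
      refine Finset.sum_congr rfl fun j _ => Finset.sum_congr rfl fun l _ => ?_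
      rw [ht3 l j i]
    have f4 : ∀ (P Q : ι → ι → ι → E), ∑ i, ∑ j, ∑ l, t i j l * (2 * D (y i)
        + (x i * x i * y j * y l) * D (y i) - P i j l - Q i j l) =
        ∑ i, ∑ j, ∑ l, t i j l * (2 * D (y i) + (x i * x i * y j * y l) * D (y i))
        - ∑ i, ∑ j, ∑ l, t i j l * P i j l - ∑ i, ∑ j, ∑ l, t i j l * Q i j l := by
      intro P Q
      simp only [← Finset.sum_sub_distrib]
      refine Finset.sum_congr rfl fun i _ => Finset.sum_congr rfl fun j _ =>
        Finset.sum_congr rfl fun l _ => ?_
      ring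
    rw [f4, f4, f1, f2]
  -- the sum of the equations
  rw [← hD2, Finset.mul_sum, ← Finset.sum_add_distrib]
  refine Finset.sum_congr rfl fun i _ => ?_
  rw [← hE' i]
  have h1 : q * ∑ j, ∑ l, t i j l * (2 * D (y i)
      + (x i * x i * y j * y l) * D (y i) - (x j * y l) * D (y i) - (x l * y j) * D (y i)) =
      (q * ∑ j, ∑ l, t i j l * (2 * y i + x i * y j * y l - x j * y i * y l
        - x l * y i * y j)) * (D (y i) / y i) := by
    rw [mul_assoc, Finset.sum_mul]
    congr 1
    refine Finset.sum_congr rfl fun j _ => ?_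
    rw [Finset.sum_mul]
    refine Finset.sum_congr rfl fun l _ => ?_
    have h2 : x i = (y i)⁻¹ := eq_inv_of_mul_eq_one_left (hxy i)
    rw [h2]
    have h3 := hy i
    field_simp
  rw [h1, add_mul]
  congr 1
  have h3 := hy i
  field_simp

end Pool.Agent.H.MP_deabf1_gt.Gen
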