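import Pool.Agent.H.MP_deabf1_gt.helper94.Prim
import Pool.Agent.H.MP_deabf1_gt.helper94.Vg

/-!
A monomial which is not constant along the integer relations of the dimensions has only finitely
many values on the solutions of the Einstein equations.
-/

namespace Pool.Agent.H.MP_deabf1_gt.Gen

open Polynomial

theorem pow_pow_inv {F : Type*} [Field F] {z : F} (hz : z ≠ 0) (a : ℤ) :
    z ^ a.toNat * z⁻¹ ^ (-a).toNat = z ^ a := by
  rcases Int.eq_nat_or_neg a with ⟨n, rfl | rfl⟩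
  · simp
  · simp

theorem logder_zpow {k E : Type*} [Field k] [Field E] [Algebra k E] (D : Derivation k E E)
    {z : E} (hz : z ≠ 0) (a : ℤ) : D (z ^ a) / z ^ a = a * (D z / z) := by
  rw [Derivation.leibniz_zpow, smul_eq_mul, zsmul_eq_mul, zpow_sub_one₀ hz]
  have h1 : z ^ a ≠ 0 := zpow_ne_zero a hz
  field_simp

/-- The theorem. -/
theorem mono_finite {q : ℕ} {k : Type} [Field k] [CharZero k] {T : Fin q → Fin q → Fin q → k}
    (hT : Sym T) {γ d : Fin q → k} {S : Set (Fin q → k)}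
    (hS : ∀ u ∈ S, (∀ i, u i ≠ 0) ∧ ∀ i, eqL T γ u i = d i) {a : Fin q → ℤ}
    (ha : ∀ n : Fin q → ℤ, ∑ i, (n i : k) * d i = 0 → ∑ i, a i * n i = 0) :
    ((fun u => ∏ i, u i ^ a i) '' S).Finite := by
  classical
  by_contra hinf
  let pt : (Fin q → k) → (Fin q ⊕ Fin q) → k := fun u => Sum.elim u fun i => (u i)⁻¹
  let I : Ideal (MvPolynomial (Fin q ⊕ Fin q) k) := ⨅ u ∈ S, RingHom.ker (MvPolynomial.eval (pt u))
  have hI : ∀ f, f ∈ I ↔ ∀ u ∈ S, MvPolynomial.eval (pt u) f = 0 := by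
    intro f
    simp only [I, Submodule.mem_iInf, RingHom.mem_ker]
  let p1 : Fin q → MvPolynomial (Fin q ⊕ Fin q) k := fun i =>
    MvPolynomial.X (Sum.inr i) * MvPolynomial.X (Sum.inl i) - 1
  let p2 : Fin q → MvPolynomial (Fin q ⊕ Fin q) k := fun i =>
    MvPolynomial.C (γ i) * MvPolynomial.X (Sum.inl i) +
    MvPolynomial.C (1 / 4) * ∑ j, ∑ l, MvPolynomial.C (T i j l) * (2 * MvPolynomial.X (Sum.inl i) +
      MvPolynomial.X (Sum.inr i) * MvPolynomial.X (Sum.inl j) * MvPolynomial.X (Sum.inl l)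
      - MvPolynomial.X (Sum.inr j) * MvPolynomial.X (Sum.inl i) * MvPolynomial.X (Sum.inl l)
      - MvPolynomial.X (Sum.inr l) * MvPolynomial.X (Sum.inl i) * MvPolynomial.X (Sum.inl j))
      - MvPolynomial.C (d i)
  let h : MvPolynomial (Fin q ⊕ Fin q) k :=
    ∏ i, (MvPolynomial.X (Sum.inl i) ^ (a i).toNat * MvPolynomial.X (Sum.inr i) ^ (-(a i)).toNat)
  have hp1 : ∀ i, p1 i ∈ I := by
    intro i
    rw [hI]
    intro u hu
    simp only [p1, pt, map_sub, map_mul, map_one, MvPolynomial.eval_X, Sum.elim_inl, Sum.elim_inr]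
    rw [inv_mul_cancel₀ ((hS u hu).1 i), sub_self]
  have hp2 : ∀ i, p2 i ∈ I := by
    intro i
    rw [hI]
    intro u hu
    simp only [p2, pt, map_sub, map_add, map_mul, map_sum, map_ofNat, MvPolynomial.eval_X,
      MvPolynomial.eval_C, Sum.elim_inl, Sum.elim_inr]
    rw [sub_eq_zero, ← (hS u hu).2 i]
    unfold eqL
    congr 2
    refine Finset.sum_congr rfl fun j _ => Finset.sum_congr rfl fun l _ => ?_
    congr 1
    ring
  have hh : ∀ u ∈ S, MvPolynomial.eval (pt u) h = ∏ i, u i ^ a i := by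
    intro u hu
    simp only [h, pt, map_prod, map_mul, map_pow, MvPolynomial.eval_X, Sum.elim_inl, Sum.elim_inr]
    exact Finset.prod_congr rfl fun i _ => pow_pow_inv ((hS u hu).1 i) (a i)
  have hne : ∀ g : k[X], g ≠ 0 → aeval h g ∉ I := by
    intro g hg hgI
    apply hinf
    refine (g.rootSet_finite k).subset ?_
    rintro _ ⟨u, hu, rfl⟩
    have h1 := (hI _).1 hgI u hu
    rw [mem_rootSet]
    refine ⟨hg, ?_⟩
    change aeval (∏ i, u i ^ a i) g = 0
    rw [← hh u hu, ← h1, ← MvPolynomial.coe_aeval_eq_eval]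
    exact aeval_algHom_apply (MvPolynomial.aeval (pt u)) h g
  obtain ⟨E, _, _, _, _, v, hv, hvh⟩ := exists_gal k I h hne
  obtain ⟨φ, hφ⟩ : ∃ φ : k →+* E, φ = (algebraMap (KK k) E).comp (algebraMap k (KK k)) := ⟨_, rfl⟩
  rw [← hφ] at hv hvh
  let alg : Algebra k E := φ.toAlgebra
  have hmap : ∀ c : k, φ c = algebraMap k E c := fun c => rfl
  have t1 : IsScalarTower k (KK k) E := IsScalarTower.of_algebraMap_eq fun c => by
    rw [← hmap, hφ]
    rfl
  obtain ⟨D, hD⟩ := exists_der k (KK k) E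
  have hxy : ∀ i, v (Sum.inr i) * v (Sum.inl i) = 1 := by
    intro i
    have h1 := hv _ (hp1 i)
    simp only [p1, MvPolynomial.eval₂_sub, MvPolynomial.eval₂_mul, MvPolynomial.eval₂_X,
      MvPolynomial.eval₂_one] at h1
    exact sub_eq_zero.1 h1
  have hy : ∀ i, v (Sum.inl i) ≠ 0 := fun i h => by
    have := hxy i
    rw [h, mul_zero] at this
    exact zero_ne_one this
  have hvol := vol_der D hT (γ := γ) (d := d) (x := fun i => v (Sum.inr i))
    (y := fun i => v (Sum.inl i)) hxy (by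
      intro i
      have h1 := hv _ (hp2 i)
      have h2 : MvPolynomial.eval₂ φ v 2 = 2 := by
        have := MvPolynomial.eval₂_natCast φ v 2
        exact_mod_cast this
      simp only [p2, MvPolynomial.eval₂_sub, MvPolynomial.eval₂_add, MvPolynomial.eval₂_mul,
        MvPolynomial.eval₂_X, MvPolynomial.eval₂_sum, MvPolynomial.eval₂_C, h2] at h1
      exact sub_eq_zero.1 h1)
  have hx : ∑ i, (a i : E) * (D (v (Sum.inl i)) / v (Sum.inl i)) = (xE k (KK k) E)⁻¹ := by
    have h1 : ∏ i, v (Sum.inl i) ^ a i = xE k (KK k) E := by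
      have h2 : ∏ i, v (Sum.inl i) ^ a i = MvPolynomial.eval₂ φ v h := by
        simp only [h, MvPolynomial.eval₂_prod, MvPolynomial.eval₂_mul, MvPolynomial.eval₂_pow,
          MvPolynomial.eval₂_X]
        refine Finset.prod_congr rfl fun i _ => ?_
        rw [← pow_pow_inv (hy i) (a i), ← eq_inv_of_mul_eq_one_left (hxy i)]
      rw [h2, hvh]
      rfl
    have h3 := logder_prod D Finset.univ (fun i => v (Sum.inl i) ^ a i)
      fun i _ => zpow_ne_zero _ (hy i)
    rw [h1, hD, one_div] at h3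
    rw [h3]
    exact Finset.sum_congr rfl fun i _ => (logder_zpow D (hy i) (a i)).symm
  obtain ⟨n, hn, hn2⟩ := relation D hD d (fun i => v (Sum.inl i)) hy a hx hvol
  exact hn (ha n hn2)

end Pool.Agent.H.MP_deabf1_gt.Gen
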