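import Pool.Agent.H.MP_deabf1_gt.helper94.Der

/-!
A generic point at which a given polynomial is transcendental and over which all coordinates are
algebraic.
-/

namespace Pool.Agent.H.MP_deabf1_gt.Gen

open Polynomial

/-- The coefficients in the rational function field. -/
noncomputable abbrev KK (k : Type) [Field k] : Type := FractionRing k[X]

theorem exists_fin (k : Type) [Field k] {σ : Type} [Finite σ] (I : Ideal (MvPolynomial σ k))
    (h : MvPolynomial σ k) (hI : ∀ g : k[X], g ≠ 0 → aeval h g ∉ I) :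
    ∃ (F : Type) (_ : Field F) (_ : Algebra (KK k) F) (_ : FiniteDimensional (KK k) F)
      (v : σ → F), (∀ f ∈ I, MvPolynomial.eval₂ ((algebraMap (KK k) F).comp
        (algebraMap k (KK k))) v f = 0) ∧
      MvPolynomial.eval₂ ((algebraMap (KK k) F).comp (algebraMap k (KK k))) v h =
        algebraMap (KK k) F (algebraMap k[X] (KK k) X) := by
  classical
  let 𝒮 : Set (Ideal (MvPolynomial σ k)) :=
    {J | I ≤ J ∧ ∀ g : k[X], g ≠ 0 → aeval h g ∉ J}
  obtain ⟨p, ⟨hIp, hp⟩, hmax⟩ : ∃ p : Ideal (MvPolynomial σ k), p ∈ 𝒮 ∧ ∀ J ∈ 𝒮, ¬ p < J :=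
    set_has_maximal_iff_noetherian.2
      (inferInstance : IsNoetherianRing (MvPolynomial σ k)) 𝒮 ⟨I, le_refl I, hI⟩
  let M : Submonoid (MvPolynomial σ k) :=
    (nonZeroDivisors k[X]).map (aeval h : k[X] →ₐ[k] MvPolynomial σ k)
  have hpM : Disjoint (p : Set (MvPolynomial σ k)) M := by
    rw [Set.disjoint_left]
    rintro f hf ⟨g, hg, rfl⟩
    exact hp g (nonZeroDivisors.ne_zero hg) hf
  have hmeet : ∀ J : Ideal (MvPolynomial σ k), p < J →
      ∃ g : k[X], g ≠ 0 ∧ aeval h g ∈ J := by
    intro J hJ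
    by_contra hne
    push Not at hne
    exact hmax J ⟨hIp.trans hJ.le, hne⟩ hJ
  have hprime : p.IsPrime := by
    refine Ideal.isPrime_of_maximally_disjoint p M hpM fun J hJ hdis => ?_
    obtain ⟨g, hg, hgJ⟩ := hmeet J hJ
    exact Set.disjoint_left.1 hdis hgJ ⟨g, mem_nonZeroDivisors_of_ne_zero hg, rfl⟩
  let A := MvPolynomial σ k ⧸ p
  let F := FractionRing A
  let π : MvPolynomial σ k →ₐ[k] A := Ideal.Quotient.mkₐ k p
  let ρ : A →ₐ[k] F := IsScalarTower.toAlgHom k A F
  let τ : MvPolynomial σ k →ₐ[k] F := ρ.comp π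
  have hρ : Function.Injective ρ := IsFractionRing.injective A F
  have hτ : ∀ f, τ f = 0 ↔ f ∈ p := by
    intro f
    change ρ (π f) = 0 ↔ _
    rw [map_eq_zero_iff ρ hρ]
    exact Ideal.Quotient.eq_zero_iff_mem
  let x : F := τ h
  let θ : k[X] →ₐ[k] F := aeval x
  have hθ : ∀ g : k[X], θ g = τ (aeval h g) := by
    intro g
    exact (aeval_algHom_apply τ _ g)
  have hθinj : Function.Injective θ := by
    rw [injective_iff_map_eq_zero]
    intro g hg
    by_contra hne
    rw [hθ, hτ] at hg
    exact hp g hne hg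
  let alg1 : Algebra k[X] F := θ.toRingHom.toAlgebra
  have hmap : ∀ g : k[X], algebraMap k[X] F g = θ g := fun g => rfl
  have t0 : IsScalarTower k k[X] F := IsScalarTower.of_algebraMap_eq fun c => by
    rw [hmap]
    change algebraMap k F c = θ (C c)
    rw [← algebraMap_eq, θ.commutes]
  have hf : FaithfulSMul k[X] F := (faithfulSMul_iff_algebraMap_injective _ _).mpr hθinj
  let alg2 : Algebra (KK k) F := FractionRing.liftAlgebra k[X] F
  have t1 : IsScalarTower k[X] (KK k) F := FractionRing.isScalarTower_liftAlgebra k[X] F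
  have t2 : IsScalarTower k (KK k) F := IsScalarTower.of_algebraMap_eq fun c => by
    rw [IsScalarTower.algebraMap_apply k k[X] F, IsScalarTower.algebraMap_apply k k[X] (KK k),
      ← IsScalarTower.algebraMap_apply k[X] (KK k) F]
  -- the field is finitely generated as an algebra
  let B : Subalgebra (KK k) F := Algebra.adjoin (KK k) (Set.range fun j => τ (MvPolynomial.X j))
  have hB1 : ∀ f : MvPolynomial σ k, τ f ∈ B := by
    intro f
    induction f using MvPolynomial.induction_on with
    | C a =>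
      have h1 : τ (MvPolynomial.C a) = algebraMap (KK k) F (algebraMap k (KK k) a) := by
        rw [← IsScalarTower.algebraMap_apply k (KK k) F, ← MvPolynomial.algebraMap_eq, τ.commutes]
      rw [h1]
      exact B.algebraMap_mem _
    | add f g hf hg =>
      rw [map_add]
      exact B.add_mem hf hg
    | mul_X f j hf =>
      rw [map_mul]
      exact B.mul_mem hf (Algebra.subset_adjoin ⟨j, rfl⟩)
  have hB2 : ∀ f : MvPolynomial σ k, f ∉ p → (τ f)⁻¹ ∈ B := by
    intro f hf
    have h1 : p < p ⊔ Ideal.span {f} := by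
      refine lt_of_le_of_ne le_sup_left fun h => hf ?_
      rw [h]
      exact (le_sup_right (a := p)) (Ideal.subset_span rfl)
    obtain ⟨g, hg, hgJ⟩ := hmeet _ h1
    obtain ⟨a, ha, r, hr, har⟩ := Submodule.mem_sup.1 hgJ
    obtain ⟨s, rfl⟩ := Ideal.mem_span_singleton'.1 hr
    have h2 : θ g = τ s * τ f := by
      rw [hθ, ← har, map_add, (hτ a).2 ha, zero_add, map_mul]
    have h3 : θ g ≠ 0 := fun h0 => hg (hθinj (by rw [h0, map_zero]))
    have h4 : τ f ≠ 0 := fun h0 => hf ((hτ f).1 h0)
    have h5 : (τ f)⁻¹ = τ s * algebraMap (KK k) F (algebraMap k[X] (KK k) g)⁻¹ := by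
      rw [map_inv₀, ← IsScalarTower.algebraMap_apply k[X] (KK k) F, hmap, h2]
      have h6 : τ s ≠ 0 := by
        intro h0
        rw [h0, zero_mul] at h2
        exact h3 h2
      rw [mul_inv, ← mul_assoc, mul_inv_cancel₀ h6, one_mul]
    rw [h5]
    exact B.mul_mem (hB1 s) (B.algebraMap_mem _)
  have hBtop : B = ⊤ := by
    rw [eq_top_iff]
    rintro z -
    obtain ⟨a, b, hb, rfl⟩ := IsFractionRing.div_surjective (A := A) z
    obtain ⟨f, rfl⟩ := Ideal.Quotient.mk_surjective a
    obtain ⟨g, rfl⟩ := Ideal.Quotient.mk_surjective b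
    have hg : g ∉ p := by
      intro h0
      exact nonZeroDivisors.ne_zero hb (Ideal.Quotient.eq_zero_iff_mem.2 h0)
    rw [div_eq_mul_inv]
    exact B.mul_mem (hB1 f) (hB2 g hg)
  have hft : Algebra.FiniteType (KK k) F := by
    refine ⟨?_⟩
    rw [← hBtop]
    exact ⟨(Set.finite_range _).toFinset, by rw [Set.Finite.coe_toFinset]⟩
  have hfin : Module.Finite (KK k) F := finite_of_finite_type_of_isJacobsonRing (KK k) F
  have hev : ∀ f, MvPolynomial.eval₂ ((algebraMap (KK k) F).comp (algebraMap k (KK k)))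
      (fun j => τ (MvPolynomial.X j)) f = τ f := by
    intro f
    have h2 : (algebraMap (KK k) F).comp (algebraMap k (KK k)) = algebraMap k F :=
      (IsScalarTower.algebraMap_eq k (KK k) F).symm
    rw [h2]
    have h3 : τ f = MvPolynomial.aeval (fun j => τ (MvPolynomial.X j)) f := by
      conv_lhs => rw [MvPolynomial.aeval_unique τ]
      rfl
    rw [h3]
    rfl
  refine ⟨F, inferInstance, alg2, hfin, fun j => τ (MvPolynomial.X j), ?_, ?_⟩
  · intro f hf
    rw [hev]
    exact (hτ f).2 (hIp hf)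
  · rw [hev]
    change x = _
    rw [← IsScalarTower.algebraMap_apply k[X] (KK k) F, hmap]
    exact (aeval_X x).symm

theorem exists_gal (k : Type) [Field k] [CharZero k] {σ : Type} [Finite σ]
    (I : Ideal (MvPolynomial σ k))
    (h : MvPolynomial σ k) (hI : ∀ g : k[X], g ≠ 0 → aeval h g ∉ I) :
    ∃ (E : Type) (_ : Field E) (_ : Algebra (KK k) E) (_ : FiniteDimensional (KK k) E)
      (_ : IsGalois (KK k) E) (v : σ → E), (∀ f ∈ I, MvPolynomial.eval₂ ((algebraMap (KK k) E).comp
        (algebraMap k (KK k))) v f = 0) ∧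
      MvPolynomial.eval₂ ((algebraMap (KK k) E).comp (algebraMap k (KK k))) v h =
        algebraMap (KK k) E (algebraMap k[X] (KK k) X) := by
  obtain ⟨F, _, _, _, v, hv, hvi⟩ := exists_fin k I h hI
  have : CharZero (KK k) := charZero_K0 k (KK k)
  let L := AlgebraicClosure (KK k)
  let φ : F →ₐ[KK k] L := IsAlgClosed.lift
  let alg : Algebra F L := φ.toRingHom.toAlgebra
  have t1 : IsScalarTower (KK k) F L := IsScalarTower.of_algebraMap_eq fun c => (φ.commutes c).symm
  have hgal : IsGalois (KK k) L := inferInstance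
  let E := IntermediateField.normalClosure (KK k) F L
  have h1 : IsGalois (KK k) E := inferInstance
  have h2 : FiniteDimensional (KK k) E := inferInstance
  let ψ : F →ₐ[KK k] E := IsScalarTower.toAlgHom (KK k) F E
  have hev : ∀ f, MvPolynomial.eval₂ ((algebraMap (KK k) E).comp (algebraMap k (KK k)))
      (fun j => ψ (v j)) f = ψ (MvPolynomial.eval₂ ((algebraMap (KK k) F).comp
        (algebraMap k (KK k))) v f) := by
    intro f
    have h4 := MvPolynomial.hom_eval₂ f ((algebraMap (KK k) F).comp (algebraMap k (KK k)))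
      ψ.toRingHom v
    have h5 : ψ.toRingHom.comp ((algebraMap (KK k) F).comp (algebraMap k (KK k))) =
        (algebraMap (KK k) E).comp (algebraMap k (KK k)) := by
      rw [← RingHom.comp_assoc]
      congr 1
      exact ψ.comp_algebraMap
    rw [h5] at h4
    exact h4.symm
  refine ⟨E, inferInstance, inferInstance, h2, h1, fun j => ψ (v j), ?_, ?_⟩
  · intro f hf
    rw [hev, hv f hf, map_zero]
  · rw [hev, hvi, ψ.commutes]

end Pool.Agent.H.MP_deabf1_gt.Gen
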