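import Pool.Agent.H.MP_deabf1_gt.helper65.Loc1

/-!
The two kinds of ends of a curve of solutions on which the product of the unknowns is constant.
-/

namespace Pool.Agent.H.MP_deabf1_gt.Four

variable {K : Type*} [Field K] [Algebra ℝ K]

/-- First kind of ends: `u i`, `u j` are large and `u k`, `u l` are small. -/
structure E1 (P : Pl K) (T : Fin 4 → Fin 4 → Fin 4 → ℝ) (u : Fin 4 → K) (i j k l : Fin 4)
    (a : ℝ) : Prop where
  ha : 0 < a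
  pk : 0 < T i i k
  pl : 0 < T i i l
  ijk : T i j k = a * T i i k
  jjk : T j j k = a ^ 2 * T i i k
  ijl : T i j l = a * T i i l
  jjl : T j j l = a ^ 2 * T i i l
  D0 : T j k l ≠ a * T i k l
  Lij : P.Lim (u i / u j) ((-a : ℝ) : ℂ)
  Lkl : P.Lim (u k / u l) ((-(T i i k / T i i l) : ℝ) : ℂ)
  Lj : P.Lim (1 / u j) 0
  Ll : P.Lim (u l) 0
  Ljl : ∃ θ : ℂ, θ ≠ 0 ∧ P.Lim (u j * u l) θ
  Bz : P.B (u i + algebraMap ℝ K a * u j)

/-- Second kind of ends: `u i`, `u j` are large, `u k` is finite and `u l` is small. -/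
structure E3 (P : Pl K) (T : Fin 4 → Fin 4 → Fin 4 → ℝ) (u : Fin 4 → K) (i j k l : Fin 4)
    (a ρ : ℝ) : Prop where
  ha : 0 < a
  hρ : 0 ≤ ρ
  pl : 0 < T i i l
  ijl : T i j l = a * T i i l
  jjl : T j j l = a ^ 2 * T i i l
  ikl : T i k l = ρ * T i i l
  kkl : T k k l = ρ ^ 2 * T i i l
  jkl : T j k l = a * ρ * T i i l
  root : T i i k * a ^ 2 - 2 * T i j k * a + T j j k = 0
  simple : T i j k ≠ a * T i i k
  Lij : P.Lim (u i / u j) ((-a : ℝ) : ℂ)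
  Lj : P.Lim (1 / u j) 0
  Lkl : ∃ (z : ℂ) (τ : ℝ), z ≠ 0 ∧ 0 < τ ∧ P.Lim (u k) z ∧ P.Lim (u j ^ 2 * u l) (τ * z ^ 2)
  Lz : P.Lim (u i + algebraMap ℝ K a * u j + algebraMap ℝ K ρ * u k) 0

/-- The four indices are different. -/
def Dist (i j k l : Fin 4) : Prop := i ≠ j ∧ i ≠ k ∧ i ≠ l ∧ j ≠ k ∧ j ≠ l ∧ k ≠ l

/-- An end. -/
def IsEnd (P : Pl K) (T : Fin 4 → Fin 4 → Fin 4 → ℝ) (u : Fin 4 → K) : Prop :=
  ∃ i j k l, Dist i j k l ∧ ((∃ a, E1 P T u i j k l a) ∨ ∃ a ρ, E3 P T u i j k l a ρ)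

end Pool.Agent.H.MP_deabf1_gt.Four
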