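import Pool.Agent.H.MP_deabf1_gt.helper94.StepD
import Pool.Agent.H.MP_deabf1_gt.WJ

/-!
A curve of solutions with dense positive solutions cannot have only ends of the two kinds.
-/

namespace Pool.Agent.H.MP_deabf1_gt.Four

open Filter Finset

theorem no_cl {T : Fin 4 → Fin 4 → Fin 4 → ℝ} (hT : Sym T) (hT0 : ∀ i j k, 0 ≤ T i j k)
    {γ : Fin 4 → ℝ} (_hγ : ∀ i, 0 ≤ γ i) {d : Fin 4 → ℕ} (hd : ∀ i, 0 < d i)
    {S Z : Set (Fin 4 → ℂ)} (hZ : Cl S Z)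
    (hS : ∀ x ∈ S, ∃ y : Fin 4 → ℝ, (∀ i, 0 < y i) ∧ x = fun i => (y i : ℂ))
    (hE : ∀ x ∈ Z, Pl.Sys T γ (fun i => (d i : ℝ)) univ x 0) {p : ℝ} (hp : 0 < p)
    (hP : ∀ x ∈ Z, ∏ i, x i = p)
    (hend : ∀ xs : ℕ → Fin 4 → ℂ, (∀ n, xs n ∈ Z) →
      (∀ i, (gmPl (hyperfilter ℕ)).B (toGm (hyperfilter ℕ) (fun n => xs n i)) ∧
        (gmPl (hyperfilter ℕ)).B (toGm (hyperfilter ℕ) (fun n => xs n i))⁻¹) ∨
      IsEnd (gmPl (hyperfilter ℕ)) T (fun i => (toGm (hyperfilter ℕ) (fun n => xs n i))⁻¹)) :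
    False := by
  have C : Ctx T S Z := by
    refine ⟨hZ, fun x hx i => ?_, ⟨p, hp, hP⟩, hend⟩
    obtain ⟨y, hy, e⟩ := hS x hx
    exact ⟨y i, hy i, by rw [e]⟩
  exact C.false_of hT hT0 hd hE

end Pool.Agent.H.MP_deabf1_gt.Four
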