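import Pool.Agent.H.MP_deabf1_gt.WH
import Pool.Agent.H.MP_deabf1_gt.WI

/-!
Regular functions on the torus, and an irreducible closure of an infinite set of points.
-/

namespace Pool.Agent.H.MP_deabf1_gt

open MvPolynomial Filter Topology

theorem aeval_eval' {σ : Type} (x : σ → ℂ) (f : MvPolynomial σ ℂ) : aeval x f = eval x f := by
  rw [← coe_aeval_eq_eval]
  rfl

/-- A polynomial function which is bounded on an algebraic set has finitely many values. -/
theorem finite_values_poly {σ : Type} [Finite σ] (I : Ideal (MvPolynomial σ ℂ))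
    (f : MvPolynomial σ ℂ) {R : ℝ} (hR : ∀ x ∈ zeroLocus ℂ I, ‖eval x f‖ ≤ R) :
    ((fun x : σ → ℂ => eval x f) '' zeroLocus ℂ I).Finite := by
  let J : Ideal (MvPolynomial (Option σ) ℂ) :=
    Ideal.span ((fun p => rename some p) '' (I : Set (MvPolynomial σ ℂ)) ∪
      {X none - rename some f})
  have hJ : ∀ y : Option σ → ℂ, y ∈ zeroLocus ℂ J ↔
      (fun i => y (some i)) ∈ zeroLocus ℂ I ∧ y none = eval (fun i => y (some i)) f := by
    intro y
    have hren : ∀ p : MvPolynomial σ ℂ, aeval y (rename some p) =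
        aeval (fun i => y (some i)) p := fun p => by
      rw [aeval_rename]
      rfl
    rw [zeroLocus_span]
    constructor
    · intro h
      refine ⟨fun p hp => ?_, ?_⟩
      · rw [← hren]
        exact h _ (Or.inl ⟨p, hp, rfl⟩)
      · have h1 := h _ (Or.inr rfl)
        rw [map_sub, aeval_X, hren, sub_eq_zero] at h1
        rw [h1, aeval_eval']
    · rintro ⟨h1, h2⟩ q (⟨p, hp, rfl⟩ | rfl)
      · change aeval y (rename some p) = 0
        rw [hren]
        exact h1 p hp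
      · rw [map_sub, aeval_X, hren, h2, aeval_eval', sub_self]
  have h1 := finite_values J none (R := R) (fun y hy => by
    obtain ⟨h2, h3⟩ := (hJ y).1 hy
    rw [h3]
    exact hR _ h2)
  refine h1.subset ?_
  rintro _ ⟨x, hx, rfl⟩
  refine ⟨fun o => o.elim (eval x f) x, (hJ _).2 ⟨?_, ?_⟩, rfl⟩
  · exact hx
  · rfl

variable {ι : Type}

/-- The point of the torus as a point of affine space. -/
noncomputable def tor (x : ι → ℂ) : ι ⊕ ι → ℂ := Sum.elim x fun i => (x i)⁻¹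

/-- Regular functions on the torus. -/
def Reg (h : (ι → ℂ) → ℂ) : Prop :=
  ∃ f : MvPolynomial (ι ⊕ ι) ℂ, ∀ x : ι → ℂ, h x = eval (tor x) f

namespace Reg

variable {h g : (ι → ℂ) → ℂ}

theorem const (c : ℂ) : Reg (fun _ : ι → ℂ => c) := ⟨C c, fun x => by rw [eval_C]⟩

theorem crd (i : ι) : Reg (fun x : ι → ℂ => x i) := ⟨X (Sum.inl i), fun x => by
  rw [eval_X]; rfl⟩

theorem icrd (i : ι) : Reg (fun x : ι → ℂ => (x i)⁻¹) := ⟨X (Sum.inr i), fun x => by
  rw [eval_X]; rfl⟩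

theorem add (hh : Reg h) (hg : Reg g) : Reg (fun x => h x + g x) := by
  obtain ⟨f, hf⟩ := hh
  obtain ⟨f', hf'⟩ := hg
  exact ⟨f + f', fun x => by simp only [hf, hf', map_add]⟩

theorem mul (hh : Reg h) (hg : Reg g) : Reg (fun x => h x * g x) := by
  obtain ⟨f, hf⟩ := hh
  obtain ⟨f', hf'⟩ := hg
  exact ⟨f * f', fun x => by simp only [hf, hf', map_mul]⟩

theorem sub (hh : Reg h) (hg : Reg g) : Reg (fun x => h x - g x) := by
  obtain ⟨f, hf⟩ := hh
  obtain ⟨f', hf'⟩ := hg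
  exact ⟨f - f', fun x => by simp only [hf, hf', map_sub]⟩

theorem neg (hh : Reg h) : Reg (fun x => -h x) := by
  obtain ⟨f, hf⟩ := hh
  exact ⟨-f, fun x => by simp only [hf, map_neg]⟩

theorem pow (hh : Reg h) (n : ℕ) : Reg (fun x => h x ^ n) := by
  obtain ⟨f, hf⟩ := hh
  exact ⟨f ^ n, fun x => by simp only [hf, map_pow]⟩

theorem congr (hh : Reg h) (hg : ∀ x, g x = h x) : Reg g := by
  obtain ⟨f, hf⟩ := hh
  exact ⟨f, fun x => by rw [hg, hf]⟩

theorem sum {κ : Type*} (s : Finset κ) {f : κ → (ι → ℂ) → ℂ} (hf : ∀ k ∈ s, Reg (f k)) :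
    Reg (fun x => ∑ k ∈ s, f k x) := by
  classical
  induction s using Finset.induction_on with
  | empty => exact (const 0).congr fun x => by simp
  | insert k s hk ih =>
    refine ((hf k (Finset.mem_insert_self k s)).add
      (ih fun j hj => hf j (Finset.mem_insert_of_mem hj))).congr fun x => ?_
    rw [Finset.sum_insert hk]

theorem prod {κ : Type*} (s : Finset κ) {f : κ → (ι → ℂ) → ℂ} (hf : ∀ k ∈ s, Reg (f k)) :
    Reg (fun x => ∏ k ∈ s, f k x) := by
  classical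
  induction s using Finset.induction_on with
  | empty => exact (const 1).congr fun x => by simp
  | insert k s hk ih =>
    refine ((hf k (Finset.mem_insert_self k s)).mul
      (ih fun j hj => hf j (Finset.mem_insert_of_mem hj))).congr fun x => ?_
    rw [Finset.prod_insert hk]

end Reg

/-- `Z` is an irreducible set in which the infinite set `S` is dense. -/
structure Cl (S Z : Set (ι → ℂ)) : Prop where
  sub : S ⊆ Z
  inf : S.Infinite
  ne : ∀ x ∈ Z, ∀ i, x i ≠ 0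
  dense : ∀ h : (ι → ℂ) → ℂ, Reg h → {x ∈ S | h x = 0}.Infinite → ∀ x ∈ Z, h x = 0
  bdd : ∀ h : (ι → ℂ) → ℂ, Reg h → (∃ R : ℝ, ∀ x ∈ Z, ‖h x‖ ≤ R) → ∃ c, ∀ x ∈ Z, h x = c

/-- An infinite set of points of the torus contains an infinite set with irreducible closure. -/
theorem exists_cl [Finite ι] {V : Set (ι → ℂ)} (hV : V.Infinite) (hV0 : ∀ x ∈ V, ∀ i, x i ≠ 0) :
    ∃ S Z : Set (ι → ℂ), S ⊆ V ∧ Cl S Z := by
  let 𝒮 : Set (Ideal (MvPolynomial (ι ⊕ ι) ℂ)) :=
    {J | ∃ S ⊆ V, S.Infinite ∧ J = vanishingIdeal ℂ (tor '' S)}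
  have h𝒮 : 𝒮.Nonempty := ⟨_, V, subset_rfl, hV, rfl⟩
  obtain ⟨J, ⟨S, hSV, hS, hJ⟩, hmax⟩ := set_has_maximal_iff_noetherian.2
    (inferInstance : IsNoetherianRing (MvPolynomial (ι ⊕ ι) ℂ)) 𝒮 h𝒮
  have hdense : ∀ f : MvPolynomial (ι ⊕ ι) ℂ, {x ∈ S | eval (tor x) f = 0}.Infinite → f ∈ J := by
    intro f hf
    have h1 : vanishingIdeal ℂ (tor '' {x ∈ S | eval (tor x) f = 0}) ∈ 𝒮 :=
      ⟨_, (Set.sep_subset _ _).trans hSV, hf, rfl⟩
    have h2 : J ≤ vanishingIdeal ℂ (tor '' {x ∈ S | eval (tor x) f = 0}) := by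
      rw [hJ]
      exact vanishingIdeal_anti_mono (Set.image_mono (Set.sep_subset _ _))
    have h3 : J = vanishingIdeal ℂ (tor '' {x ∈ S | eval (tor x) f = 0}) := by
      by_contra h4
      exact hmax _ h1 (lt_of_le_of_ne h2 h4)
    rw [h3]
    rintro _ ⟨x, hx, rfl⟩
    rw [aeval_eval']
    exact hx.2
  refine ⟨S, {x | (∀ i, x i ≠ 0) ∧ tor x ∈ zeroLocus ℂ J}, hSV, ?_, hS, fun x hx => hx.1, ?_, ?_⟩
  · intro x hx
    refine ⟨hV0 x (hSV hx), fun p hp => ?_⟩
    rw [hJ] at hp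
    exact hp _ ⟨x, hx, rfl⟩
  · rintro h ⟨f, hf⟩ hinf x ⟨-, hx⟩
    have h1 : f ∈ J := by
      apply hdense
      refine hinf.mono fun y hy => ⟨hy.1, ?_⟩
      rw [← hf]
      exact hy.2
    have h2 := hx f h1
    rw [aeval_eval'] at h2
    rw [hf]
    exact h2
  · rintro h ⟨f, hf⟩ ⟨R, hR⟩
    -- the zero locus consists of points of the torus
    have hz : ∀ y ∈ zeroLocus ℂ J, (∀ i, y (Sum.inl i) ≠ 0) ∧ y = tor fun i => y (Sum.inl i) := by
      intro y hy
      have h1 : ∀ i, y (Sum.inl i) * y (Sum.inr i) = 1 := by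
        intro i
        have h2 : (X (Sum.inl i) * X (Sum.inr i) - 1 : MvPolynomial (ι ⊕ ι) ℂ) ∈ J := by
          rw [hJ]
          rintro _ ⟨x, hx, rfl⟩
          rw [map_sub, map_mul, aeval_X, aeval_X, map_one]
          change x i * (x i)⁻¹ - 1 = 0
          rw [mul_inv_cancel₀ (hV0 x (hSV hx) i), sub_self]
        have h3 := hy _ h2
        rw [map_sub, map_mul, aeval_X, aeval_X, map_one] at h3
        exact sub_eq_zero.1 h3
      have h2 : ∀ i, y (Sum.inl i) ≠ 0 := fun i h0 => by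
        have h3 := h1 i
        rw [h0, zero_mul] at h3
        exact zero_ne_one h3
      refine ⟨h2, ?_⟩
      funext j
      rcases j with i | i
      · rfl
      · exact eq_inv_of_mul_eq_one_right (h1 i)
    have h1 := finite_values_poly J f (R := R) (fun y hy => by
      obtain ⟨h2, h3⟩ := hz y hy
      rw [h3, ← hf]
      refine hR _ ⟨h2, ?_⟩
      rw [← h3]
      exact hy)
    -- some value is attained infinitely often
    have h2 : ∃ c : ℂ, {x ∈ S | h x = c}.Infinite := by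
      by_contra hne
      push Not at hne
      apply hS
      have h3 : S ⊆ ⋃ c ∈ (fun y : ι ⊕ ι → ℂ => eval y f) '' zeroLocus ℂ J, {x ∈ S | h x = c} := by
        intro x hx
        refine Set.mem_biUnion (x := h x) ⟨tor x, fun p hp => ?_, (hf x).symm⟩ ⟨hx, rfl⟩
        rw [hJ] at hp
        exact hp _ ⟨x, hx, rfl⟩
      refine (Set.Finite.biUnion h1 fun c _ => ?_).subset h3
      exact hne c
    obtain ⟨c, hc⟩ := h2
    refine ⟨c, fun x hx => ?_⟩
    have h3 : f - C c ∈ J := by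
      apply hdense
      refine hc.mono fun y hy => ⟨hy.1, ?_⟩
      rw [map_sub, eval_C, ← hf, hy.2, sub_self]
    have h4 := hx.2 _ h3
    rw [aeval_eval', map_sub, eval_C] at h4
    rw [hf]
    exact sub_eq_zero.1 h4

namespace Cl

variable {S Z : Set (ι → ℂ)} (hZ : Cl S Z)

include hZ

theorem nonempty : S.Nonempty := hZ.inf.nonempty

/-- An identity on `S` holds on `Z`. -/
theorem ext {h g : (ι → ℂ) → ℂ} (hh : Reg h) (hg : Reg g) (hS : ∀ x ∈ S, h x = g x) :
    ∀ x ∈ Z, h x = g x := by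
  intro x hx
  have h1 := hZ.dense (fun x => h x - g x) (hh.sub hg) (hZ.inf.mono fun y hy =>
    ⟨hy, sub_eq_zero.2 (hS y hy)⟩) x hx
  exact sub_eq_zero.1 h1

/-- Irreducibility. -/
theorem prime {h g : (ι → ℂ) → ℂ} (hh : Reg h) (hg : Reg g) (h0 : ∀ x ∈ S, h x * g x = 0) :
    (∀ x ∈ Z, h x = 0) ∨ ∀ x ∈ Z, g x = 0 := by
  by_cases h1 : {x ∈ S | h x = 0}.Infinite
  · exact Or.inl (hZ.dense h hh h1)
  · right
    apply hZ.dense g hg
    by_contra h2
    apply hZ.inf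
    refine ((Set.not_infinite.1 h1).union (Set.not_infinite.1 h2)).subset fun x hx => ?_
    rcases mul_eq_zero.1 (h0 x hx) with h3 | h3
    · exact Or.inl ⟨hx, h3⟩
    · exact Or.inr ⟨hx, h3⟩

/-- A regular function with finitely many values on `S` is constant. -/
theorem const_of_finite {h : (ι → ℂ) → ℂ} (hh : Reg h) {W : Set ℂ} (hW : W.Finite)
    (hS : ∀ x ∈ S, h x ∈ W) : ∃ c ∈ W, ∀ x ∈ Z, h x = c := by
  have h2 : ∃ c ∈ W, {x ∈ S | h x = c}.Infinite := by
    by_contra hne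
    push Not at hne
    apply hZ.inf
    refine (Set.Finite.biUnion hW (t := fun c => {x ∈ S | h x = c}) fun c hc => ?_).subset ?_
    · exact hne c hc
    · intro x hx
      exact Set.mem_biUnion (x := h x) (hS x hx) ⟨hx, rfl⟩
  obtain ⟨c, hc, hinf⟩ := h2
  refine ⟨c, hc, fun x hx => ?_⟩
  have h3 := hZ.dense (fun x => h x - c) (hh.sub (Reg.const c)) (hinf.mono fun y hy =>
    ⟨hy.1, sub_eq_zero.2 hy.2⟩) x hx
  exact sub_eq_zero.1 h3

/-- A regular function which is bounded along all sequences is constant. -/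
theorem const_of_places {h : (ι → ℂ) → ℂ} (hh : Reg h)
    (hB : ∀ xs : ℕ → ι → ℂ, (∀ n, xs n ∈ Z) →
      (gmPl (hyperfilter ℕ)).B (toGm (hyperfilter ℕ) fun n => h (xs n))) :
    ∃ c, ∀ x ∈ Z, h x = c := by
  apply hZ.bdd h hh
  by_contra hne
  push Not at hne
  choose xs hS hxs using fun n : ℕ => hne n
  obtain ⟨c, g, hg, hc⟩ := hB xs hS
  have h1 : Tendsto (fun n => h (xs n)) (hyperfilter ℕ : Ultrafilter ℕ) (𝓝 c) :=
    hc.congr' (toGm_eq hg)
  have h2 : ∀ᶠ n in ((hyperfilter ℕ : Ultrafilter ℕ) : Filter ℕ), ‖h (xs n)‖ < ‖c‖ + 1 :=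
    h1.norm.eventually_lt_const (lt_add_one _)
  have h3 : ∀ᶠ n : ℕ in ((hyperfilter ℕ : Ultrafilter ℕ) : Filter ℕ), ‖c‖ + 1 ≤ n := by
    have h4 : ∀ᶠ n : ℕ in atTop, ‖c‖ + 1 ≤ n := by
      obtain ⟨N, hN⟩ := exists_nat_ge (‖c‖ + 1)
      filter_upwards [eventually_ge_atTop N] with n hn
      exact hN.trans (by exact_mod_cast hn)
    rw [← Nat.cofinite_eq_atTop] at h4
    exact (hyperfilter_le_cofinite (α := ℕ)) h4
  obtain ⟨n, hn1, hn2⟩ := (h2.and h3).exists
  exact absurd (hxs n) (not_lt.2 ((hn1.le).trans hn2))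

/-- The contrapositive. -/
theorem exists_place {h : (ι → ℂ) → ℂ} (hh : Reg h) (hne : ¬ ∃ c, ∀ x ∈ Z, h x = c) :
    ∃ xs : ℕ → ι → ℂ, (∀ n, xs n ∈ Z) ∧
      ¬ (gmPl (hyperfilter ℕ)).B (toGm (hyperfilter ℕ) fun n => h (xs n)) := by
  by_contra h1
  push Not at h1
  exact hne (hZ.const_of_places hh h1)

/-- The constant is positive. -/
theorem const_pos {h : (ι → ℂ) → ℂ} {c : ℂ} (hc : ∀ x ∈ Z, h x = c)
    (hpos : ∀ x ∈ S, ∃ r : ℝ, 0 < r ∧ h x = r) : ∃ r : ℝ, 0 < r ∧ c = r := by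
  obtain ⟨x, hx⟩ := hZ.nonempty
  obtain ⟨r, hr, hr'⟩ := hpos x hx
  exact ⟨r, hr, by rw [← hr', hc x (hZ.sub hx)]⟩

end Cl

/-- The value of a constant function at a place. -/
theorem toGm_const_lim {F : Ultrafilter ℕ} {g : ℕ → ℂ} {c : ℂ} (hg : ∀ n, g n = c) :
    (gmPl F).Lim (toGm F g) c :=
  ⟨g, rfl, tendsto_const_nhds.congr fun n => (hg n).symm⟩

end Pool.Agent.H.MP_deabf1_gt
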