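import Pool.Agent.H.MP_deabf1_gt.helper94.Swap

/-!
Consequences of the existence of ends for the structure constants: an end of the second kind.
-/

namespace Pool.Agent.H.MP_deabf1_gt.Four

variable {K : Type*} [Field K] [Algebra ℝ K] {P : Pl K}
  {T : Fin 4 → Fin 4 → Fin 4 → ℝ} {u u' u'' : Fin 4 → K} {i j k l : Fin 4}
  {a ρ b s σ w t x y z G : ℝ}

theorem E3.disc (h : E3 P T u i j k l a ρ) : T i j k ^ 2 ≠ T i i k * T j j k := by
  intro h0
  apply h.simple
  have h1 : (T i i k * a - T i j k) ^ 2 = 0 := by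
    linear_combination T i i k * h.root + h0
  have h2 := pow_eq_zero_iff two_ne_zero |>.1 h1
  linarith

theorem E3.sq1 (h : E3 P T u i j k l a ρ) : T i j l ^ 2 = T i i l * T j j l := by
  rw [h.ijl, h.jjl]
  ring

theorem E3.sq2 (h : E3 P T u i j k l a ρ) : T i k l ^ 2 = T i i l * T k k l := by
  rw [h.ikl, h.kkl]
  ring

theorem E3.sq3 (h : E3 P T u i j k l a ρ) : T j k l ^ 2 = T j j l * T k k l := by
  rw [h.jkl, h.jjl, h.kkl]
  ring

theorem E1.sqk (h : E1 P T u i j k l a) : T i j k ^ 2 = T i i k * T j j k := by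
  rw [h.ijk, h.jjk]
  ring

theorem E1.sql (h : E1 P T u i j k l a) : T i j l ^ 2 = T i i l * T j j l := by
  rw [h.ijl, h.jjl]
  ring

theorem E1.cross (h : E1 P T u i j k l a) : T i i k * T i j l = T i i l * T i j k := by
  rw [h.ijl, h.ijk]
  ring

/-- The structure constants in terms of parameters. -/
structure Par (T : Fin 4 → Fin 4 → Fin 4 → ℝ) (i j k l : Fin 4) (G x y z b : ℝ) : Prop where
  hG : 0 < G
  hx : 0 < x
  hy : 0 < y
  hz : 0 < z
  hb : 0 ≤ b
  hb1 : b ≠ 1
  iil : T i i l = G * z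
  ijl : T i j l = G * x * z
  jjl : T j j l = G * x ^ 2 * z
  ikl : T i k l = G * y * z
  kkl : T k k l = G * y ^ 2 * z
  jkl : T j k l = G * x * y * z
  jji : T j j i = G * x ^ 2
  lli : T l l i = G * z ^ 2
  jjk : T j j k = G * x ^ 2 * y
  llk : T l l k = G * z ^ 2 * y
  iik : T i i k = b * G * y
  ijk : T i j k = G * x * y * (1 + b) / 2

theorem par_of (hT : Sym T) (hT0 : ∀ i j k, 0 ≤ T i j k) (h : E3 P T u i j k l a ρ)
    (h' : E1 P T u' j l i k t) :
    Par T i j k l (T i i l / (a * t)) a ρ (a * t) (T i i k / (T i i l / (a * t) * ρ)) := by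
  have ha := h.ha
  have ht := h'.ha
  have hl := h.pl
  have hji := h'.pk
  have hjk := h'.pl
  obtain ⟨G, hG⟩ : ∃ G, G = T i i l / (a * t) := ⟨_, rfl⟩
  have hGp : 0 < G := by
    rw [hG]
    positivity
  have iil : T i i l = G * (a * t) := by
    rw [hG]
    field_simp
  rw [← hG]
  have s1 : T j l i = T i j l := by rw [hT.2 j l i, hT.1 j i l]
  have s2 : T j l k = T j k l := hT.2 j l k
  have jji : T j j i = G * a ^ 2 := by
    have e := h'.ijk
    rw [s1, h.ijl, iil] at e
    have e2 : t * (T j j i - G * a ^ 2) = 0 := by linear_combination -e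
    rcases mul_eq_zero.1 e2 with e3 | e3
    · exact absurd e3 ht.ne'
    · linarith
  have jjk : T j j k = G * a ^ 2 * ρ := by
    have e := h'.ijl
    rw [s2, h.jkl, iil] at e
    have e2 : t * (T j j k - G * a ^ 2 * ρ) = 0 := by linear_combination -e
    rcases mul_eq_zero.1 e2 with e3 | e3
    · exact absurd e3 ht.ne'
    · linarith
  have hρ : 0 < ρ := by
    rw [jjk] at hjk
    have h1 : 0 < G * a ^ 2 := by positivity
    exact (pos_iff_pos_of_mul_pos hjk).1 h1
  obtain ⟨b, hb⟩ : ∃ b, b = T i i k / (G * ρ) := ⟨_, rfl⟩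
  have iik : T i i k = b * G * ρ := by
    rw [hb]
    field_simp
  rw [← hb]
  have ijk : T i j k = G * a * ρ * (1 + b) / 2 := by
    have e := h.root
    rw [iik, jjk] at e
    have e2 : a * (T i j k - G * a * ρ * (1 + b) / 2) = 0 := by linear_combination -(1 / 2) * e
    rcases mul_eq_zero.1 e2 with e3 | e3
    · exact absurd e3 ha.ne'
    · linarith
  refine ⟨hGp, ha, hρ, mul_pos ha ht, ?_, ?_, iil, ?_, ?_, ?_, ?_, ?_, jji, ?_, jjk, ?_, iik, ijk⟩
  · rw [hb]
    exact div_nonneg (hT0 i i k) (mul_pos hGp hρ).le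
  · rintro rfl
    apply h.simple
    rw [ijk, iik]
    ring
  · rw [h.ijl, iil]
    ring
  · rw [h.jjl, iil]
    ring
  · rw [h.ikl, iil]
    ring
  · rw [h.kkl, iil]
    ring
  · rw [h.jkl, iil]
    ring
  · rw [h'.jjk, jji]
    ring
  · rw [h'.jjl, jjk]
    ring

namespace Par

variable (p : Par T i j k l G x y z b)

include p

theorem ne4 : (1 + b) ^ 2 ≠ 4 := by
  intro h
  apply p.hb1
  have h1 : (b - 1) * (b + 3) = 0 := by linear_combination h
  rcases mul_eq_zero.1 h1 with h2 | h2
  · linarith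
  · have := p.hb
    linarith

theorem ijk_sq : T i j k ^ 2 ≠ T i i k * T j j k := by
  intro h
  rw [p.ijk, p.iik, p.jjk] at h
  have h1 : (G * x * y) ^ 2 * (1 - b) ^ 2 = 0 := by linear_combination 4 * h
  have := p.hG
  have := p.hx
  have := p.hy
  have h2 : (G * x * y) ^ 2 ≠ 0 := by positivity
  rcases mul_eq_zero.1 h1 with h3 | h3
  · exact h2 h3
  · apply p.hb1
    have h4 := pow_eq_zero_iff two_ne_zero |>.1 h3
    linarith

/-- `(i j | k l)` -/
theorem not_ijkl (h : E1 P T u i j k l a) : False := p.ijk_sq h.sqk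

/-- `(i l | j k)` -/
theorem not_iljk (hT : Sym T) (h : E1 P T u i l j k a) : False := by
  have h1 := h.sql
  rw [hT.2 i l k, p.ikl, p.iik, p.llk] at h1
  apply p.hb1
  have h2 : (G * y * z) ^ 2 * (1 - b) = 0 := by linear_combination h1
  have := p.hG
  have := p.hz
  have := p.hy
  have h3 : (G * y * z) ^ 2 ≠ 0 := by positivity
  rcases mul_eq_zero.1 h2 with h4 | h4
  · exact absurd h4 h3
  · linarith

/-- `(j k | i l)` -/
theorem not_jkil (hT : Sym T) (h : E1 P T u j k i l a) : False := by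
  have h1 := h.cross
  have s1 : T j k i = T i j k := by rw [hT.2 j k i, hT.1 j i k]
  rw [s1, p.jji, p.jkl, p.jjl, p.ijk] at h1
  apply p.hb1
  have h2 : G ^ 2 * x ^ 3 * y * z * (1 - b) = 0 := by linear_combination 2 * h1
  have := p.hG
  have := p.hx
  have := p.hz
  have := p.hy
  have h3 : G ^ 2 * x ^ 3 * y * z ≠ 0 := by positivity
  rcases mul_eq_zero.1 h2 with h4 | h4
  · exact absurd h4 h3
  · linarith

/-- The last index cannot be `i`. -/
theorem not_i (hT : Sym T) (h1 : T j k i ^ 2 = T j j i * T k k i)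
    (h2 : T k l i ^ 2 = T k k i * T l l i) : False := by
  have s1 : T j k i = T i j k := by rw [hT.2 j k i, hT.1 j i k]
  have s2 : T k l i = T i k l := by rw [hT.2 k l i, hT.1 k i l]
  rw [s1, p.ijk, p.jji] at h1
  rw [s2, p.ikl, p.lli] at h2
  have := p.hG
  have := p.hx
  have := p.hz
  have := p.hy
  have h3 : T k k i = G * y ^ 2 := by
    have h4 : G * z ^ 2 * (T k k i - G * y ^ 2) = 0 := by linear_combination -h2
    have h5 : G * z ^ 2 ≠ 0 := by positivity
    rcases mul_eq_zero.1 h4 with h6 | h6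
    · exact absurd h6 h5
    · linarith
  rw [h3] at h1
  apply p.ne4
  have h4 : (G * x * y) ^ 2 * ((1 + b) ^ 2 - 4) = 0 := by linear_combination 4 * h1
  have h5 : (G * x * y) ^ 2 ≠ 0 := by positivity
  rcases mul_eq_zero.1 h4 with h6 | h6
  · exact absurd h6 h5
  · linarith

/-- `(j k; l; i)` -/
theorem not_jkli (hT : Sym T) (h : E3 P T u j k l i a ρ) : False :=
  p.not_i hT h.sq1 h.sq3

/-- `(j l; k; i)` -/
theorem not_jlki (hT : Sym T) (h : E3 P T u j l k i a ρ) : False :=
  p.not_i hT h.sq2 (by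
    have h1 := h.sq3
    rw [hT.1 l k i] at h1
    rw [h1]
    ring)

/-- `(k l; j; i)` -/
theorem not_klji (hT : Sym T) (h : E3 P T u k l j i a ρ) : False :=
  p.not_i hT (by
    have h1 := h.sq2
    rw [hT.1 k j i] at h1
    rw [h1]
    ring) h.sq1

/-- `(i j; l; k)` -/
theorem not_ijlk (h : E3 P T u i j l k a ρ) : False := p.ijk_sq h.sq1

/-- `(i l; j; k)` -/
theorem not_iljk' (h : E3 P T u i l j k a ρ) : False := p.ijk_sq h.sq2

/-- `(j l; i; k)` -/
theorem not_jlik (hT : Sym T) (h : E3 P T u j l i k a ρ) : False := p.ijk_sq (by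
  have h1 := h.sq2
  rw [hT.1 j i k] at h1
  rw [h1]
  ring)

/-- `(i l; k; j)` -/
theorem not_ilkj (hT : Sym T) (h : E3 P T u i l k j s σ) : False := by
  have s1 : T l k j = T j k l := by rw [hT.1 l k j, hT.2 k l j, hT.1 k j l]
  have s2 : T i k j = T i j k := hT.2 i k j
  have s3 : T i l k = T i k l := hT.2 i l k
  have h1 : T l k j = s * T i k j := by
    rw [h.jkl, h.ikl]
    ring
  rw [s1, s2, p.jkl, p.ijk] at h1
  have h2 := h.root
  rw [s3, p.iik, p.ikl, p.llk] at h2
  have := p.hG
  have := p.hx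
  have := p.hz
  have := p.hy
  have h3 : s * (1 + b) = 2 * z := by
    have h4 : G * x * y * (s * (1 + b) - 2 * z) = 0 := by linear_combination -2 * h1
    have h5 : G * x * y ≠ 0 := by positivity
    rcases mul_eq_zero.1 h4 with h6 | h6
    · exact absurd h6 h5
    · linarith
  have h6 : b * s ^ 2 - 2 * z * s + z ^ 2 = 0 := by
    have h4 : G * y * (b * s ^ 2 - 2 * z * s + z ^ 2) = 0 := by linear_combination h2
    have h5 : G * y ≠ 0 := by positivity
    exact (mul_eq_zero.1 h4).resolve_left h5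
  apply p.ne4
  have h7 : z ^ 2 * ((1 + b) ^ 2 - 4) = 0 := by
    have e1 : (s * (1 + b)) ^ 2 = 4 * z ^ 2 := by
      rw [h3]
      ring
    linear_combination (1 + b) ^ 2 * h6 - b * e1 + 2 * z * (1 + b) * h3
  have h8 : z ^ 2 ≠ 0 := by positivity
  have h9 := (mul_eq_zero.1 h7).resolve_left h8
  linarith

/-- `(i k; l; j)` -/
theorem not_iklj (h : E3 P T u i k l j a ρ) : False := by
  apply h.disc
  rw [p.ikl, p.iil, p.kkl]
  ring

/-- The exceptional end `(k l; i; j)`: the ratio. -/
theorem x_ratio (hT : Sym T) (h : E3 P T u k l i j s σ) : s * (y * (1 + b)) = 2 * z := by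
  have s1 : T l i j = T i j l := by rw [hT.1 l i j, hT.2 i l j]
  have s2 : T k i j = T i j k := by rw [hT.1 k i j, hT.2 i k j]
  have h1 : T l i j = s * T k i j := by
    rw [h.jkl, h.ikl]
    ring
  rw [s1, s2, p.ijl, p.ijk] at h1
  have := p.hG
  have := p.hx
  have h4 : G * x * (s * (y * (1 + b)) - 2 * z) = 0 := by linear_combination -2 * h1
  have h5 : G * x ≠ 0 := by positivity
  have h6 := (mul_eq_zero.1 h4).resolve_left h5
  linarith

/-- No end `(k l | i j)` together with `(k l; i; j)`. -/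
theorem x_not_klij (hT : Sym T) (h : E3 P T u k l i j s σ) (h' : E1 P T u' k l i j w) : False := by
  have h1 := p.x_ratio hT h
  have hkk := h.pl
  have h2 : w = s := by
    have e1 := h.ijl
    have e2 := h'.ijl
    rw [e1] at e2
    have e3 : T k k j * (s - w) = 0 := by linear_combination e2
    have e4 := (mul_eq_zero.1 e3).resolve_left hkk.ne'
    linarith
  have s2 : T k l i = T i k l := by rw [hT.2 k l i, hT.1 k i l]
  have e5 := h'.ijk
  have e6 := h'.jjk
  rw [s2, p.ikl] at e5
  rw [p.lli] at e6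
  have := p.hG
  have := p.hy
  have := p.hz
  have hw := h'.ha
  have e7 : w * y = z := by
    have e8 : G * z * (w * y - z) = 0 := by
      linear_combination w * e5 - e6
    have e9 : G * z ≠ 0 := by positivity
    have e10 := (mul_eq_zero.1 e8).resolve_left e9
    linarith
  apply p.hb1
  rw [← h2] at h1
  have e8 : z * (1 + b - 2) = 0 := by linear_combination h1 - (1 + b) * e7
  have e9 := (mul_eq_zero.1 e8).resolve_left this.ne'
  linarith

/-- No end `(j k; i; l)` together with `(k l; i; j)`. -/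
theorem x_not_jkil (hT : Sym T) (h : E3 P T u k l i j s σ) (h' : E3 P T u' j k i l w t) :
    False := by
  have h1 := p.x_ratio hT h
  have := p.hG
  have := p.hx
  have := p.hy
  have := p.hz
  have := p.hb
  have s1 : T j k i = T i j k := by rw [hT.2 j k i, hT.1 j i k]
  have s2 : T k l i = T i k l := by rw [hT.2 k l i, hT.1 k i l]
  have hw : w * x = y := by
    have e1 := h'.ijl
    rw [p.jkl, p.jjl] at e1
    have e8 : G * x * z * (w * x - y) = 0 := by linear_combination -e1
    have e9 : G * x * z ≠ 0 := by positivity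
    have e10 := (mul_eq_zero.1 e8).resolve_left e9
    linarith
  have e2 := h'.root
  rw [s1, p.jji, p.ijk] at e2
  have hkk : T k k i = b * G * y ^ 2 := by
    linear_combination e2 - G * (w * x + y) * hw + G * y * (1 + b) * hw
  have e3 := h.root
  rw [s2, hkk, p.ikl, p.lli] at e3
  apply p.ne4
  have e4 : b * (s * y) ^ 2 - 2 * z * (s * y) + z ^ 2 = 0 := by
    have e5 : G * (b * (s * y) ^ 2 - 2 * z * (s * y) + z ^ 2) = 0 := by linear_combination e3
    exact (mul_eq_zero.1 e5).resolve_left (by positivity)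
  have e6 : z ^ 2 * ((1 + b) ^ 2 - 4) = 0 := by
    have e1 : (s * y * (1 + b)) ^ 2 = 4 * z ^ 2 := by
      have : s * y * (1 + b) = 2 * z := by linear_combination h1
      rw [this]
      ring
    linear_combination (1 + b) ^ 2 * e4 - b * e1 + 2 * z * (1 + b) * h1
  have h9 := (mul_eq_zero.1 e6).resolve_left (by positivity)
  linarith

omit p in
/-- No end `(i k; j; l)` together with `(k l; i; j)`. -/
theorem x_not_ikjl (hT : Sym T) (h : E3 P T u k l i j s σ) (h' : E3 P T u' i k j l w t) :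
    False := by
  apply h'.disc
  rw [hT.1 i k j, h.ikl, h.kkl]
  ring

end Par

end Pool.Agent.H.MP_deabf1_gt.Four
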