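import Pool.Agent.H.MP_deabf1_gt.helper94.Mono

/-!
If all integer relations of the dimensions are proportional then an infinite set of positive
solutions contains an infinite subset on a monomial curve.
-/

namespace Pool.Agent.H.MP_deabf1_gt.Gen

theorem primitive {q : ℕ} (r0 : Fin q → ℤ) (h0 : ∃ i, r0 i ≠ 0) :
    ∃ (g : ℤ) (r m : Fin q → ℤ), g ≠ 0 ∧ (∀ i, r0 i = g * r i) ∧ ∑ i, m i * r i = 1 := by
  obtain ⟨g, hg⟩ := (IsPrincipalIdealRing.principal (Ideal.span (Set.range r0))).principal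
  have h1 : ∀ i, ∃ a, r0 i = g * a := by
    intro i
    have h2 : r0 i ∈ Ideal.span (Set.range r0) := Ideal.subset_span ⟨i, rfl⟩
    rw [hg] at h2
    obtain ⟨a, ha⟩ := Ideal.mem_span_singleton.1 h2
    exact ⟨a, ha⟩
  choose r hr using h1
  have hg0 : g ≠ 0 := by
    rintro rfl
    obtain ⟨i, hi⟩ := h0
    exact hi (by rw [hr i, zero_mul])
  have h2 : g ∈ Ideal.span (Set.range r0) := by
    rw [hg]
    exact Submodule.mem_span_singleton_self g
  obtain ⟨m, hm⟩ := (Ideal.mem_span_range_iff_exists_fun).1 h2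
  refine ⟨g, r, m, hg0, hr, ?_⟩
  apply mul_left_cancel₀ hg0
  rw [mul_one, Finset.mul_sum]
  conv_rhs => rw [← hm]
  refine Finset.sum_congr rfl fun i _ => ?_
  rw [hr i]
  ring

/-- The exponent vector of `u i ^ r j / u j ^ r i`. -/
def ex {q : ℕ} (r : Fin q → ℤ) (p : Fin q × Fin q) (l : Fin q) : ℤ :=
  (if l = p.1 then r p.2 else 0) - if l = p.2 then r p.1 else 0

theorem ex_prod {q : ℕ} {k : Type*} [Field k] (r : Fin q → ℤ) (p : Fin q × Fin q) {u : Fin q → k}
    (hu : ∀ i, u i ≠ 0) : ∏ l, u l ^ ex r p l = u p.1 ^ r p.2 / u p.2 ^ r p.1 := by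
  have h1 : ∀ l, u l ^ ex r p l = (if l = p.1 then u l ^ r p.2 else 1) /
      (if l = p.2 then u l ^ r p.1 else 1) := by
    intro l
    unfold ex
    rw [zpow_sub₀ (hu l)]
    split_ifs <;> simp
  rw [Finset.prod_congr rfl fun l _ => h1 l, Finset.prod_div_distrib, Finset.prod_ite_eq' _ p.1,
    Finset.prod_ite_eq' _ p.2]
  simp

/-- The coset step. -/
theorem coset {q : ℕ} {k : Type} [Field k] [LinearOrder k] [IsStrictOrderedRing k]
    {T : Fin q → Fin q → Fin q → k} (hT : Sym T) {γ d : Fin q → k}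
    (hinf : {u : Fin q → k | (∀ i, 0 < u i) ∧ ∀ i, eqL T γ u i = d i}.Infinite)
    (hrel : ∀ r r' : Fin q → ℤ, ∑ i, (r i : k) * d i = 0 → ∑ i, (r' i : k) * d i = 0 →
      ∀ i j, r i * r' j = r j * r' i) :
    ∃ (r : Fin q → ℤ) (c : Fin q → k) (W : Set k), (∃ i, r i ≠ 0) ∧ (∀ i, 0 < c i) ∧
      W.Infinite ∧ (∀ w ∈ W, 0 < w) ∧
      (∀ w ∈ W, ∀ i, eqL T γ (fun i => c i * w ^ r i) i = d i) ∧ ∑ i, (r i : k) * d i = 0 := by
  classical
  obtain ⟨S, hSdef⟩ : ∃ S, S = {u : Fin q → k | (∀ i, 0 < u i) ∧ ∀ i, eqL T γ u i = d i} :=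
    ⟨_, rfl⟩
  rw [← hSdef] at hinf
  have hS1 : ∀ u ∈ S, (∀ i, 0 < u i) ∧ ∀ i, eqL T γ u i = d i := fun u hu => by
    rw [hSdef] at hu
    exact hu
  have hS : ∀ u ∈ S, (∀ i, u i ≠ 0) ∧ ∀ i, eqL T γ u i = d i := fun u hu =>
    ⟨fun i => ((hS1 u hu).1 i).ne', (hS1 u hu).2⟩
  by_cases h0 : ∃ r0 : Fin q → ℤ, ∑ i, (r0 i : k) * d i = 0 ∧ ∃ i, r0 i ≠ 0
  · obtain ⟨r0, hr0, hr0'⟩ := h0
    obtain ⟨g, r, m, hg, hgr, hm⟩ := primitive r0 hr0'
    have hr : ∑ i, (r i : k) * d i = 0 := by
      have h1 : (g : k) * ∑ i, (r i : k) * d i = 0 := by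
        rw [← hr0, Finset.mul_sum]
        refine Finset.sum_congr rfl fun i _ => ?_
        rw [hgr i]
        push_cast
        ring
      exact (mul_eq_zero.1 h1).resolve_left (by exact_mod_cast hg)
    have hr' : ∃ i, r i ≠ 0 := by
      obtain ⟨i, hi⟩ := hr0'
      exact ⟨i, fun h => hi (by rw [hgr i, h, mul_zero])⟩
    -- the monomials with finitely many values
    have hfin : ∀ p : Fin q × Fin q, ((fun u : Fin q → k => ∏ l, u l ^ ex r p l) '' S).Finite := by
      intro p
      refine mono_finite hT hS fun n hn => ?_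
      have h1 := hrel n r hn hr p.1 p.2
      have h2 : ∑ i, ex r p i * n i = r p.2 * n p.1 - r p.1 * n p.2 := by
        unfold ex
        simp only [sub_mul, ite_mul, zero_mul, Finset.sum_sub_distrib, Finset.sum_ite_eq',
          Finset.mem_univ, if_true]
      rw [h2]
      linarith [h1]
    let F : (Fin q → k) → (Fin q × Fin q → k) := fun u p => ∏ l, u l ^ ex r p l
    have hF : (F '' S).Finite := by
      refine (Set.Finite.pi' hfin).subset ?_
      rintro _ ⟨u, hu, rfl⟩ p
      exact ⟨u, hu, rfl⟩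
    obtain ⟨v, hv⟩ : ∃ v, (S ∩ F ⁻¹' {v}).Infinite := by
      by_contra hcon
      push Not at hcon
      exact hinf (Set.Finite.of_finite_fibers F hF fun x _ => hcon x)
    obtain ⟨c, hcS, hcv⟩ := hv.nonempty
    have hc : ∀ i, 0 < c i := (hS1 c hcS).1
    let ω : (Fin q → k) → k := fun u => ∏ j, (u j / c j) ^ m j
    have hω : ∀ u ∈ S ∩ F ⁻¹' {v}, 0 < ω u ∧ ∀ i, u i = c i * ω u ^ r i := by
      rintro u ⟨huS, huv⟩
      have hu : ∀ i, 0 < u i := (hS1 u huS).1
      have ht : ∀ i, 0 < u i / c i := fun i => div_pos (hu i) (hc i)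
      refine ⟨Finset.prod_pos fun j _ => zpow_pos (ht j) _, fun i => ?_⟩
      have h1 : ∀ i j, (u i / c i) ^ r j = (u j / c j) ^ r i := by
        intro i j
        have h2 : F u (i, j) = F c (i, j) := by
          rw [Set.mem_preimage, Set.mem_singleton_iff] at huv hcv
          rw [huv, hcv]
        have h3 : u i ^ r j / u j ^ r i = c i ^ r j / c j ^ r i := by
          have e1 := ex_prod r (i, j) fun i => (hu i).ne'
          have e2 := ex_prod r (i, j) fun i => (hc i).ne'
          exact e1.symm.trans (h2.trans e2)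
        rw [div_zpow, div_zpow]
        have n1 : u j ^ r i ≠ 0 := zpow_ne_zero _ (hu j).ne'
        have n2 : c j ^ r i ≠ 0 := zpow_ne_zero _ (hc j).ne'
        have n3 : c i ^ r j ≠ 0 := zpow_ne_zero _ (hc i).ne'
        rw [div_eq_div_iff n1 n2] at h3
        rw [div_eq_div_iff n3 n2]
        linear_combination h3
      have h2 : ω u ^ r i = u i / c i := by
        change (∏ j, (u j / c j) ^ m j) ^ r i = _
        rw [← Finset.prod_zpow]
        have h3 : ∀ j, ((u j / c j) ^ m j) ^ r i = (u i / c i) ^ (m j * r j) := by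
          intro j
          rw [← zpow_mul, mul_comm (m j) (r i), zpow_mul, ← h1 i j, ← zpow_mul, mul_comm (r j)]
        rw [Finset.prod_congr rfl fun j _ => h3 j]
        have h4 : ∀ s : Finset (Fin q), ∏ j ∈ s, (u i / c i) ^ (m j * r j) =
            (u i / c i) ^ (∑ j ∈ s, m j * r j) := by
          intro s
          induction s using Finset.induction_on with
          | empty => simp
          | insert a s ha ih =>
            rw [Finset.prod_insert ha, Finset.sum_insert ha, ih, zpow_add₀ (ht i).ne']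
        rw [h4, hm, zpow_one]
      rw [h2, mul_div_cancel₀ _ (hc i).ne']
    refine ⟨r, c, ω '' (S ∩ F ⁻¹' {v}), hr', hc, ?_, ?_, ?_, hr⟩
    · refine hv.image fun u hu u' hu' huu => ?_
      funext i
      rw [(hω u hu).2 i, (hω u' hu').2 i, huu]
    · rintro _ ⟨u, hu, rfl⟩
      exact (hω u hu).1
    · rintro _ ⟨u, hu, rfl⟩ i
      have h1 : (fun i => c i * ω u ^ r i) = u := funext fun i => ((hω u hu).2 i).symm
      rw [h1]
      exact (hS1 u hu.1).2 i
  · exfalso
    push Not at h0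
    refine hinf ?_
    have h1 : ∀ i, ((fun u : Fin q → k => ∏ l, u l ^ (if l = i then (1 : ℤ) else 0)) '' S).Finite := by
      intro i
      refine mono_finite hT hS fun n hn => ?_
      refine Finset.sum_eq_zero fun j _ => ?_
      rw [h0 n hn j, mul_zero]
    have h2 : ∀ i, ((fun u : Fin q → k => u i) '' S).Finite := by
      intro i
      have h3 : (fun u : Fin q → k => ∏ l, u l ^ (if l = i then (1 : ℤ) else 0)) =
          fun u : Fin q → k => u i := by
        funext u
        rw [Finset.prod_eq_single i]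
        · simp
        · intro j _ hj
          simp [hj]
        · intro hi
          exact absurd (Finset.mem_univ i) hi
      rw [← h3]
      exact h1 i
    refine (Set.Finite.pi' h2).subset ?_
    intro u hu i
    exact ⟨u, hu, rfl⟩

end Pool.Agent.H.MP_deabf1_gt.Gen
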