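import Pool.Agent.H.MP_deabf1_gt.helper94.Alg

/-!
The linear form is bounded at the ends.
-/

namespace Pool.Agent.H.MP_deabf1_gt.Four

variable {K : Type*} [Field K] [Algebra ℝ K] {P : Pl K}
  {T : Fin 4 → Fin 4 → Fin 4 → ℝ} {u u' u'' : Fin 4 → K} {i j k l : Fin 4}
  {a ρ b s σ w t x y z G : ℝ}

theorem E1.Bk (h : E1 P T u i j k l a) : P.B (u k) := h.odk.B h.odI h.ne_j (by norm_num)

theorem E1.Bl (h : E1 P T u i j k l a) : P.B (u l) := h.odl.B h.odI h.ne_j (by norm_num)

theorem E3.Il (h : E3 P T u i j k l a ρ) : P.I (u l) := h.odl.I h.odI h.ne_j (by norm_num)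

namespace Par

variable (p : Par T i j k l G x y z b)

include p

theorem lin_klij (hT : Sym T) (h : E1 P T u k l i j w) :
    P.B (u i + algebraMap ℝ K x * u j + algebraMap ℝ K y * u k + algebraMap ℝ K z * u l) := by
  have hw : y * w = z := by
    have e5 := h.ijk
    have e6 := h.jjk
    rw [hT.2 k l i, hT.1 k i l, p.ikl] at e5
    rw [p.lli] at e6
    have := p.hG
    have := p.hz
    have e8 : G * z * (y * w - z) = 0 := by linear_combination w * e5 - e6
    have e9 : G * z ≠ 0 := by positivity
    have e10 := (mul_eq_zero.1 e8).resolve_left e9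
    linarith
  have h1 := ((Pl.B.cst (P := P) y).mul h.Bz).add (h.Bk.add ((Pl.B.cst (P := P) x).mul h.Bl))
  have e : algebraMap ℝ K y * (u k + algebraMap ℝ K w * u l) + (u i + algebraMap ℝ K x * u j)
      = u i + algebraMap ℝ K x * u j + algebraMap ℝ K y * u k + algebraMap ℝ K z * u l := by
    rw [← hw, map_mul]
    ring
  rwa [e] at h1

theorem lin_ikjl (h : E1 P T u i k j l w) :
    P.B (u i + algebraMap ℝ K x * u j + algebraMap ℝ K y * u k + algebraMap ℝ K z * u l) := by
  have hw : w = y := by
    have e5 := h.ijl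
    rw [p.ikl, p.iil] at e5
    have := p.hG
    have := p.hz
    have e8 : G * z * (w - y) = 0 := by linear_combination -e5
    have e9 : G * z ≠ 0 := by positivity
    have e10 := (mul_eq_zero.1 e8).resolve_left e9
    linarith
  have h1 := h.Bz.add (((Pl.B.cst (P := P) x).mul h.Bk).add ((Pl.B.cst (P := P) z).mul h.Bl))
  have e : u i + algebraMap ℝ K w * u k + (algebraMap ℝ K x * u j + algebraMap ℝ K z * u l)
      = u i + algebraMap ℝ K x * u j + algebraMap ℝ K y * u k + algebraMap ℝ K z * u l := by
    rw [hw]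
    ring
  rwa [e] at h1

theorem lin_jlik (hT : Sym T) (h : E1 P T u j l i k w) :
    P.B (u i + algebraMap ℝ K x * u j + algebraMap ℝ K y * u k + algebraMap ℝ K z * u l) := by
  have hw : x * w = z := by
    have e5 := h.ijk
    rw [hT.2 j l i, hT.1 j i l, p.ijl, p.jji] at e5
    have := p.hG
    have := p.hx
    have e8 : G * x * (x * w - z) = 0 := by linear_combination -e5
    have e9 : G * x ≠ 0 := by positivity
    have e10 := (mul_eq_zero.1 e8).resolve_left e9
    linarith
  have h1 := ((Pl.B.cst (P := P) x).mul h.Bz).add (h.Bk.add ((Pl.B.cst (P := P) y).mul h.Bl))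
  have e : algebraMap ℝ K x * (u j + algebraMap ℝ K w * u l) + (u i + algebraMap ℝ K y * u k)
      = u i + algebraMap ℝ K x * u j + algebraMap ℝ K y * u k + algebraMap ℝ K z * u l := by
    rw [← hw, map_mul]
    ring
  rwa [e] at h1

theorem lin_ijkl (h : E3 P T u i j k l s σ) :
    P.I (u i + algebraMap ℝ K x * u j + algebraMap ℝ K y * u k + algebraMap ℝ K z * u l) := by
  have := p.hG
  have := p.hz
  have hs : s = x := by
    have e5 := h.ijl
    rw [p.ijl, p.iil] at e5
    have e8 : G * z * (s - x) = 0 := by linear_combination -e5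
    have e10 := (mul_eq_zero.1 e8).resolve_left (by positivity)
    linarith
  have hσ : σ = y := by
    have e5 := h.ikl
    rw [p.ikl, p.iil] at e5
    have e8 : G * z * (σ - y) = 0 := by linear_combination -e5
    have e10 := (mul_eq_zero.1 e8).resolve_left (by positivity)
    linarith
  have hz : P.I (u i + algebraMap ℝ K s * u j + algebraMap ℝ K σ * u k) := h.Lz
  have h1 := hz.add ((Pl.B.cst (P := P) z).mulI h.Il)
  rwa [hs, hσ] at h1

theorem lin_ikjl' (h : E3 P T u i k j l s σ) :
    P.B (u i + algebraMap ℝ K x * u j + algebraMap ℝ K y * u k + algebraMap ℝ K z * u l) := by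
  have := p.hG
  have := p.hz
  have hs : s = y := by
    have e5 := h.ijl
    rw [p.ikl, p.iil] at e5
    have e8 : G * z * (s - y) = 0 := by linear_combination -e5
    have e10 := (mul_eq_zero.1 e8).resolve_left (by positivity)
    linarith
  have hσ : σ = x := by
    have e5 := h.ikl
    rw [p.ijl, p.iil] at e5
    have e8 : G * z * (σ - x) = 0 := by linear_combination -e5
    have e10 := (mul_eq_zero.1 e8).resolve_left (by positivity)
    linarith
  have hz : P.I (u i + algebraMap ℝ K s * u k + algebraMap ℝ K σ * u j) := h.Lz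
  have h1 := (hz.add ((Pl.B.cst (P := P) z).mulI h.Il)).B
  rw [hs, hσ] at h1
  have e : u i + algebraMap ℝ K y * u k + algebraMap ℝ K x * u j + algebraMap ℝ K z * u l
      = u i + algebraMap ℝ K x * u j + algebraMap ℝ K y * u k + algebraMap ℝ K z * u l := by
    ring
  rwa [e] at h1

theorem lin_jkil (hT : Sym T) (h : E3 P T u j k i l s σ) :
    P.B (u i + algebraMap ℝ K x * u j + algebraMap ℝ K y * u k + algebraMap ℝ K z * u l) := by
  have := p.hG
  have := p.hz
  have := p.hx
  have hs : x * s = y := by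
    have e5 := h.ijl
    rw [p.jkl, p.jjl] at e5
    have e8 : G * x * z * (x * s - y) = 0 := by linear_combination -e5
    have e10 := (mul_eq_zero.1 e8).resolve_left (by positivity)
    linarith
  have hσ : x * σ = 1 := by
    have e5 := h.ikl
    rw [hT.1 j i l, p.ijl, p.jjl] at e5
    have e8 : G * x * z * (x * σ - 1) = 0 := by linear_combination -e5
    have e10 := (mul_eq_zero.1 e8).resolve_left (by positivity)
    linarith
  have hz : P.I (u j + algebraMap ℝ K s * u k + algebraMap ℝ K σ * u i) := h.Lz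
  have h1 := (((Pl.B.cst (P := P) x).mulI hz).add ((Pl.B.cst (P := P) z).mulI h.Il)).B
  have e : algebraMap ℝ K x * (u j + algebraMap ℝ K s * u k + algebraMap ℝ K σ * u i)
      + algebraMap ℝ K z * u l
      = u i + algebraMap ℝ K x * u j + algebraMap ℝ K y * u k + algebraMap ℝ K z * u l := by
    have e1 : algebraMap ℝ K x * algebraMap ℝ K s = algebraMap ℝ K y := by rw [← map_mul, hs]
    have e2 : algebraMap ℝ K x * algebraMap ℝ K σ = 1 := by rw [← map_mul, hσ, map_one]
    linear_combination u k * e1 + u i * e2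
  rwa [e] at h1

/-- The linear form is bounded at all ends but the exceptional one. -/
theorem lin_B (hT : Sym T) (hd : Dist i j k l) (hE : IsEnd P T u)
    (hX : ∀ s σ, ¬ E3 P T u k l i j s σ) :
    P.B (u i + algebraMap ℝ K x * u j + algebraMap ℝ K y * u k + algebraMap ℝ K z * u l) := by
  obtain ⟨i', j', k', l', hd', ⟨a, h⟩ | ⟨a, ρ, h⟩⟩ := hE
  · obtain ⟨b, h | h | h | h | h | h⟩ := h.normal hT hd hd'
    · exact (p.not_ijkl h).elim
    · exact p.lin_klij hT h
    · exact p.lin_ikjl h
    · exact p.lin_jlik hT h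
    · exact (p.not_iljk hT h).elim
    · exact (p.not_jkil hT h).elim
  · obtain ⟨b, σ, (h | h | h) | (h | h | h) | (h | h | h) | (h | h | h)⟩ := h.normal hT hd hd'
    · exact (p.lin_ijkl h).B
    · exact p.lin_ikjl' h
    · exact p.lin_jkil hT h
    · exact (p.not_ijlk h).elim
    · exact (p.not_iljk' h).elim
    · exact (p.not_jlik hT h).elim
    · exact (p.not_iklj h).elim
    · exact (p.not_ilkj hT h).elim
    · exact (hX _ _ h).elim
    · exact (p.not_jkli hT h).elim
    · exact (p.not_jlki hT h).elim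
    · exact (p.not_klji hT h).elim

/-- If the exceptional end exists then only four kinds of ends are possible. -/
theorem ends_X (hT : Sym T) (hd : Dist i j k l) (hX : E3 P T u' k l i j s σ)
    (hE : IsEnd P T u) :
    (∃ b, E1 P T u i k j l b) ∨ (∃ b, E1 P T u j l i k b) ∨ (∃ b σ, E3 P T u i j k l b σ) ∨
      ∃ b σ, E3 P T u k l i j b σ := by
  obtain ⟨i', j', k', l', hd', ⟨a, h⟩ | ⟨a, ρ, h⟩⟩ := hE
  · obtain ⟨b, h | h | h | h | h | h⟩ := h.normal hT hd hd'
    · exact (p.not_ijkl h).elim
    · exact (p.x_not_klij hT hX h).elim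
    · exact Or.inl ⟨_, h⟩
    · exact Or.inr (Or.inl ⟨_, h⟩)
    · exact (p.not_iljk hT h).elim
    · exact (p.not_jkil hT h).elim
  · obtain ⟨b, σ, (h | h | h) | (h | h | h) | (h | h | h) | (h | h | h)⟩ := h.normal hT hd hd'
    · exact Or.inr (Or.inr (Or.inl ⟨_, _, h⟩))
    · exact (x_not_ikjl hT hX h).elim
    · exact (p.x_not_jkil hT hX h).elim
    · exact (p.not_ijlk h).elim
    · exact (p.not_iljk' h).elim
    · exact (p.not_jlik hT h).elim
    · exact (p.not_iklj h).elim
    · exact (p.not_ilkj hT h).elim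
    · exact Or.inr (Or.inr (Or.inr ⟨_, _, h⟩))
    · exact (p.not_jkli hT h).elim
    · exact (p.not_jlki hT h).elim
    · exact (p.not_klji hT h).elim

end Par

end Pool.Agent.H.MP_deabf1_gt.Four
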