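import Pool.Agent.H.MP_deabf1_gt.helper94.Zar
import Pool.Agent.H.MP_deabf1_gt.helper94.Lin

/-!
Regular functions on a curve all of whose ends are of the two kinds.
-/

namespace Pool.Agent.H.MP_deabf1_gt.Four

open Filter

/-- The ultrafilter. -/
noncomputable abbrev FF : Ultrafilter ℕ := hyperfilter ℕ

/-- The germs of the coordinates of a sequence of points. -/
noncomputable def gX (xs : ℕ → Fin 4 → ℂ) (m : Fin 4) : Gm FF := toGm FF fun n => xs n m

/-- The germs of the inverses. -/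
noncomputable def gU (xs : ℕ → Fin 4 → ℂ) (m : Fin 4) : Gm FF := (gX xs m)⁻¹

theorem toGm_mul' (f g : ℕ → ℂ) : toGm FF (fun n => f n * g n) = toGm FF f * toGm FF g :=
  map_mul (toGm FF) f g

theorem toGm_add' (f g : ℕ → ℂ) : toGm FF (fun n => f n + g n) = toGm FF f + toGm FF g :=
  map_add (toGm FF) f g

theorem toGm_inv' (f : ℕ → ℂ) : toGm FF (fun n => (f n)⁻¹) = (toGm FF f)⁻¹ := toGm_inv FF f

theorem toGm_real (r : ℝ) : toGm FF (fun _ => (r : ℂ)) = algebraMap ℝ (Gm FF) r := rfl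

theorem toGm_X (xs : ℕ → Fin 4 → ℂ) (m : Fin 4) : toGm FF (fun n => xs n m) = gX xs m := rfl

theorem toGm_U (xs : ℕ → Fin 4 → ℂ) (m : Fin 4) : toGm FF (fun n => (xs n m)⁻¹) = gU xs m := by
  rw [toGm_inv']
  rfl

theorem gX_eq (xs : ℕ → Fin 4 → ℂ) (m : Fin 4) : gX xs m = (gU xs m)⁻¹ := (inv_inv _).symm

/-- A regular function which is positive on `S`. -/
def RP (S : Set (Fin 4 → ℂ)) (h : (Fin 4 → ℂ) → ℂ) : Prop :=
  Reg h ∧ ∀ x ∈ S, ∃ r : ℝ, 0 < r ∧ h x = r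

namespace RP

variable {S : Set (Fin 4 → ℂ)} {h g : (Fin 4 → ℂ) → ℂ}

theorem const {r : ℝ} (hr : 0 < r) : RP S (fun _ => (r : ℂ)) :=
  ⟨Reg.const _, fun _ _ => ⟨r, hr, rfl⟩⟩

theorem add (hh : RP S h) (hg : RP S g) : RP S (fun x => h x + g x) := by
  refine ⟨hh.1.add hg.1, fun x hx => ?_⟩
  obtain ⟨r, hr, e⟩ := hh.2 x hx
  obtain ⟨s, hs, e'⟩ := hg.2 x hx
  exact ⟨r + s, add_pos hr hs, by simp only [e, e']; push_cast; rfl⟩

theorem mul (hh : RP S h) (hg : RP S g) : RP S (fun x => h x * g x) := by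
  refine ⟨hh.1.mul hg.1, fun x hx => ?_⟩
  obtain ⟨r, hr, e⟩ := hh.2 x hx
  obtain ⟨s, hs, e'⟩ := hg.2 x hx
  exact ⟨r * s, mul_pos hr hs, by simp only [e, e']; push_cast; rfl⟩

end RP

/-- The situation: `Z` is an irreducible set of solutions, the positive solutions are dense in it,
the product is constant, and all ends are of the two kinds. -/
structure Ctx (T : Fin 4 → Fin 4 → Fin 4 → ℝ) (S Z : Set (Fin 4 → ℂ)) : Prop where
  cl : Cl S Z
  pos : ∀ x ∈ S, ∀ i, ∃ r : ℝ, 0 < r ∧ x i = r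
  prod : ∃ p : ℝ, 0 < p ∧ ∀ x ∈ Z, ∏ i, x i = p
  ends : ∀ xs : ℕ → Fin 4 → ℂ, (∀ n, xs n ∈ Z) →
    (∀ i, (gmPl FF).B (gX xs i) ∧ (gmPl FF).B (gX xs i)⁻¹) ∨ IsEnd (gmPl FF) T (gU xs)

/-- A regular function is bounded if the coordinates and their inverses are bounded. -/
theorem reg_B {h : (Fin 4 → ℂ) → ℂ} (hh : Reg h) {xs : ℕ → Fin 4 → ℂ}
    (hB : ∀ i, (gmPl FF).B (gX xs i) ∧ (gmPl FF).B (gX xs i)⁻¹) :
    (gmPl FF).B (toGm FF fun n => h (xs n)) := by
  obtain ⟨f, hf⟩ := hh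
  simp only [hf]
  clear hf
  induction f using MvPolynomial.induction_on with
  | C a =>
    simp only [MvPolynomial.eval_C]
    exact ⟨a, toGm_const_lim fun _ => rfl⟩
  | add p q hp hq =>
    simp only [map_add]
    rw [toGm_add']
    exact hp.add hq
  | mul_X p i hp =>
    simp only [map_mul, MvPolynomial.eval_X]
    rw [toGm_mul']
    refine hp.mul ?_
    rcases i with i | i
    · exact (hB i).1
    · have h1 := (hB i).2
      have h2 : toGm FF (fun n => tor (xs n) (Sum.inr i)) = (gX xs i)⁻¹ := toGm_inv' _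
      rw [h2]
      exact h1

namespace Ctx

variable {T : Fin 4 → Fin 4 → Fin 4 → ℝ} {S Z : Set (Fin 4 → ℂ)} (C : Ctx T S Z)

include C

theorem rpX (m : Fin 4) : RP S (fun x => x m) := ⟨Reg.crd m, fun x hx => C.pos x hx m⟩

theorem rpU (m : Fin 4) : RP S (fun x => (x m)⁻¹) := by
  refine ⟨Reg.icrd m, fun x hx => ?_⟩
  obtain ⟨r, hr, e⟩ := C.pos x hx m
  exact ⟨r⁻¹, inv_pos.2 hr, by simp only [e]; push_cast; rfl⟩

/-- A positive regular function which is bounded at the ends is constant. -/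
theorem const {h : (Fin 4 → ℂ) → ℂ} (hh : RP S h)
    (hB : ∀ xs : ℕ → Fin 4 → ℂ, (∀ n, xs n ∈ Z) → IsEnd (gmPl FF) T (gU xs) →
      (gmPl FF).B (toGm FF fun n => h (xs n))) :
    ∃ r : ℝ, 0 < r ∧ ∀ xs : ℕ → Fin 4 → ℂ, (∀ n, xs n ∈ Z) →
      toGm FF (fun n => h (xs n)) = algebraMap ℝ (Gm FF) r := by
  obtain ⟨c, hc⟩ := C.cl.const_of_places hh.1 fun xs hxs => by
    rcases C.ends xs hxs with h1 | h1
    · exact reg_B hh.1 h1
    · exact hB xs hxs h1
  obtain ⟨r, hr, rfl⟩ := C.cl.const_pos hc hh.2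
  refine ⟨r, hr, fun xs hxs => ?_⟩
  rw [← toGm_real]
  congr 1
  funext n
  exact hc _ (hxs n)

/-- A nonconstant positive regular function is unbounded at some end. -/
theorem exists_end {h : (Fin 4 → ℂ) → ℂ} (hh : RP S h) {xs0 : ℕ → Fin 4 → ℂ}
    (h0 : ∀ n, xs0 n ∈ Z)
    (hne : ∀ r : ℝ, 0 < r → toGm FF (fun n => h (xs0 n)) ≠ algebraMap ℝ (Gm FF) r) :
    ∃ xs : ℕ → Fin 4 → ℂ, (∀ n, xs n ∈ Z) ∧ IsEnd (gmPl FF) T (gU xs) ∧
      ¬ (gmPl FF).B (toGm FF fun n => h (xs n)) := by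
  by_contra h1
  push Not at h1
  obtain ⟨r, hr, h2⟩ := C.const hh h1
  exact hne r hr (h2 xs0 h0)

/-- The product of the four unknowns. -/
theorem prodU {i j k l : Fin 4} (hd : Dist i j k l) : ∃ p : ℝ, 0 < p ∧
    ∀ xs : ℕ → Fin 4 → ℂ, (∀ n, xs n ∈ Z) →
      gU xs i * gU xs j * gU xs k * gU xs l = algebraMap ℝ (Gm FF) p := by
  obtain ⟨p, hp, h⟩ := C.prod
  refine ⟨p⁻¹, inv_pos.2 hp, fun xs hxs => ?_⟩
  have h1 : gX xs i * gX xs j * gX xs k * gX xs l = algebraMap ℝ (Gm FF) p := by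
    rw [← toGm_real]
    unfold gX
    rw [← toGm_mul', ← toGm_mul', ← toGm_mul']
    congr 1
    funext n
    rw [← h _ (hxs n)]
    have e : (Finset.univ : Finset (Fin 4)) = {i, j, k, l} := by
      revert i j k l
      unfold Dist
      decide
    obtain ⟨d1, d2, d3, d4, d5, d6⟩ := hd
    rw [e, Finset.prod_insert, Finset.prod_insert, Finset.prod_insert, Finset.prod_singleton]
    · simp only [mul_assoc]
    · simpa using d6
    · simp only [Finset.mem_insert, Finset.mem_singleton, not_or]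
      exact ⟨d4, d5⟩
    · simp only [Finset.mem_insert, Finset.mem_singleton, not_or]
      exact ⟨d1, d2, d3⟩
  have h2 := congrArg (·⁻¹) h1
  simp only [mul_inv] at h2
  rw [map_inv₀]
  exact h2

end Ctx

end Pool.Agent.H.MP_deabf1_gt.Four
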