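import Pool.Agent.H.MP_deabf1_gt.helper94.Res

/-!
The derivation with respect to the variable on a finite extension of the rational function field.
-/

namespace Pool.Agent.H.MP_deabf1_gt.Gen

open Polynomial

theorem exists_der (k K0 E : Type) [Field k] [CharZero k] [Field K0] [Algebra k[X] K0]
    [IsFractionRing k[X] K0] [Field E] [Algebra K0 E] [FiniteDimensional K0 E] [Algebra k K0]
    [IsScalarTower k k[X] K0] [Algebra k E] [IsScalarTower k K0 E] :
    ∃ D : Derivation k E E, D (xE k K0 E) = 1 := by
  let alg : Algebra k[X] E := ((algebraMap K0 E).comp (algebraMap k[X] K0)).toAlgebra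
  have hmap : ∀ p : k[X], algebraMap k[X] E p = aeval (xE k K0 E) p := fun p => map_poly p
  have t1 : IsScalarTower k[X] K0 E := IsScalarTower.of_algebraMap_eq fun p => rfl
  have t2 : IsScalarTower k k[X] E := IsScalarTower.of_algebraMap_eq (fun c => by
    rw [hmap]
    simp)
  have : CharZero K0 := charZero_K0 k K0
  have : Algebra.FormallySmooth K0 E := Algebra.FormallySmooth.of_perfectField
  have : Algebra.FormallySmooth k[X] K0 :=
    Algebra.FormallySmooth.of_isLocalization (nonZeroDivisors _)
  have : Algebra.FormallySmooth k[X] E := Algebra.FormallySmooth.comp k[X] K0 E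
  have key : Function.Injective (KaehlerDifferential.mapBaseChange k k[X] E) := by
    rw [injective_iff_map_eq_zero]
    intro y hy
    obtain ⟨z, rfl⟩ := (Algebra.H1Cotangent.exact_δ_mapBaseChange k k[X] E y).mp hy
    rw [Subsingleton.elim z 0, map_zero]
  have hne : KaehlerDifferential.D k E (xE k K0 E) ≠ 0 := by
    intro hx
    have h1 : KaehlerDifferential.mapBaseChange k k[X] E
        (TensorProduct.tmul k[X] (1 : E) (KaehlerDifferential.D k k[X] X)) = 0 := by
      rw [KaehlerDifferential.mapBaseChange_tmul, one_smul, KaehlerDifferential.map_D, hmap,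
        aeval_X]
      exact hx
    have h2 : TensorProduct.tmul k[X] (1 : E) (KaehlerDifferential.D k k[X] X) = 0 :=
      key (by rw [h1, map_zero])
    have h3 := congrArg (fun t => TensorProduct.rid k[X] E
      (LinearMap.lTensor E (KaehlerDifferential.polynomialEquiv k).toLinearMap t)) h2
    simp at h3
  obtain ⟨φ, hφ⟩ : ∃ φ : Module.Dual E (Ω[E⁄k]), φ (KaehlerDifferential.D k E (xE k K0 E)) ≠ 0 := by
    by_contra h
    push Not at h
    exact hne ((Module.forall_dual_apply_eq_zero_iff E _).1 h)
  obtain ⟨c, hc⟩ : ∃ c, c = φ (KaehlerDifferential.D k E (xE k K0 E)) := ⟨_, rfl⟩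
  rw [← hc] at hφ
  refine ⟨(c⁻¹ • φ).compDer (KaehlerDifferential.D k E), ?_⟩
  change (c⁻¹ • φ) (KaehlerDifferential.D k E (xE k K0 E)) = 1
  rw [LinearMap.smul_apply, ← hc, smul_eq_mul, inv_mul_cancel₀ hφ]

end Pool.Agent.H.MP_deabf1_gt.Gen
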