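import Pool.Agent.H.MP_deabf1_gt.helper94.Ends

/-!
Orders of growth at a place.
-/

namespace Pool.Agent.H.MP_deabf1_gt.Four

variable {K : Type*} [Field K] [Algebra ℝ K] {P : Pl K} {t x y : K} {n m : ℤ}

/-- `x` is comparable with the power `t ^ n`. -/
def Od (P : Pl K) (t x : K) (n : ℤ) : Prop := ∃ z : ℂ, z ≠ 0 ∧ P.Lim (x * t ^ (-n)) z

theorem Od.mul (ht : t ≠ 0) (hx : Od P t x n) (hy : Od P t y m) : Od P t (x * y) (n + m) := by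
  obtain ⟨z, hz, hx⟩ := hx
  obtain ⟨w, hw, hy⟩ := hy
  refine ⟨z * w, mul_ne_zero hz hw, P.lim_eq ?_ (P.mul hx hy)⟩
  rw [neg_add, zpow_add₀ ht]
  ring

theorem Od.inv (hx : Od P t x n) : Od P t x⁻¹ (-n) := by
  obtain ⟨z, hz, hx⟩ := hx
  refine ⟨z⁻¹, inv_ne_zero hz, P.lim_eq ?_ (P.lim_inv hx hz)⟩
  rw [mul_inv, neg_neg, zpow_neg, inv_inv]

theorem Od.div (ht : t ≠ 0) (hx : Od P t x n) (hy : Od P t y m) : Od P t (x / y) (n - m) := by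
  rw [div_eq_mul_inv, sub_eq_add_neg]
  exact hx.mul ht hy.inv

theorem Od.pow (ht : t ≠ 0) (hx : Od P t x n) (k : ℕ) : Od P t (x ^ k) (k * n) := by
  induction k with
  | zero =>
    refine ⟨1, one_ne_zero, P.lim_eq ?_ P.lim_one⟩
    simp
  | succ k ih =>
    have h := ih.mul ht hx
    rw [← pow_succ] at h
    have e : ((k + 1 : ℕ) : ℤ) * n = (k : ℤ) * n + n := by
      push_cast
      ring
    rw [e]
    exact h

theorem Od.of_lim {z : ℂ} (hz : z ≠ 0) (h : P.Lim x z) : Od P t x 0 :=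
  ⟨z, hz, P.lim_eq (by simp) h⟩

theorem Od.self (ht : t ≠ 0) : Od P t t 1 := by
  refine ⟨1, one_ne_zero, P.lim_eq ?_ P.lim_one⟩
  rw [zpow_neg, zpow_one, mul_inv_cancel₀ ht]

theorem Od.ne (hx : Od P t x n) : x ≠ 0 := by
  obtain ⟨z, hz, hx⟩ := hx
  rintro rfl
  rw [zero_mul] at hx
  exact hz (P.uniq hx P.lim_zero)

theorem I_zpow (hI : P.I t⁻¹) (hn : n < 0) : P.I (t ^ n) := by
  obtain ⟨k, rfl⟩ : ∃ k : ℕ, n = -(k : ℤ) := ⟨n.natAbs, by omega⟩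
  rw [zpow_neg, zpow_natCast, ← inv_pow]
  exact hI.pow (by omega)

theorem Od.I (hI : P.I t⁻¹) (ht : t ≠ 0) (hx : Od P t x n) (hn : n < 0) : P.I x := by
  obtain ⟨z, hz, hx⟩ := hx
  have h := P.mul hx (I_zpow hI hn)
  rw [mul_zero] at h
  refine P.lim_eq ?_ h
  rw [mul_assoc, ← zpow_add₀ ht, neg_add_cancel, zpow_zero, mul_one]

theorem Od.B (hI : P.I t⁻¹) (ht : t ≠ 0) (hx : Od P t x n) (hn : n ≤ 0) : P.B x := by
  rcases hn.lt_or_eq with h | h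
  · exact (hx.I hI ht h).B
  · subst h
    obtain ⟨z, hz, hx⟩ := hx
    exact ⟨z, P.lim_eq (by simp) hx⟩

theorem Od.not_B (hI : P.I t⁻¹) (ht : t ≠ 0) (hx : Od P t x n) (hn : 0 < n) : ¬ P.B x := by
  intro hB
  have h := (hx.inv.I hI ht (by omega)).mul hB
  rw [inv_mul_cancel₀ hx.ne] at h
  exact Pl.one_not_I h

theorem Od.not_B_iff (hI : P.I t⁻¹) (ht : t ≠ 0) (hx : Od P t x n) : ¬ P.B x ↔ 0 < n := by
  refine ⟨fun h => ?_, fun h => hx.not_B hI ht h⟩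
  by_contra h'
  exact h (hx.B hI ht (not_lt.1 h'))

variable {T : Fin 4 → Fin 4 → Fin 4 → ℝ} {u : Fin 4 → K} {i j k l : Fin 4} {a ρ : ℝ}

theorem neg_cast_ne {a : ℝ} (ha : 0 < a) : ((-a : ℝ) : ℂ) ≠ 0 := by
  exact_mod_cast (neg_ne_zero.2 ha.ne')

theorem E1.hs (h : E1 P T u i j k l a) : 0 < T i i k / T i i l := div_pos h.pk h.pl

theorem E1.ne_j (h : E1 P T u i j k l a) : u j ≠ 0 := by
  obtain ⟨θ, hθ, hL⟩ := h.Ljl
  have h1 := Pl.ne_of_not_I (Pl.lim_ne hL hθ)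
  exact left_ne_zero_of_mul h1

theorem E1.ne_l (h : E1 P T u i j k l a) : u l ≠ 0 := by
  obtain ⟨θ, hθ, hL⟩ := h.Ljl
  have h1 := Pl.ne_of_not_I (Pl.lim_ne hL hθ)
  exact right_ne_zero_of_mul h1

theorem E1.ne_i (h : E1 P T u i j k l a) : u i ≠ 0 := by
  have h1 := Pl.ne_of_not_I (Pl.lim_ne h.Lij (neg_cast_ne h.ha))
  exact (div_ne_zero_iff.1 h1).1

theorem E1.ne_k (h : E1 P T u i j k l a) : u k ≠ 0 := by
  have h1 := Pl.ne_of_not_I (Pl.lim_ne h.Lkl (neg_cast_ne h.hs))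
  exact (div_ne_zero_iff.1 h1).1

theorem E1.odI (h : E1 P T u i j k l a) : P.I (u j)⁻¹ := by
  have h1 := h.Lj
  rw [one_div] at h1
  exact h1

theorem E1.odi (h : E1 P T u i j k l a) : Od P (u j) (u i) 1 :=
  ⟨_, neg_cast_ne h.ha, P.lim_eq (by rw [zpow_neg, zpow_one, div_eq_mul_inv]) h.Lij⟩

theorem E1.odj (h : E1 P T u i j k l a) : Od P (u j) (u j) 1 := Od.self h.ne_j

theorem E1.odl (h : E1 P T u i j k l a) : Od P (u j) (u l) (-1) := by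
  obtain ⟨θ, hθ, hL⟩ := h.Ljl
  refine ⟨θ, hθ, P.lim_eq ?_ hL⟩
  rw [neg_neg, zpow_one, mul_comm]

theorem E1.odk (h : E1 P T u i j k l a) : Od P (u j) (u k) (-1) := by
  have h1 : Od P (u j) (u k / u l) 0 := Od.of_lim (neg_cast_ne h.hs) h.Lkl
  have h2 := h1.mul h.ne_j h.odl
  rwa [div_mul_cancel₀ _ h.ne_l, zero_add] at h2

theorem E3.ne_j (h : E3 P T u i j k l a ρ) : u j ≠ 0 := by
  have h1 := Pl.ne_of_not_I (Pl.lim_ne h.Lij (neg_cast_ne h.ha))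
  exact (div_ne_zero_iff.1 h1).2

theorem E3.ne_i (h : E3 P T u i j k l a ρ) : u i ≠ 0 := by
  have h1 := Pl.ne_of_not_I (Pl.lim_ne h.Lij (neg_cast_ne h.ha))
  exact (div_ne_zero_iff.1 h1).1

theorem E3.ne_k (h : E3 P T u i j k l a ρ) : u k ≠ 0 := by
  obtain ⟨z, τ, hz, hτ, hL, hL'⟩ := h.Lkl
  exact Pl.ne_of_not_I (Pl.lim_ne hL hz)

theorem E3.ne_l (h : E3 P T u i j k l a ρ) : u l ≠ 0 := by
  obtain ⟨z, τ, hz, hτ, hL, hL'⟩ := h.Lkl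
  have h1 : ((τ : ℂ) * z ^ 2) ≠ 0 := mul_ne_zero (by exact_mod_cast hτ.ne') (pow_ne_zero 2 hz)
  exact right_ne_zero_of_mul (Pl.ne_of_not_I (Pl.lim_ne hL' h1))

theorem E3.odI (h : E3 P T u i j k l a ρ) : P.I (u j)⁻¹ := by
  have h1 := h.Lj
  rw [one_div] at h1
  exact h1

theorem E3.odi (h : E3 P T u i j k l a ρ) : Od P (u j) (u i) 1 :=
  ⟨_, neg_cast_ne h.ha, P.lim_eq (by rw [zpow_neg, zpow_one, div_eq_mul_inv]) h.Lij⟩

theorem E3.odj (h : E3 P T u i j k l a ρ) : Od P (u j) (u j) 1 := Od.self h.ne_j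

theorem E3.odk (h : E3 P T u i j k l a ρ) : Od P (u j) (u k) 0 := by
  obtain ⟨z, τ, hz, hτ, hL, hL'⟩ := h.Lkl
  exact Od.of_lim hz hL

theorem E3.odl (h : E3 P T u i j k l a ρ) : Od P (u j) (u l) (-2) := by
  obtain ⟨z, τ, hz, hτ, hL, hL'⟩ := h.Lkl
  have h1 : ((τ : ℂ) * z ^ 2) ≠ 0 := mul_ne_zero (by exact_mod_cast hτ.ne') (pow_ne_zero 2 hz)
  refine ⟨_, h1, P.lim_eq ?_ hL'⟩
  rw [neg_neg, mul_comm]
  norm_cast

end Pool.Agent.H.MP_deabf1_gt.Four
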