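import Mathlib

/-!
Logarithmic differentials with constant coefficients: the residue argument.
-/

namespace Pool.Agent.H.MP_deabf1_gt.Gen

open Polynomial

/-- A derivation over a field of characteristic zero vanishes on algebraic extensions. -/
theorem der_zero_of_algebraic {K0 E : Type*} [Field K0] [CharZero K0] [Field E] [Algebra K0 E]
    [Algebra.IsAlgebraic K0 E] (D : Derivation K0 E E) (e : E) : D e = 0 := by
  have hint : IsIntegral K0 e := (Algebra.IsAlgebraic.isAlgebraic e).isIntegral
  have hirr := minpoly.irreducible hint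
  have hsep : (minpoly K0 e).Separable := hirr.separable
  have h1 : D (aeval e (minpoly K0 e)) = 0 := by
    rw [minpoly.aeval, map_zero]
  rw [Derivation.map_aeval, smul_eq_mul] at h1
  rcases mul_eq_zero.1 h1 with h2 | h2
  · exact absurd h2 (hsep.aeval_derivative_ne_zero (minpoly.aeval K0 e))
  · exact h2

theorem charZero_K0 (k K0 : Type*) [Field k] [CharZero k] [Field K0] [Algebra k K0] :
    CharZero K0 :=
  charZero_of_injective_algebraMap (algebraMap k K0).injective

section

variable {k K0 E : Type*} [Field k] [CharZero k] [Field K0] [Algebra k[X] K0]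
  [IsFractionRing k[X] K0] [Field E] [Algebra K0 E] [Algebra.IsAlgebraic K0 E] [Algebra k K0]
  [IsScalarTower k k[X] K0] [Algebra k E] [IsScalarTower k K0 E]

variable (k K0 E) in
/-- The variable in the extension. -/
noncomputable def xE : E := algebraMap K0 E (algebraMap k[X] K0 X)

omit [CharZero k] [IsFractionRing k[X] K0] [Algebra.IsAlgebraic K0 E] in
theorem map_poly (p : k[X]) :
    algebraMap K0 E (algebraMap k[X] K0 p) = aeval (xE k K0 E) p := by
  unfold xE
  rw [aeval_algebraMap_apply, aeval_algebraMap_apply]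
  simp

omit [CharZero k] [Algebra.IsAlgebraic K0 E] in
theorem aeval_inj {p : k[X]} (h : aeval (xE k K0 E) p = 0) : p = 0 := by
  rw [← map_poly] at h
  have h1 := (map_eq_zero (algebraMap K0 E)).1 h
  exact (IsFractionRing.injective k[X] K0) (by rw [h1, map_zero])

omit [CharZero k] [IsFractionRing k[X] K0] [Algebra.IsAlgebraic K0 E] [Algebra k K0]
  [IsScalarTower k k[X] K0] [IsScalarTower k K0 E] in
theorem der_aeval (D : Derivation k E E) (hD : D (xE k K0 E) = 1) (p : k[X]) :
    D (aeval (xE k K0 E) p) = aeval (xE k K0 E) (derivative p) := by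
  rw [Derivation.map_aeval, hD, smul_eq_mul, mul_one]

/-- A derivation which vanishes at the variable is zero. -/
theorem der_zero (D : Derivation k E E) (hD : D (xE k K0 E) = 0) (e : E) : D e = 0 := by
  have := charZero_K0 k K0
  have hK : ∀ z : K0, D (algebraMap K0 E z) = 0 := by
    intro z
    obtain ⟨p, q, hq, rfl⟩ := IsFractionRing.div_surjective (A := k[X]) z
    have hp : ∀ r : k[X], D (algebraMap K0 E (algebraMap k[X] K0 r)) = 0 := by
      intro r
      rw [map_poly, Derivation.map_aeval, hD, smul_zero]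
    rw [map_div₀, Derivation.leibniz_div, hp, hp, smul_zero, smul_zero, sub_zero, smul_zero]
  let D' : Derivation K0 E E :=
    { toFun := D
      map_add' := map_add D
      map_smul' := fun z e => by
        rw [Algebra.smul_def z e, Derivation.leibniz, hK z, smul_zero, add_zero,
          RingHom.id_apply, smul_eq_mul, ← Algebra.smul_def]
      map_one_eq_zero' := D.map_one_eq_zero
      leibniz' := D.leibniz }
  exact der_zero_of_algebraic D' e

omit [CharZero k] in
/-- Logarithmic derivative of a product. -/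
theorem logder_prod {ι : Type*} (D : Derivation k E E) (s : Finset ι) (f : ι → E)
    (hf : ∀ i ∈ s, f i ≠ 0) : D (∏ i ∈ s, f i) / ∏ i ∈ s, f i = ∑ i ∈ s, D (f i) / f i := by
  classical
  induction s using Finset.induction_on with
  | empty => simp
  | insert a s ha ih =>
    have h1 := hf a (Finset.mem_insert_self a s)
    have h2 : ∏ i ∈ s, f i ≠ 0 :=
      Finset.prod_ne_zero_iff.2 fun i hi => hf i (Finset.mem_insert_of_mem hi)
    rw [Finset.prod_insert ha, Finset.sum_insert ha,
      ← ih fun i hi => hf i (Finset.mem_insert_of_mem hi), D.leibniz, smul_eq_mul, smul_eq_mul]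
    field_simp
    ring

/-- Regular at the origin. -/
def Rg (k K0 E : Type*) [Field k] [Field K0] [Algebra k[X] K0] [Field E] [Algebra K0 E]
    [Algebra k E] (e : E) : Prop :=
  ∃ p q : k[X], q.eval 0 ≠ 0 ∧ e * aeval (xE k K0 E) q = aeval (xE k K0 E) p

omit [CharZero k] [IsFractionRing k[X] K0] [Algebra.IsAlgebraic K0 E] [Algebra k K0]
  [IsScalarTower k k[X] K0] [IsScalarTower k K0 E] in
theorem Rg.add {e f : E} (he : Rg k K0 E e) (hf : Rg k K0 E f) : Rg k K0 E (e + f) := by
  obtain ⟨p, q, hq, h⟩ := he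
  obtain ⟨p', q', hq', h'⟩ := hf
  refine ⟨p * q' + p' * q, q * q', ?_, ?_⟩
  · rw [eval_mul]
    exact mul_ne_zero hq hq'
  · rw [map_mul, map_add, map_mul, map_mul, ← h, ← h']
    ring

omit [CharZero k] [IsFractionRing k[X] K0] [Algebra.IsAlgebraic K0 E] [Algebra k K0]
  [IsScalarTower k k[X] K0] [IsScalarTower k K0 E] in
theorem Rg.smul {e : E} (c : k) (he : Rg k K0 E e) : Rg k K0 E (algebraMap k E c * e) := by
  obtain ⟨p, q, hq, h⟩ := he
  refine ⟨C c * p, q, hq, ?_⟩
  rw [map_mul, aeval_C, ← h]
  ring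

omit [CharZero k] [IsFractionRing k[X] K0] [Algebra.IsAlgebraic K0 E] [Algebra k K0]
  [IsScalarTower k k[X] K0] [IsScalarTower k K0 E] in
theorem Rg.zero : Rg k K0 E 0 := ⟨0, 1, by simp, by simp⟩

omit [CharZero k] [IsFractionRing k[X] K0] [Algebra.IsAlgebraic K0 E] [Algebra k K0]
  [IsScalarTower k k[X] K0] [IsScalarTower k K0 E] in
theorem Rg.sum {ι : Type*} (s : Finset ι) {f : ι → E} (hf : ∀ i ∈ s, Rg k K0 E (f i)) :
    Rg k K0 E (∑ i ∈ s, f i) := by
  classical
  induction s using Finset.induction_on with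
  | empty => simpa using Rg.zero
  | insert a s ha ih =>
    rw [Finset.sum_insert ha]
    exact (hf a (Finset.mem_insert_self a s)).add
      (ih fun i hi => hf i (Finset.mem_insert_of_mem hi))

omit [CharZero k] [Algebra.IsAlgebraic K0 E] in
/-- The residue of a constant divided by the variable. -/
theorem res_zero {c : k} {e : E} (he : Rg k K0 E e) (h : algebraMap k E c + xE k K0 E * e = 0) :
    c = 0 := by
  obtain ⟨p, q, hq, h1⟩ := he
  have h2 : aeval (xE k K0 E) (C c * q + X * p) = 0 := by
    rw [map_add, map_mul, map_mul, aeval_C, aeval_X, ← h1]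
    linear_combination (aeval (xE k K0 E) q) * h
  have h3 := aeval_inj (K0 := K0) h2
  have h4 := congrArg (eval 0) h3
  rw [eval_add, eval_mul, eval_mul, eval_C, eval_X, zero_mul, add_zero, eval_zero] at h4
  exact (mul_eq_zero.1 h4).resolve_right hq

omit [CharZero k] [Algebra.IsAlgebraic K0 E] in
theorem aeval_ne {p : k[X]} (h : p ≠ 0) : aeval (xE k K0 E) p ≠ 0 := fun h0 =>
  h (aeval_inj (K0 := K0) h0)

omit [CharZero k] [Algebra.IsAlgebraic K0 E] in
/-- The logarithmic derivative of a polynomial at the origin. -/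
theorem logder_poly (D : Derivation k E E) (hD : D (xE k K0 E) = 1) {p : k[X]} (hp : p ≠ 0) :
    ∃ n : ℕ, ∃ e : E, Rg k K0 E e ∧
      xE k K0 E * (D (aeval (xE k K0 E) p) / aeval (xE k K0 E) p) = n + xE k K0 E * e := by
  obtain ⟨a, ha, hna⟩ := exists_eq_pow_rootMultiplicity_mul_and_not_dvd p hp 0
  set n := p.rootMultiplicity 0
  have ha0 : a.eval 0 ≠ 0 := by
    intro h0
    exact hna (dvd_iff_isRoot.2 h0)
  have hane : a ≠ 0 := by
    rintro rfl
    simp at ha0
  rw [map_zero, sub_zero] at ha
  have nx : xE k K0 E ≠ 0 := by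
    have h := aeval_ne (K0 := K0) (E := E) (X_ne_zero (R := k))
    rwa [aeval_X] at h
  have na := aeval_ne (K0 := K0) (E := E) hane
  refine ⟨n, D (aeval (xE k K0 E) a) / aeval (xE k K0 E) a, ?_, ?_⟩
  · refine ⟨derivative a, a, ha0, ?_⟩
    rw [der_aeval D hD, div_mul_cancel₀ _ na]
  · rw [ha, map_mul, map_pow, aeval_X, D.leibniz, D.leibniz_pow, hD, smul_eq_mul, smul_eq_mul]
    rcases n with _ | n
    · simp
    · simp only [nsmul_eq_mul, smul_eq_mul, mul_one, Nat.add_sub_cancel]
      field_simp
      push_cast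
      ring

omit [CharZero k] [Algebra.IsAlgebraic K0 E] in
/-- The logarithmic derivative of a rational function at the origin. -/
theorem logder_K0 (D : Derivation k E E) (hD : D (xE k K0 E) = 1) {z : K0} (hz : z ≠ 0) :
    ∃ n : ℤ, ∃ e : E, Rg k K0 E e ∧
      xE k K0 E * (D (algebraMap K0 E z) / algebraMap K0 E z) = n + xE k K0 E * e := by
  obtain ⟨p, q, hq, rfl⟩ := IsFractionRing.div_surjective (A := k[X]) z
  have hq0 : q ≠ 0 := nonZeroDivisors.ne_zero hq
  have hp0 : p ≠ 0 := by
    rintro rfl
    simp at hz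
  obtain ⟨n, e, he, h⟩ := logder_poly (K0 := K0) D hD hp0
  obtain ⟨n', e', he', h'⟩ := logder_poly (K0 := K0) D hD hq0
  have np := aeval_ne (K0 := K0) (E := E) hp0
  have nq := aeval_ne (K0 := K0) (E := E) hq0
  refine ⟨(n : ℤ) - n', e + algebraMap k E (-1) * e', he.add (he'.smul _), ?_⟩
  rw [map_div₀, map_poly, map_poly, Derivation.leibniz_div]
  have h1 : (aeval (xE k K0 E) q)⁻¹ ^ 2 • (aeval (xE k K0 E) q • D (aeval (xE k K0 E) p)
      - aeval (xE k K0 E) p • D (aeval (xE k K0 E) q)) /
      (aeval (xE k K0 E) p / aeval (xE k K0 E) q)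
      = D (aeval (xE k K0 E) p) / aeval (xE k K0 E) p
        - D (aeval (xE k K0 E) q) / aeval (xE k K0 E) q := by
    simp only [smul_eq_mul]
    field_simp
  rw [h1, mul_sub, h, h', map_neg, map_one]
  push_cast
  ring

/-- The derivation commutes with the automorphisms. -/
theorem der_comm (D : Derivation k E E) (hD : D (xE k K0 E) = 1) (σ : E ≃ₐ[K0] E) (e : E) :
    D (σ e) = σ (D e) := by
  have hσk : ∀ c : k, σ (algebraMap k E c) = algebraMap k E c := by
    intro c
    rw [IsScalarTower.algebraMap_apply k K0 E, σ.commutes]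
  let D' : Derivation k E E :=
    { toFun := fun e => σ.symm (D (σ e))
      map_add' := fun a b => by rw [map_add, map_add, map_add]
      map_smul' := fun c e => by
        rw [Algebra.smul_def, map_mul, hσk, ← Algebra.smul_def, Derivation.map_smul,
          Algebra.smul_def, map_mul, RingHom.id_apply, Algebra.smul_def]
        congr 1
        rw [AlgEquiv.symm_apply_eq, hσk]
      map_one_eq_zero' := by
        change σ.symm (D (σ 1)) = 0
        rw [map_one, D.map_one_eq_zero, map_zero]
      leibniz' := fun a b => by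
        change σ.symm (D (σ (a * b))) = a • σ.symm (D (σ b)) + b • σ.symm (D (σ a))
        rw [map_mul, D.leibniz, map_add, smul_eq_mul, smul_eq_mul, map_mul, map_mul,
          σ.symm_apply_apply, σ.symm_apply_apply, smul_eq_mul, smul_eq_mul] }
  have h1 : (D' - D) (xE k K0 E) = 0 := by
    rw [Derivation.sub_apply]
    change σ.symm (D (σ (xE k K0 E))) - D (xE k K0 E) = 0
    have h2 : σ (xE k K0 E) = xE k K0 E := σ.commutes _
    rw [h2, hD, map_one, sub_self]
  have h3 := der_zero (K0 := K0) (D' - D) h1 e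
  rw [Derivation.sub_apply] at h3
  have h4 : σ.symm (D (σ e)) = D e := sub_eq_zero.1 h3
  rw [← h4, AlgEquiv.apply_symm_apply]

/-- A linear relation between logarithmic derivatives gives a rational relation between the
coefficients. -/
theorem relation [FiniteDimensional K0 E] [IsGalois K0 E] {ι : Type*} [Fintype ι]
    [DecidableEq ι] (D : Derivation k E E) (hD : D (xE k K0 E) = 1) (c : ι → k) (u : ι → E)
    (hu : ∀ i, u i ≠ 0) (a : ι → ℤ)
    (hx : ∑ i, (a i : E) * (D (u i) / u i) = (xE k K0 E)⁻¹)
    (h : ∑ i, algebraMap k E (c i) * (D (u i) / u i) = 0) :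
    ∃ n : ι → ℤ, ∑ i, a i * n i ≠ 0 ∧ ∑ i, (n i : k) * c i = 0 := by
  let M : ι → E := fun i => ∏ σ : E ≃ₐ[K0] E, σ (u i)
  have hM : ∀ i, algebraMap K0 E (Algebra.norm K0 (u i)) = M i := fun i =>
    Algebra.norm_eq_prod_automorphisms K0 (u i)
  have hσ : ∀ i, ∀ σ ∈ (Finset.univ : Finset (E ≃ₐ[K0] E)), σ (u i) ≠ 0 := fun i σ _ =>
    (map_ne_zero σ).2 (hu i)
  have hMne : ∀ i, M i ≠ 0 := fun i => Finset.prod_ne_zero_iff.2 (hσ i)
  have hσk : ∀ (σ : E ≃ₐ[K0] E) (c : k), σ (algebraMap k E c) = algebraMap k E c := by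
    intro σ c
    rw [IsScalarTower.algebraMap_apply k K0 E, σ.commutes]
  have hlog : ∀ i, D (M i) / M i = ∑ σ : E ≃ₐ[K0] E, σ (D (u i) / u i) := by
    intro i
    rw [logder_prod D _ _ (hσ i)]
    refine Finset.sum_congr rfl fun σ _ => ?_
    rw [der_comm D hD σ, map_div₀]
  -- the relation for the norms
  have h1 : ∑ i, algebraMap k E (c i) * (D (M i) / M i) = 0 := by
    simp only [hlog, Finset.mul_sum]
    rw [Finset.sum_comm]
    refine Finset.sum_eq_zero fun σ _ => ?_
    have h3 := congrArg σ h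
    rw [map_zero, map_sum] at h3
    rw [← h3]
    refine Finset.sum_congr rfl fun i _ => ?_
    rw [map_mul, hσk]
  obtain ⟨m, hm⟩ : ∃ m, m = Fintype.card (E ≃ₐ[K0] E) := ⟨_, rfl⟩
  have hm0 : m ≠ 0 := by
    rw [hm]
    exact Fintype.card_ne_zero
  have nx : xE k K0 E ≠ 0 := by
    have h := aeval_ne (K0 := K0) (E := E) (X_ne_zero (R := k))
    rwa [aeval_X] at h
  have h1' : ∑ i, (a i : E) * (xE k K0 E * (D (M i) / M i)) = m := by
    have h2 : ∑ i, (a i : E) * (D (M i) / M i) = m * (xE k K0 E)⁻¹ := by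
      simp only [hlog, Finset.mul_sum]
      rw [Finset.sum_comm]
      have h3 : ∀ σ : E ≃ₐ[K0] E, ∑ i, (a i : E) * σ (D (u i) / u i) = (xE k K0 E)⁻¹ := by
        intro σ
        have h4 := congrArg σ hx
        rw [map_sum, map_inv₀] at h4
        have h5 : σ (xE k K0 E) = xE k K0 E := σ.commutes _
        rw [h5] at h4
        rw [← h4]
        refine Finset.sum_congr rfl fun i _ => ?_
        rw [map_mul, map_intCast]
      rw [Finset.sum_congr rfl fun σ _ => h3 σ, Finset.sum_const, Finset.card_univ, ← hm,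
        nsmul_eq_mul]
    have h3 : ∑ i, (a i : E) * (xE k K0 E * (D (M i) / M i)) =
        xE k K0 E * ∑ i, (a i : E) * (D (M i) / M i) := by
      rw [Finset.mul_sum]
      refine Finset.sum_congr rfl fun i _ => ?_
      ring
    rw [h3, h2, mul_left_comm, mul_inv_cancel₀ nx, mul_one]
  -- the orders at the origin
  have h2 : ∀ i, ∃ n : ℤ, ∃ e : E, Rg k K0 E e ∧
      xE k K0 E * (D (M i) / M i) = n + xE k K0 E * e := by
    intro i
    rw [← hM i]
    refine logder_K0 D hD fun h0 => ?_
    apply hMne i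
    rw [← hM i, h0, map_zero]
  choose n e he hn using h2
  refine ⟨n, ?_, ?_⟩
  · intro h0
    have h3 : algebraMap k E (-(m : k)) + xE k K0 E * ∑ i, algebraMap k E (a i : k) * e i = 0 := by
      have h4 : ∑ i, (a i : E) * (xE k K0 E * (D (M i) / M i)) =
          ((∑ i, a i * n i : ℤ) : E) + xE k K0 E * ∑ i, algebraMap k E (a i : k) * e i := by
        rw [Int.cast_sum, Finset.mul_sum, ← Finset.sum_add_distrib]
        refine Finset.sum_congr rfl fun i _ => ?_
        rw [hn i, map_intCast]
        push_cast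
        ring
      rw [h1', h0, Int.cast_zero, zero_add] at h4
      rw [← h4, map_neg, map_natCast]
      ring
    have h7 := res_zero (Rg.sum _ fun i _ => (he i).smul _) h3
    have h8 : (m : k) = 0 := by
      rw [← neg_eq_zero]
      exact h7
    exact hm0 (by exact_mod_cast h8)
  · -- the residue
    have h3 : algebraMap k E (∑ i, (n i : k) * c i) +
        xE k K0 E * ∑ i, algebraMap k E (c i) * e i = 0 := by
      have h4 : xE k K0 E * ∑ i, algebraMap k E (c i) * (D (M i) / M i) =
          ∑ i, algebraMap k E (c i) * (n i + xE k K0 E * e i) := by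
        rw [Finset.mul_sum]
        refine Finset.sum_congr rfl fun i _ => ?_
        rw [← hn i]
        ring
      rw [h1, mul_zero] at h4
      rw [h4, map_sum, Finset.mul_sum, ← Finset.sum_add_distrib]
      refine Finset.sum_congr rfl fun i _ => ?_
      rw [map_mul, map_intCast]
      ring
    exact res_zero (Rg.sum _ fun i _ => (he i).smul _) h3

end

end Pool.Agent.H.MP_deabf1_gt.Gen
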