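import Pool.Agent.H.MP_deabf1_gt.helper94.Ctx

/-!
There is no end of the second kind.
-/

namespace Pool.Agent.H.MP_deabf1_gt.Four

open Filter

variable {T : Fin 4 → Fin 4 → Fin 4 → ℝ} {S Z : Set (Fin 4 → ℂ)} {i j k l : Fin 4}
  {a ρ t : ℝ}

/-- The limit of the product at an end of the second kind. -/
theorem E3.prod_lim {K : Type*} [Field K] [Algebra ℝ K] {P : Pl K} {u : Fin 4 → K}
    (h : E3 P T u i j k l a ρ) :
    ∃ (z : ℂ) (τ : ℝ), z ≠ 0 ∧ 0 < τ ∧ P.Lim (u k) z ∧ P.Lim (u j ^ 2 * u l) (τ * z ^ 2) ∧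
      P.Lim (u i * u j * u k * u l) (-(a * τ * z ^ 3 : ℂ)) := by
  obtain ⟨z, τ, hz, hτ, hL, hL'⟩ := h.Lkl
  refine ⟨z, τ, hz, hτ, hL, hL', ?_⟩
  have nj := h.ne_j
  refine P.lim_val (P.lim_eq ?_ (P.mul (P.mul h.Lij hL') hL)) ?_
  · field_simp
  · push_cast
    ring

namespace Ctx

variable (C : Ctx T S Z)

include C

theorem stepA_first (hT : Sym T) (hd : Dist i j k l) {xs0 : ℕ → Fin 4 → ℂ}
    (h0 : ∀ n, xs0 n ∈ Z) (h : E3 (gmPl FF) T (gU xs0) i j k l a ρ) :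
    ∃ xs : ℕ → Fin 4 → ℂ, (∀ n, xs n ∈ Z) ∧ ∃ t, E1 (gmPl FF) T (gU xs) j l i k t ∨
      E1 (gmPl FF) T (gU xs) i l j k t := by
  obtain ⟨xs, hxs, hE, hB⟩ := C.exists_end (C.rpX k) h0 (fun r hr hr' => by
    obtain ⟨p, hp, hprod⟩ := C.prodU hd
    obtain ⟨z, τ, hz, hτ, hL, hL', hL''⟩ := h.prod_lim
    rw [hprod xs0 h0] at hL''
    have e1 : (p : ℂ) = -(a * τ * z ^ 3 : ℂ) := (gmPl FF).uniq ((gmPl FF).cst p) hL''
    have e2 : z = ((r⁻¹ : ℝ) : ℂ) := by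
      have h1 : (gmPl FF).Lim (gU xs0 k) ((r⁻¹ : ℝ) : ℂ) := by
        have h2 : gU xs0 k = algebraMap ℝ (Gm FF) r⁻¹ := by
          rw [map_inv₀, ← hr', toGm_X]
          rfl
        rw [h2]
        exact (gmPl FF).cst _
      exact (gmPl FF).uniq hL h1
    rw [e2] at e1
    have e3 : p = -(a * τ * r⁻¹ ^ 3) := by exact_mod_cast e1
    have := h.ha
    have h4 : 0 < a * τ * r⁻¹ ^ 3 := by positivity
    linarith)
  refine ⟨xs, hxs, ?_⟩
  rw [toGm_X, gX_eq] at hB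
  obtain ⟨i', j', k', l', hd', ⟨a', h'⟩ | ⟨a', ρ', h'⟩⟩ := hE
  · obtain ⟨b, h1 | h1 | h1 | h1 | h1 | h1⟩ := h'.normal hT hd hd'
    · exact (h.disc h1.sqk).elim
    · exact (hB (h1.odi.inv.B h1.odI h1.ne_j (by norm_num))).elim
    · exact (hB (h1.odj.inv.B h1.odI h1.ne_j (by norm_num))).elim
    · exact ⟨_, Or.inl h1⟩
    · exact ⟨_, Or.inr h1⟩
    · exact (hB (h1.odj.inv.B h1.odI h1.ne_j (by norm_num))).elim
  · exfalso
    obtain ⟨b, σ, (h1 | h1 | h1) | (h1 | h1 | h1) | (h1 | h1 | h1) | (h1 | h1 | h1)⟩ :=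
      h'.normal hT hd hd'
    · exact hB (h1.odk.inv.B h1.odI h1.ne_j (by norm_num))
    · exact hB (h1.odj.inv.B h1.odI h1.ne_j (by norm_num))
    · exact hB (h1.odj.inv.B h1.odI h1.ne_j (by norm_num))
    · exact h.disc h1.sq1
    · exact h.disc h1.sq2
    · apply h.disc
      have h2 := h1.sq2
      rw [hT.1 j i k] at h2
      rw [h2]
      ring
    · exact hB (h1.odj.inv.B h1.odI h1.ne_j (by norm_num))
    · exact hB (h1.odk.inv.B h1.odI h1.ne_j (by norm_num))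
    · exact hB (h1.odi.inv.B h1.odI h1.ne_j (by norm_num))
    · exact hB (h1.odj.inv.B h1.odI h1.ne_j (by norm_num))
    · exact hB (h1.odk.inv.B h1.odI h1.ne_j (by norm_num))
    · exact hB (h1.odi.inv.B h1.odI h1.ne_j (by norm_num))

theorem stepA_aux (hT : Sym T) (hT0 : ∀ i j k, 0 ≤ T i j k) (hd : Dist i j k l)
    {xs0 xs1 : ℕ → Fin 4 → ℂ} (h0 : ∀ n, xs0 n ∈ Z)
    (h : E3 (gmPl FF) T (gU xs0) i j k l a ρ) (h' : E1 (gmPl FF) T (gU xs1) j l i k t) :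
    False := by
  have p := par_of hT hT0 h h'
  obtain ⟨G, hG⟩ : ∃ G, G = T i i l / (a * t) := ⟨_, rfl⟩
  obtain ⟨b, hb⟩ : ∃ b, b = T i i k / (T i i l / (a * t) * ρ) := ⟨_, rfl⟩
  obtain ⟨z, hz⟩ : ∃ z, z = a * t := ⟨_, rfl⟩
  rw [← hb, ← hG, ← hz] at p
  by_cases hX : ∃ xs2 : ℕ → Fin 4 → ℂ, (∀ n, xs2 n ∈ Z) ∧ ∃ s σ,
      E3 (gmPl FF) T (gU xs2) k l i j s σ
  · -- the exceptional end exists
    obtain ⟨xs2, h2, s, σ, hX⟩ := hX
    have hall : ∀ xs : ℕ → Fin 4 → ℂ, (∀ n, xs n ∈ Z) → IsEnd (gmPl FF) T (gU xs) →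
        (gmPl FF).B (gU xs i * gU xs i * gU xs l * (gU xs k)⁻¹) ∧
        (gmPl FF).B (gU xs j * (gU xs k * gU xs k) * (gU xs i)⁻¹) := by
      intro xs hxs hE
      rcases p.ends_X hT hd hX hE with ⟨b, h1⟩ | ⟨b, h1⟩ | ⟨b, σ, h1⟩ | ⟨b, σ, h1⟩
      · have n := h1.ne_j
        have oi := h1.odi
        have ok := h1.odj
        have oj := h1.odk
        have ol := h1.odl
        exact ⟨((((oi.mul n oi).mul n ol).mul n ok.inv).B h1.odI n (by norm_num)),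
          (((oj.mul n (ok.mul n ok)).mul n oi.inv).B h1.odI n (by norm_num))⟩
      · have n := h1.ne_j
        have oj := h1.odi
        have ol := h1.odj
        have oi := h1.odk
        have ok := h1.odl
        exact ⟨((((oi.mul n oi).mul n ol).mul n ok.inv).B h1.odI n (by norm_num)),
          (((oj.mul n (ok.mul n ok)).mul n oi.inv).B h1.odI n (by norm_num))⟩
      · have n := h1.ne_j
        have oi := h1.odi
        have oj := h1.odj
        have ok := h1.odk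
        have ol := h1.odl
        exact ⟨((((oi.mul n oi).mul n ol).mul n ok.inv).B h1.odI n (by norm_num)),
          (((oj.mul n (ok.mul n ok)).mul n oi.inv).B h1.odI n (by norm_num))⟩
      · have n := h1.ne_j
        have ok := h1.odi
        have ol := h1.odj
        have oi := h1.odk
        have oj := h1.odl
        exact ⟨((((oi.mul n oi).mul n ol).mul n ok.inv).B h1.odI n (by norm_num)),
          (((oj.mul n (ok.mul n ok)).mul n oi.inv).B h1.odI n (by norm_num))⟩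
    obtain ⟨r1, hr1, e1⟩ := C.const (((((C.rpU i).mul (C.rpU i)).mul (C.rpU l)).mul (C.rpX k)))
      (fun xs hxs hE => by
        rw [toGm_mul', toGm_mul', toGm_mul', toGm_U, toGm_U, toGm_X, gX_eq]
        exact (hall xs hxs hE).1)
    obtain ⟨r2, hr2, e2⟩ := C.const (((C.rpU j).mul ((C.rpU k).mul (C.rpU k))).mul (C.rpX i))
      (fun xs hxs hE => by
        rw [toGm_mul', toGm_mul', toGm_mul', toGm_U, toGm_U, toGm_X, gX_eq]
        exact (hall xs hxs hE).2)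
    have e1 := e1 xs0 h0
    have e2 := e2 xs0 h0
    rw [toGm_mul', toGm_mul', toGm_mul', toGm_U, toGm_U, toGm_X, gX_eq] at e1 e2
    obtain ⟨w, τ, hw, hτ, hL, hL'⟩ := h.Lkl
    have ha := h.ha
    have ni := h.ne_i
    have nj := h.ne_j
    have nk := h.ne_k
    have nl := h.ne_l
    have f1 : (r1 : ℂ) = (a ^ 2 * τ : ℝ) * w := by
      have h3 : (gmPl FF).Lim (gU xs0 i * gU xs0 i * gU xs0 l * (gU xs0 k)⁻¹)
          ((a ^ 2 * τ : ℝ) * w) := by
        refine (gmPl FF).lim_val ((gmPl FF).lim_eq ?_ ((gmPl FF).mul ((gmPl FF).mul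
          ((gmPl FF).lim_pow h.Lij 2) hL') ((gmPl FF).lim_inv hL hw))) ?_
        · field_simp
        · push_cast
          field_simp
      rw [e1] at h3
      exact (gmPl FF).uniq ((gmPl FF).cst r1) h3
    have f2 : (r2 : ℂ) = -((a⁻¹ : ℝ) * w ^ 2) := by
      have h3 : (gmPl FF).Lim (gU xs0 j * (gU xs0 k * gU xs0 k) * (gU xs0 i)⁻¹)
          (-((a⁻¹ : ℝ) * w ^ 2)) := by
        refine (gmPl FF).lim_val ((gmPl FF).lim_eq ?_ ((gmPl FF).mul
          ((gmPl FF).lim_inv h.Lij (neg_cast_ne ha)) ((gmPl FF).lim_pow hL 2))) ?_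
        · field_simp
        · push_cast
          rw [inv_neg]
          ring
      rw [e2] at h3
      exact (gmPl FF).uniq ((gmPl FF).cst r2) h3
    have hc : (a ^ 2 * τ : ℝ) ≠ 0 := by positivity
    have f3 : w = ((r1 / (a ^ 2 * τ) : ℝ) : ℂ) := by
      have hc' : ((a ^ 2 * τ : ℝ) : ℂ) ≠ 0 := by exact_mod_cast hc
      rw [Complex.ofReal_div, f1]
      field_simp
    rw [f3] at f2
    have f4 : r2 = -(a⁻¹ * (r1 / (a ^ 2 * τ)) ^ 2) := by exact_mod_cast f2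
    have f5 : 0 < a⁻¹ * (r1 / (a ^ 2 * τ)) ^ 2 := by positivity
    linarith
  · -- the linear form is constant
    push Not at hX
    have hL : RP S (fun x => (x i)⁻¹ + (a : ℂ) * (x j)⁻¹ + (ρ : ℂ) * (x k)⁻¹ +
        (z : ℂ) * (x l)⁻¹) :=
      (((C.rpU i).add ((RP.const p.hx).mul (C.rpU j))).add
        ((RP.const p.hy).mul (C.rpU k))).add ((RP.const p.hz).mul (C.rpU l))
    have hg : ∀ xs : ℕ → Fin 4 → ℂ, toGm FF (fun n => (xs n i)⁻¹ + (a : ℂ) * (xs n j)⁻¹ +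
        (ρ : ℂ) * (xs n k)⁻¹ + (z : ℂ) * (xs n l)⁻¹) = gU xs i + algebraMap ℝ _ a * gU xs j
        + algebraMap ℝ _ ρ * gU xs k + algebraMap ℝ _ z * gU xs l := by
      intro xs
      rw [toGm_add', toGm_add', toGm_add', toGm_mul', toGm_mul', toGm_mul', toGm_U, toGm_U,
        toGm_U, toGm_U, toGm_real, toGm_real, toGm_real]
    obtain ⟨e, he, hconst⟩ := C.const hL (fun xs hxs hE => by
      rw [hg]
      exact p.lin_B hT hd hE (hX xs hxs))
    have h1 := hconst xs0 h0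
    rw [hg] at h1
    have h2 := p.lin_ijkl h
    rw [h1] at h2
    exact Pl.cst_not_I he.ne' h2

/-- There is no end of the second kind. -/
theorem no_E3 (hT : Sym T) (hT0 : ∀ i j k, 0 ≤ T i j k) (hd : Dist i j k l)
    {xs0 : ℕ → Fin 4 → ℂ} (h0 : ∀ n, xs0 n ∈ Z)
    (h : E3 (gmPl FF) T (gU xs0) i j k l a ρ) : False := by
  obtain ⟨xs, hxs, t, h' | h'⟩ := C.stepA_first hT hd h0 h
  · exact C.stepA_aux hT hT0 hd h0 h h'
  · have hd' : Dist j i k l := by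
      obtain ⟨d1, d2, d3, d4, d5, d6⟩ := hd
      exact ⟨d1.symm, d4, d5, d2, d3, d6⟩
    exact C.stepA_aux hT hT0 hd' h0 (h.swap12 hT) h'

end Ctx

end Pool.Agent.H.MP_deabf1_gt.Four
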