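import Pool.Agent.H.MP_deabf1_gt.helper94.StepA

/-!
Only ends of the first kind: the types of the ends and the structure constants.
-/

namespace Pool.Agent.H.MP_deabf1_gt.Four

open Filter

variable {T : Fin 4 → Fin 4 → Fin 4 → ℝ} {S Z : Set (Fin 4 → ℂ)} {i j k l : Fin 4}
  {a a' b w y al be G G' : ℝ}

/-- The relation between the two constant products and the structure constants. -/
theorem E1.quot {K : Type*} [Field K] [Algebra ℝ K] {P : Pl K} {u : Fin 4 → K}
    (h : E1 P T u i j k l a) (hbe : be ≠ 0) (h1 : u i * u l = algebraMap ℝ K al)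
    (h2 : u j * u k = algebraMap ℝ K be) : al * T i i k = be * a * T i i l := by
  have nj := h.ne_j
  have nl := h.ne_l
  have nk := h.ne_k
  have hb : algebraMap ℝ K be ≠ 0 := (map_ne_zero _).2 hbe
  have e1 : u i / u j = algebraMap ℝ K al / algebraMap ℝ K be * (u k / u l) := by
    rw [← h1, ← h2]
    field_simp
  have hbc : (be : ℂ) ≠ 0 := by exact_mod_cast hbe
  have L1 := P.lim_eq e1 (P.mul (P.lim_div (P.cst al) (P.cst be) hbc) h.Lkl)
  have e2 := P.uniq h.Lij L1
  have e3 : -a = al / be * (-(T i i k / T i i l)) := by exact_mod_cast e2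
  have := h.pl
  field_simp at e3
  linarith

/-- The structure constants in terms of parameters. -/
structure Par2 (T : Fin 4 → Fin 4 → Fin 4 → ℝ) (i j k l : Fin 4) (G G' b al be : ℝ) : Prop where
  hG : 0 < G
  hG' : 0 < G'
  hb : 0 < b
  hal : 0 < al
  hbe : 0 < be
  q : al * G = be * G'
  iij : T i i j = b * G
  iik : T i i k = b * G
  iil : T i i l = G'
  jji : T j j i = b ^ 2 * G'
  jjk : T j j k = b ^ 3 * G
  jjl : T j j l = b ^ 2 * G'
  kki : T k k i = b ^ 2 * G'
  kkj : T k k j = b ^ 3 * G
  kkl : T k k l = b ^ 2 * G'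
  lli : T l l i = G'
  llj : T l l j = b * G
  llk : T l l k = b * G
  ijk : T i j k = b ^ 2 * G
  jkl : T j k l = b ^ 2 * G
  ijl : T i j l = b * G'
  ikl : T i k l = b * G'

theorem par2_of {K : Type*} [Field K] [Algebra ℝ K] {P : Pl K} {u u' u'' u''' : Fin 4 → K}
    (hT : Sym T) (hal : 0 < al) (hbe : 0 < be)
    (h : E1 P T u i j k l a) (h1 : u i * u l = algebraMap ℝ K al)
    (h2 : u j * u k = algebraMap ℝ K be)
    (h' : E1 P T u' i k j l a') (h1' : u' i * u' l = algebraMap ℝ K al)
    (h2' : u' j * u' k = algebraMap ℝ K be)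
    (h'' : E1 P T u'' k l i j w) (h1'' : u'' i * u'' l = algebraMap ℝ K al)
    (h2'' : u'' j * u'' k = algebraMap ℝ K be)
    (h''' : E1 P T u''' j l i k y) (h1''' : u''' i * u''' l = algebraMap ℝ K al)
    (h2''' : u''' j * u''' k = algebraMap ℝ K be) :
    Par2 T i j k l (T i i k / a) (T i i l) a al be := by
  have q1 := h.quot hbe.ne' h1 h2
  have q2 := h'.quot hbe.ne' h1' (by rw [mul_comm]; exact h2')
  have q3 := h''.quot hal.ne' (by rw [mul_comm]; exact h2'') (by rw [mul_comm]; exact h1'')
  have q4 := h'''.quot hal.ne' h2''' (by rw [mul_comm]; exact h1''')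
  have pk := h.pk
  have pl := h.pl
  have pj := h'.pk
  have ha := h.ha
  have ha' := h'.ha
  have hw := h''.ha
  have hy := h'''.ha
  -- first relations
  have r1 := h.ijk
  have r2 := h.jjk
  have r3 := h.ijl
  have r4 := h.jjl
  have s1 := h'.ijk
  have s2 := h'.jjk
  have s3 := h'.ijl
  have s4 := h'.jjl
  have t1 := h''.ijk
  have t2 := h''.jjk
  have t3 := h''.ijl
  have t4 := h''.jjl
  have v1 := h'''.ijk
  have v2 := h'''.jjk
  have v3 := h'''.ijl
  have v4 := h'''.jjl
  rw [hT.2 i k j] at s1
  rw [hT.2 k l i, hT.1 k i l] at t1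
  rw [hT.2 k l j, hT.1 k j l] at t3
  rw [hT.2 j l i, hT.1 j i l] at v1
  rw [hT.2 j l k] at v3
  have e1 : a' * T i i j = a * T i i k := by rw [← s1, ← r1]
  have e2 : a * T i i j = a' * T i i k := by
    have e3 : be * T i i l * (a * T i i j - a' * T i i k) = 0 := by
      linear_combination (T i i k) * q2 - (T i i j) * q1
    have e4 : be * T i i l ≠ 0 := by positivity
    have e5 := (mul_eq_zero.1 e3).resolve_left e4
    linarith
  have e3 : a' = a := by
    have e4 : T i i k * (a' - a) * (a' + a) = 0 := by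
      linear_combination a * e1 - a' * e2
    have e5 : T i i k * (a' - a) = 0 := (mul_eq_zero.1 e4).resolve_right (by positivity)
    have e6 := (mul_eq_zero.1 e5).resolve_left pk.ne'
    linarith
  rw [e3] at e1 s1 s2 s3 s4
  have e4 : T i i j = T i i k := mul_left_cancel₀ ha.ne' e1
  obtain ⟨G, hG⟩ : ∃ G, G = T i i k / a := ⟨_, rfl⟩
  have hGp : 0 < G := by
    rw [hG]
    positivity
  have iik : T i i k = a * G := by
    rw [hG]
    field_simp
  have iij : T i i j = a * G := e4.trans iik
  rw [← hG]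
  have hq : al * G = be * T i i l := by
    have e5 : a * (al * G - be * T i i l) = 0 := by
      rw [iik] at q1
      linear_combination q1
    have e6 := (mul_eq_zero.1 e5).resolve_left ha.ne'
    linarith
  have jjk : T j j k = a ^ 3 * G := by
    rw [r2, iik]
    ring
  have kkj : T k k j = a ^ 3 * G := by
    rw [s2, iij]
    ring
  have e5 : w = y := by
    rw [kkj] at t3
    rw [jjk] at v3
    have e6 : (a ^ 3 * G) * (w - y) = 0 := by linear_combination v3 - t3
    have e7 := (mul_eq_zero.1 e6).resolve_left (by positivity)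
    linarith
  have e6 : w * a = 1 := by
    have e7 : be * a * T i i l * ((w * a - 1) * (w * a + 1)) = 0 := by
      rw [kkj] at q3
      rw [s3] at t1
      linear_combination -(w * q3) - be * t1 - w ^ 2 * a ^ 3 * hq
    have e8 := (mul_eq_zero.1 e7).resolve_left (by positivity)
    have e9 := (mul_eq_zero.1 e8).resolve_right (by positivity)
    linarith
  have e7 : w = a⁻¹ := eq_inv_of_mul_eq_one_left e6
  rw [← e5, e7] at v1 v2 v3 v4
  rw [e7] at t1 t2 t3 t4
  have kki : T k k i = a ^ 2 * T i i l := by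
    rw [s3] at t1
    field_simp at t1
    linarith
  have jji : T j j i = a ^ 2 * T i i l := by
    rw [r3] at v1
    field_simp at v1
    linarith
  refine ⟨hGp, pl, ha, hal, hbe, hq, iij, iik, rfl, jji, jjk, r4, kki, kkj, s4, ?_, ?_, ?_, ?_, ?_,
    r3, s3⟩
  · rw [t2, kki]
    field_simp
  · rw [t4, kkj]
    field_simp
  · rw [v4, jjk]
    field_simp
  · rw [r1, iik]
    ring
  · rw [t3, kkj]
    field_simp

namespace Par2

variable {K : Type*} [Field K] [Algebra ℝ K] {P : Pl K} {u : Fin 4 → K}
  (p : Par2 T i j k l G G' b al be)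

include p

theorem lin_ijkl (h : E1 P T u i j k l a) :
    P.B (u i + u l + algebraMap ℝ K b * (u j + u k)) := by
  have ha : a = b := by
    have e := h.ijl
    rw [p.ijl, p.iil] at e
    exact (mul_right_cancel₀ p.hG'.ne' e).symm
  have h1 := h.Bz.add (h.Bl.add ((Pl.B.cst (P := P) b).mul h.Bk))
  have e : u i + algebraMap ℝ K a * u j + (u l + algebraMap ℝ K b * u k)
      = u i + u l + algebraMap ℝ K b * (u j + u k) := by
    rw [ha]
    ring
  rwa [e] at h1

theorem lin_ikjl (h : E1 P T u i k j l a) :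
    P.B (u i + u l + algebraMap ℝ K b * (u j + u k)) := by
  have ha : a = b := by
    have e := h.ijl
    rw [p.ikl, p.iil] at e
    exact (mul_right_cancel₀ p.hG'.ne' e).symm
  have h1 := h.Bz.add (h.Bl.add ((Pl.B.cst (P := P) b).mul h.Bk))
  have e : u i + algebraMap ℝ K a * u k + (u l + algebraMap ℝ K b * u j)
      = u i + u l + algebraMap ℝ K b * (u j + u k) := by
    rw [ha]
    ring
  rwa [e] at h1

theorem lin_klij (h : E1 P T u k l i j a) :
    P.B (u i + u l + algebraMap ℝ K b * (u j + u k)) := by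
  have ha : algebraMap ℝ K b * algebraMap ℝ K a = 1 := by
    have e := h.jjk
    rw [p.lli, p.kki] at e
    have e1 : G' * ((b * a - 1) * (b * a + 1)) = 0 := by linear_combination -e
    have e2 := (mul_eq_zero.1 e1).resolve_left p.hG'.ne'
    have := p.hb
    have := h.ha
    have e3 := (mul_eq_zero.1 e2).resolve_right (by positivity)
    rw [← map_mul, sub_eq_zero.1 e3, map_one]
  have h1 := ((Pl.B.cst (P := P) b).mul h.Bz).add (h.Bk.add ((Pl.B.cst (P := P) b).mul h.Bl))
  have e : algebraMap ℝ K b * (u k + algebraMap ℝ K a * u l) + (u i + algebraMap ℝ K b * u j)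
      = u i + u l + algebraMap ℝ K b * (u j + u k) := by
    linear_combination u l * ha
  rwa [e] at h1

theorem lin_jlik (h : E1 P T u j l i k a) :
    P.B (u i + u l + algebraMap ℝ K b * (u j + u k)) := by
  have ha : algebraMap ℝ K b * algebraMap ℝ K a = 1 := by
    have e := h.jjk
    rw [p.lli, p.jji] at e
    have e1 : G' * ((b * a - 1) * (b * a + 1)) = 0 := by linear_combination -e
    have e2 := (mul_eq_zero.1 e1).resolve_left p.hG'.ne'
    have := p.hb
    have := h.ha
    have e3 := (mul_eq_zero.1 e2).resolve_right (by positivity)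
    rw [← map_mul, sub_eq_zero.1 e3, map_one]
  have h1 := ((Pl.B.cst (P := P) b).mul h.Bz).add (h.Bk.add ((Pl.B.cst (P := P) b).mul h.Bl))
  have e : algebraMap ℝ K b * (u j + algebraMap ℝ K a * u l) + (u i + algebraMap ℝ K b * u k)
      = u i + u l + algebraMap ℝ K b * (u j + u k) := by
    linear_combination u l * ha
  rwa [e] at h1

end Par2

end Pool.Agent.H.MP_deabf1_gt.Four
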