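import Pool.Agent.H.MP_deabf1_gt.helper94.StepB
import Pool.Agent.H.MP_deabf1_gt.helper65.Loc1

/-!
The final contradiction: the first two equations on a curve with constant linear form.
-/

namespace Pool.Agent.H.MP_deabf1_gt.Four

/-- The first equation. -/
theorem idA {K : Type*} [Field K] {A u1 u2 u3 u4 al be τ b e g g' : K} (n1 : u1 ≠ 0)
    (n2 : u2 ≠ 0) (nal : al ≠ 0) (nbe : be ≠ 0) (h4 : u4 = al / u1) (h3 : u3 = be / u2)
    (hg : g = τ * be) (hg' : g' = τ * al) (he : e = u1 + u4 + b * (u2 + u3)) :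
    A * u1 - 2 * (b * g) * (u1 ^ 2 / u2) - 2 * (b * g) * (u1 ^ 2 / u3) - 2 * g' * (u1 ^ 2 / u4)
      + b ^ 2 * g' * (u2 ^ 2 / u1) + b ^ 2 * g' * (u3 ^ 2 / u1) + g' * (u4 ^ 2 / u1)
      - 2 * b ^ 2 * g * (u1 * u2 / u3 + u1 * u3 / u2 - u2 * u3 / u1)
      - 2 * b * g' * (u1 * u2 / u4 + u1 * u4 / u2 - u2 * u4 / u1)
      - 2 * b * g' * (u1 * u3 / u4 + u1 * u4 / u3 - u3 * u4 / u1)
    = (A - 2 * τ * e ^ 2 + 3 * g' + 4 * b ^ 2 * g - 2 * g' * (1 - al / be)) * u1
      + (τ * e ^ 2 + 2 * b ^ 2 * g * (be / al - 1) - 2 * g' * (1 - al / be)) * u4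
      + 2 * g' * (1 - al / be) * e := by
  subst he hg hg' h3 h4
  field_simp
  ring

/-- The second equation. -/
theorem idB {K : Type*} [Field K] {A u1 u2 u3 u4 al be τ b e g g' : K} (n1 : u1 ≠ 0)
    (n2 : u2 ≠ 0) (nal : al ≠ 0) (nbe : be ≠ 0) (h4 : u4 = al / u1) (h3 : u3 = be / u2)
    (hg : g = τ * be) (hg' : g' = τ * al) (he : e = u1 + u4 + b * (u2 + u3)) :
    A * u2 - 2 * (b ^ 2 * g') * (u2 ^ 2 / u1) - 2 * (b ^ 3 * g) * (u2 ^ 2 / u3)
      - 2 * (b ^ 2 * g') * (u2 ^ 2 / u4) + b * g * (u1 ^ 2 / u2) + b ^ 3 * g * (u3 ^ 2 / u2)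
      + b * g * (u4 ^ 2 / u2) - 2 * b ^ 2 * g * (u2 * u1 / u3 + u2 * u3 / u1 - u1 * u3 / u2)
      - 2 * b * g' * (u2 * u1 / u4 + u2 * u4 / u1 - u1 * u4 / u2)
      - 2 * b ^ 2 * g * (u2 * u3 / u4 + u2 * u4 / u3 - u3 * u4 / u2)
    = (A - 2 * b * τ * e ^ 2 + b * (3 * b ^ 2 * g + 4 * g')
        + 2 * b ^ 3 * (τ * (be - al)) * (be / al)) * u2
      + (b * τ * e ^ 2 - 2 * b * (τ * (be - al)) * (al / be)
        + 2 * b ^ 3 * (τ * (be - al)) * (be / al)) * u3
      - 2 * b ^ 2 * (τ * (be - al)) * (be / al) * e := by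
  subst he hg hg' h3 h4
  field_simp
  ring

variable {K : Type*} [Field K] [Algebra ℝ K] {P : Pl K}
  {T : Fin 4 → Fin 4 → Fin 4 → ℝ} {u : Fin 4 → K} {i j k l : Fin 4}
  {a b e al be G G' : ℝ} {γ : Fin 4 → ℝ} {d : Fin 4 → ℕ}

/-- A linear relation with constant coefficients between a large and a small function. -/
theorem const_rel {x y : K} {r s t v : ℝ} (hx : P.I x⁻¹) (nx : x ≠ 0) (hy : P.I y)
    (h : algebraMap ℝ K r * x + algebraMap ℝ K s * y + algebraMap ℝ K t = algebraMap ℝ K v) :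
    t = v := by
  have e1 : algebraMap ℝ K r + algebraMap ℝ K s * y * x⁻¹ + algebraMap ℝ K t * x⁻¹
      - algebraMap ℝ K v * x⁻¹ = 0 := by
    have e2 := congrArg (· * x⁻¹) h
    simp only [add_mul, mul_assoc, mul_inv_cancel₀ nx, mul_one] at e2
    linear_combination e2
  have L1 := P.eq0 e1 (P.lim_sub (P.add (P.add (P.cst r) (P.mul (P.mul (P.cst s) hy) hx))
    (P.mul (P.cst t) hx)) (P.mul (P.cst v) hx))
  have hr : r = 0 := by
    have e3 : (r : ℂ) = 0 := by simpa using L1
    exact_mod_cast e3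
  rw [hr, map_zero, zero_mul, zero_add] at h
  have L2 := P.lim_eq h.symm (P.add (P.mul (P.cst s) hy) (P.cst t))
  have e4 := P.uniq (P.cst v) L2
  have e5 : (v : ℂ) = t := by simpa using e4
  exact_mod_cast e5.symm

theorem stepC (S : Sys4 P (algebraMap ℝ K) (cf T γ d i j k l) (u i) (u j) (u k) (u l))
    (p : Par2 T i j k l G G' b al be) (hd : ∀ m, 0 < d m) (h : E1 P T u i j k l a)
    (h1 : u i * u l = algebraMap ℝ K al) (h2 : u j * u k = algebraMap ℝ K be) (he : 0 < e)
    (hL : u i + u l + algebraMap ℝ K b * (u j + u k) = algebraMap ℝ K e) : False := by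
  have ni := h.ne_i
  have nj := h.ne_j
  have hG := p.hG
  have hG' := p.hG'
  have hb := p.hb
  have hal := p.hal
  have hbe := p.hbe
  have nal : algebraMap ℝ K al ≠ 0 := (map_ne_zero _).2 hal.ne'
  have nbe : algebraMap ℝ K be ≠ 0 := (map_ne_zero _).2 hbe.ne'
  obtain ⟨g, hg⟩ : ∃ g : ℝ, g = G / 4 := ⟨_, rfl⟩
  obtain ⟨g', hg'⟩ : ∃ g' : ℝ, g' = G' / 4 := ⟨_, rfl⟩
  obtain ⟨τ, hτ⟩ : ∃ τ : ℝ, τ = g' / al := ⟨_, rfl⟩
  have hτp : 0 < τ := by
    rw [hτ, hg']
    positivity
  have e1 : g' = τ * al := by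
    rw [hτ]
    field_simp
  have e2 : g = τ * be := by
    rw [hτ, hg, hg']
    have := p.q
    field_simp
    linarith
  have h4 : u l = algebraMap ℝ K al / u i := by
    rw [← h1]
    field_simp
  have h3 : u k = algebraMap ℝ K be / u j := by
    rw [← h2]
    field_simp
  have ke1 : algebraMap ℝ K g' = algebraMap ℝ K τ * algebraMap ℝ K al := by rw [e1, map_mul]
  have ke2 : algebraMap ℝ K g = algebraMap ℝ K τ * algebraMap ℝ K be := by rw [e2, map_mul]
  -- the first equation
  have f1 : 2 * g' * (1 - al / be) * e = d i := by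
    have hA := idA (A := algebraMap ℝ K (cf T γ d i j k l).a1) ni nj nal nbe h4 h3 ke2 ke1 hL.symm
    have hE := S.e1
    have c12 : algebraMap ℝ K (cf T γ d i j k l).b12 = algebraMap ℝ K b * algebraMap ℝ K g := by
      rw [← map_mul]
      congr 1
      simp only [cf, p.iij, hg]
      ring
    have c13 : algebraMap ℝ K (cf T γ d i j k l).b13 = algebraMap ℝ K b * algebraMap ℝ K g := by
      rw [← map_mul]
      congr 1
      simp only [cf, p.iik, hg]
      ring
    have c14 : algebraMap ℝ K (cf T γ d i j k l).b14 = algebraMap ℝ K g' := by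
      congr 1
      simp only [cf, p.iil, hg']
    have c21 : algebraMap ℝ K (cf T γ d i j k l).b21
        = algebraMap ℝ K b ^ 2 * algebraMap ℝ K g' := by
      rw [← map_pow, ← map_mul]
      congr 1
      simp only [cf, p.jji, hg']
      ring
    have c31 : algebraMap ℝ K (cf T γ d i j k l).b31
        = algebraMap ℝ K b ^ 2 * algebraMap ℝ K g' := by
      rw [← map_pow, ← map_mul]
      congr 1
      simp only [cf, p.kki, hg']
      ring
    have c41 : algebraMap ℝ K (cf T γ d i j k l).b41 = algebraMap ℝ K g' := by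
      congr 1
      simp only [cf, p.lli, hg']
    have c123 : algebraMap ℝ K (cf T γ d i j k l).c123
        = 2 * algebraMap ℝ K b ^ 2 * algebraMap ℝ K g := by
      rw [← map_pow, ← map_ofNat (algebraMap ℝ K) 2, ← map_mul, ← map_mul]
      congr 1
      simp only [cf, p.ijk, hg]
      ring
    have c124 : algebraMap ℝ K (cf T γ d i j k l).c124
        = 2 * algebraMap ℝ K b * algebraMap ℝ K g' := by
      rw [← map_ofNat (algebraMap ℝ K) 2, ← map_mul, ← map_mul]
      congr 1
      simp only [cf, p.ijl, hg']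
      ring
    have c134 : algebraMap ℝ K (cf T γ d i j k l).c134
        = 2 * algebraMap ℝ K b * algebraMap ℝ K g' := by
      rw [← map_ofNat (algebraMap ℝ K) 2, ← map_mul, ← map_mul]
      congr 1
      simp only [cf, p.ikl, hg']
      ring
    rw [c12, c13, c14, c21, c31, c41, c123, c124, c134] at hE
    refine const_rel (r := (cf T γ d i j k l).a1 - 2 * τ * e ^ 2 + 3 * g' + 4 * b ^ 2 * g
      - 2 * g' * (1 - al / be)) (s := τ * e ^ 2 + 2 * b ^ 2 * g * (be / al - 1)
      - 2 * g' * (1 - al / be)) (P := P) (x := u i) (y := u l) ?_ ni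
      (h.odl.I h.odI h.ne_j (by norm_num)) ?_
    · exact h.odi.inv.I h.odI h.ne_j (by norm_num)
    · simp only [map_sub, map_add, map_mul, map_pow, map_div₀, map_ofNat, map_one]
      have hD : algebraMap ℝ K (cf T γ d i j k l).d1 = algebraMap ℝ K (d i : ℝ) := rfl
      rw [hD] at hE
      linear_combination hE - hA
  -- the second equation
  have f2 : -(2 * b ^ 2 * (τ * (be - al)) * (be / al) * e) = d j := by
    have hA := idB (A := algebraMap ℝ K (cf T γ d i j k l).a2) ni nj nal nbe h4 h3 ke2 ke1 hL.symm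
    have hE := S.e2
    have c12 : algebraMap ℝ K (cf T γ d i j k l).b12 = algebraMap ℝ K b * algebraMap ℝ K g := by
      rw [← map_mul]
      congr 1
      simp only [cf, p.iij, hg]
      ring
    have c32 : algebraMap ℝ K (cf T γ d i j k l).b32
        = algebraMap ℝ K b ^ 3 * algebraMap ℝ K g := by
      rw [← map_pow, ← map_mul]
      congr 1
      simp only [cf, p.kkj, hg]
      ring
    have c42 : algebraMap ℝ K (cf T γ d i j k l).b42 = algebraMap ℝ K b * algebraMap ℝ K g := by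
      rw [← map_mul]
      congr 1
      simp only [cf, p.llj, hg]
      ring
    have c21 : algebraMap ℝ K (cf T γ d i j k l).b21
        = algebraMap ℝ K b ^ 2 * algebraMap ℝ K g' := by
      rw [← map_pow, ← map_mul]
      congr 1
      simp only [cf, p.jji, hg']
      ring
    have c23 : algebraMap ℝ K (cf T γ d i j k l).b23
        = algebraMap ℝ K b ^ 3 * algebraMap ℝ K g := by
      rw [← map_pow, ← map_mul]
      congr 1
      simp only [cf, p.jjk, hg]
      ring
    have c24 : algebraMap ℝ K (cf T γ d i j k l).b24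
        = algebraMap ℝ K b ^ 2 * algebraMap ℝ K g' := by
      rw [← map_pow, ← map_mul]
      congr 1
      simp only [cf, p.jjl, hg']
      ring
    have c123 : algebraMap ℝ K (cf T γ d i j k l).c123
        = 2 * algebraMap ℝ K b ^ 2 * algebraMap ℝ K g := by
      rw [← map_pow, ← map_ofNat (algebraMap ℝ K) 2, ← map_mul, ← map_mul]
      congr 1
      simp only [cf, p.ijk, hg]
      ring
    have c124 : algebraMap ℝ K (cf T γ d i j k l).c124
        = 2 * algebraMap ℝ K b * algebraMap ℝ K g' := by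
      rw [← map_ofNat (algebraMap ℝ K) 2, ← map_mul, ← map_mul]
      congr 1
      simp only [cf, p.ijl, hg']
      ring
    have c234 : algebraMap ℝ K (cf T γ d i j k l).c234
        = 2 * algebraMap ℝ K b ^ 2 * algebraMap ℝ K g := by
      rw [← map_pow, ← map_ofNat (algebraMap ℝ K) 2, ← map_mul, ← map_mul]
      congr 1
      simp only [cf, p.jkl, hg]
      ring
    rw [c12, c32, c42, c21, c23, c24, c123, c124, c234] at hE
    refine const_rel (r := (cf T γ d i j k l).a2 - 2 * b * τ * e ^ 2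
      + b * (3 * b ^ 2 * g + 4 * g') + 2 * b ^ 3 * (τ * (be - al)) * (be / al))
      (s := b * τ * e ^ 2 - 2 * b * (τ * (be - al)) * (al / be)
        + 2 * b ^ 3 * (τ * (be - al)) * (be / al)) (P := P) (x := u j) (y := u k) ?_ nj
      (h.odk.I h.odI h.ne_j (by norm_num)) ?_
    · exact h.odI
    · simp only [map_sub, map_add, map_mul, map_pow, map_div₀, map_ofNat, map_neg]
      have hD : algebraMap ℝ K (cf T γ d i j k l).d2 = algebraMap ℝ K (d j : ℝ) := rfl
      rw [hD] at hE
      linear_combination hE - hA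
  -- the signs
  have hdi : (0 : ℝ) < d i := by exact_mod_cast hd i
  have hdj : (0 : ℝ) < d j := by exact_mod_cast hd j
  rw [← f1] at hdi
  rw [← f2] at hdj
  have hg'p : 0 < g' := by
    rw [hg']
    positivity
  rcases le_or_gt be al with h5 | h5
  · have h6 : 1 - al / be ≤ 0 := by
      rw [sub_nonpos, le_div_iff₀ hbe, one_mul]
      exact h5
    have h7 : 2 * g' * e * (1 - al / be) ≤ 0 :=
      mul_nonpos_of_nonneg_of_nonpos (by positivity) h6
    linarith
  · have h6 : 0 < be - al := sub_pos.2 h5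
    have h7 : 0 < 2 * b ^ 2 * (τ * (be - al)) * (be / al) * e := by positivity
    linarith

end Pool.Agent.H.MP_deabf1_gt.Four
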