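import Pool.Agent.H.MP_deabf1_gt.helper94.StepC
import Pool.Agent.H.MP_deabf1_gt.WJ

/-!
Only ends of the first kind: the types of the ends.
-/

namespace Pool.Agent.H.MP_deabf1_gt.Four

open Filter

variable {T : Fin 4 → Fin 4 → Fin 4 → ℝ} {S Z : Set (Fin 4 → ℂ)} {i j k l : Fin 4}
  {a a' b w y al be G G' : ℝ}

/-- A constant positive function does not tend to zero. -/
theorem not_const_of_I {g : Gm FF} (h : (gmPl FF).I g) (r : ℝ) (hr : 0 < r) :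
    g ≠ algebraMap ℝ (Gm FF) r := by
  rintro rfl
  exact Pl.cst_not_I hr.ne' h

namespace Ctx

variable (C : Ctx T S Z)

include C

/-- The normal forms of an end. -/
theorem end_cases (hT : Sym T) (hT0 : ∀ i j k, 0 ≤ T i j k) (hd : Dist i j k l)
    {xs : ℕ → Fin 4 → ℂ} (hxs : ∀ n, xs n ∈ Z) (hE : IsEnd (gmPl FF) T (gU xs)) :
    ∃ b, E1 (gmPl FF) T (gU xs) i j k l b ∨ E1 (gmPl FF) T (gU xs) k l i j b ∨
      E1 (gmPl FF) T (gU xs) i k j l b ∨ E1 (gmPl FF) T (gU xs) j l i k b ∨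
      E1 (gmPl FF) T (gU xs) i l j k b ∨ E1 (gmPl FF) T (gU xs) j k i l b := by
  obtain ⟨i', j', k', l', hd', ⟨a', h'⟩ | ⟨a', ρ', h'⟩⟩ := hE
  · exact h'.normal hT hd hd'
  · exact (C.no_E3 hT hT0 hd' hxs h').elim

/-- There is a second axis. -/
theorem stepD_first (hT : Sym T) (hT0 : ∀ i j k, 0 ≤ T i j k) (hd : Dist i j k l)
    {xs0 : ℕ → Fin 4 → ℂ} (h0 : ∀ n, xs0 n ∈ Z) (h : E1 (gmPl FF) T (gU xs0) i j k l a) :
    ∃ xs : ℕ → Fin 4 → ℂ, (∀ n, xs n ∈ Z) ∧ ∃ t, E1 (gmPl FF) T (gU xs) i k j l t ∨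
      E1 (gmPl FF) T (gU xs) i l j k t := by
  obtain ⟨xs, hxs, hE, hB⟩ := C.exists_end ((C.rpU i).mul (C.rpX j)) h0 (fun r hr hr' => by
    rw [toGm_mul', toGm_U, toGm_X, gX_eq, ← div_eq_mul_inv] at hr'
    have e1 := h.Lij
    rw [hr'] at e1
    have e2 := (gmPl FF).uniq ((gmPl FF).cst r) e1
    have e3 : r = -a := by exact_mod_cast e2
    have := h.ha
    linarith)
  refine ⟨xs, hxs, ?_⟩
  rw [toGm_mul', toGm_U, toGm_X, gX_eq] at hB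
  obtain ⟨b, h1 | h1 | h1 | h1 | h1 | h1⟩ := C.end_cases hT hT0 hd hxs hE
  · exact (hB ((h1.odi.mul h1.ne_j h1.odj.inv).B h1.odI h1.ne_j (by norm_num))).elim
  · exact (hB ((h1.odk.mul h1.ne_j h1.odl.inv).B h1.odI h1.ne_j (by norm_num))).elim
  · exact ⟨_, Or.inl h1⟩
  · exact (hB ((h1.odk.mul h1.ne_j h1.odi.inv).B h1.odI h1.ne_j (by norm_num))).elim
  · exact ⟨_, Or.inr h1⟩
  · exact (hB ((h1.odk.mul h1.ne_j h1.odi.inv).B h1.odI h1.ne_j (by norm_num))).elim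

/-- The opposite end. -/
theorem opposite (hT : Sym T) (hT0 : ∀ i j k, 0 ≤ T i j k) (hd : Dist i j k l)
    {xs0 : ℕ → Fin 4 → ℂ} (h0 : ∀ n, xs0 n ∈ Z) (h : E1 (gmPl FF) T (gU xs0) i j k l a) :
    ∃ xs : ℕ → Fin 4 → ℂ, (∀ n, xs n ∈ Z) ∧ ∃ t, E1 (gmPl FF) T (gU xs) k l i j t := by
  obtain ⟨xs, hxs, hE, hB⟩ := C.exists_end
    (((C.rpU k).mul (C.rpU l)).mul ((C.rpX i).mul (C.rpX j))) h0 (by
      rw [toGm_mul', toGm_mul', toGm_mul', toGm_U, toGm_U, toGm_X, toGm_X, gX_eq, gX_eq]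
      exact not_const_of_I (((h.odk.mul h.ne_j h.odl).mul h.ne_j
        (h.odi.inv.mul h.ne_j h.odj.inv)).I h.odI h.ne_j (by norm_num)))
  refine ⟨xs, hxs, ?_⟩
  rw [toGm_mul', toGm_mul', toGm_mul', toGm_U, toGm_U, toGm_X, toGm_X, gX_eq, gX_eq] at hB
  obtain ⟨b, h1 | h1 | h1 | h1 | h1 | h1⟩ := C.end_cases hT hT0 hd hxs hE
  · exact (hB (((h1.odk.mul h1.ne_j h1.odl).mul h1.ne_j
      (h1.odi.inv.mul h1.ne_j h1.odj.inv)).B h1.odI h1.ne_j (by norm_num))).elim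
  · exact ⟨_, h1⟩
  · exact (hB (((h1.odj.mul h1.ne_j h1.odl).mul h1.ne_j
      (h1.odi.inv.mul h1.ne_j h1.odk.inv)).B h1.odI h1.ne_j (by norm_num))).elim
  · exact (hB (((h1.odl.mul h1.ne_j h1.odj).mul h1.ne_j
      (h1.odk.inv.mul h1.ne_j h1.odi.inv)).B h1.odI h1.ne_j (by norm_num))).elim
  · exact (hB (((h1.odl.mul h1.ne_j h1.odj).mul h1.ne_j
      (h1.odi.inv.mul h1.ne_j h1.odk.inv)).B h1.odI h1.ne_j (by norm_num))).elim
  · exact (hB (((h1.odj.mul h1.ne_j h1.odl).mul h1.ne_j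
      (h1.odk.inv.mul h1.ne_j h1.odi.inv)).B h1.odI h1.ne_j (by norm_num))).elim

theorem stepD_aux (hT : Sym T) (hT0 : ∀ i j k, 0 ≤ T i j k) {γ : Fin 4 → ℝ} {d : Fin 4 → ℕ}
    (hdim : ∀ i, 0 < d i) (hsys : ∀ x ∈ Z, Pl.Sys T γ (fun i => (d i : ℝ)) Finset.univ x 0)
    (hd : Dist i j k l) {xs0 xs1 : ℕ → Fin 4 → ℂ} (h0 : ∀ n, xs0 n ∈ Z)
    (h : E1 (gmPl FF) T (gU xs0) i j k l a) (h1 : ∀ n, xs1 n ∈ Z)
    (h' : E1 (gmPl FF) T (gU xs1) i k j l a') : False := by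
  have hd2 : Dist i k j l := by
    obtain ⟨d1, d2, d3, d4, d5, d6⟩ := hd
    exact ⟨d2, d1, d3, d4.symm, d6, d5⟩
  have hd3 : Dist i l j k := by
    obtain ⟨d1, d2, d3, d4, d5, d6⟩ := hd
    exact ⟨d3, d1, d2, d5.symm, d6.symm, d4⟩
  obtain ⟨xs2, h2, w, hw⟩ := C.opposite hT hT0 hd h0 h
  obtain ⟨xs3, h3, y, hy⟩ := C.opposite hT hT0 hd2 h1 h'
  -- the third axis is impossible
  have hC1 : ∀ xs : ℕ → Fin 4 → ℂ, (∀ n, xs n ∈ Z) → ∀ t,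
      ¬ E1 (gmPl FF) T (gU xs) j k i l t := by
    intro xs hxs t ht
    apply h.D0
    have e1 := h.jjl
    have e2 := h'.ijl
    have e3 := h'.jjl
    have e4 := ht.ijl
    have e5 := ht.jjl
    rw [e1] at e4 e5
    rw [e3] at e5
    have hp := h.pl
    have ha := h.ha
    have ha' := h'.ha
    have htp := ht.ha
    have e6 : a' = t * a := by
      have e7 : T i i l * ((a' - t * a) * (a' + t * a)) = 0 := by linear_combination e5
      have e8 := (mul_eq_zero.1 e7).resolve_left hp.ne'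
      have e9 := (mul_eq_zero.1 e8).resolve_right (by positivity)
      linarith
    rw [e4, e2, e6]
    ring
  have hC2 : ∀ xs : ℕ → Fin 4 → ℂ, (∀ n, xs n ∈ Z) → ∀ t,
      ¬ E1 (gmPl FF) T (gU xs) i l j k t := by
    intro xs hxs t ht
    obtain ⟨xs', hxs', t', ht'⟩ := C.opposite hT hT0 hd3 hxs ht
    exact hC1 xs' hxs' t' ht'
  have hcases : ∀ xs : ℕ → Fin 4 → ℂ, (∀ n, xs n ∈ Z) → IsEnd (gmPl FF) T (gU xs) →
      ∃ b, E1 (gmPl FF) T (gU xs) i j k l b ∨ E1 (gmPl FF) T (gU xs) k l i j b ∨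
      E1 (gmPl FF) T (gU xs) i k j l b ∨ E1 (gmPl FF) T (gU xs) j l i k b := by
    intro xs hxs hE
    obtain ⟨b, h1 | h1 | h1 | h1 | h1 | h1⟩ := C.end_cases hT hT0 hd hxs hE
    · exact ⟨_, Or.inl h1⟩
    · exact ⟨_, Or.inr (Or.inl h1)⟩
    · exact ⟨_, Or.inr (Or.inr (Or.inl h1))⟩
    · exact ⟨_, Or.inr (Or.inr (Or.inr h1))⟩
    · exact (hC2 xs hxs _ h1).elim
    · exact (hC1 xs hxs _ h1).elim
  -- the two constant products
  obtain ⟨al, hal, eal⟩ := C.const ((C.rpU i).mul (C.rpU l)) (fun xs hxs hE => by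
    rw [toGm_mul', toGm_U, toGm_U]
    obtain ⟨b, h1 | h1 | h1 | h1⟩ := hcases xs hxs hE
    · exact (h1.odi.mul h1.ne_j h1.odl).B h1.odI h1.ne_j (by norm_num)
    · exact (h1.odk.mul h1.ne_j h1.odj).B h1.odI h1.ne_j (by norm_num)
    · exact (h1.odi.mul h1.ne_j h1.odl).B h1.odI h1.ne_j (by norm_num)
    · exact (h1.odk.mul h1.ne_j h1.odj).B h1.odI h1.ne_j (by norm_num))
  obtain ⟨be, hbe, ebe⟩ := C.const ((C.rpU j).mul (C.rpU k)) (fun xs hxs hE => by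
    rw [toGm_mul', toGm_U, toGm_U]
    obtain ⟨b, h1 | h1 | h1 | h1⟩ := hcases xs hxs hE
    · exact (h1.odj.mul h1.ne_j h1.odk).B h1.odI h1.ne_j (by norm_num)
    · exact (h1.odl.mul h1.ne_j h1.odi).B h1.odI h1.ne_j (by norm_num)
    · exact (h1.odk.mul h1.ne_j h1.odj).B h1.odI h1.ne_j (by norm_num)
    · exact (h1.odi.mul h1.ne_j h1.odl).B h1.odI h1.ne_j (by norm_num))
  have eal' : ∀ xs : ℕ → Fin 4 → ℂ, (∀ n, xs n ∈ Z) → gU xs i * gU xs l = algebraMap ℝ _ al := by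
    intro xs hxs
    have e := eal xs hxs
    rwa [toGm_mul', toGm_U, toGm_U] at e
  have ebe' : ∀ xs : ℕ → Fin 4 → ℂ, (∀ n, xs n ∈ Z) → gU xs j * gU xs k = algebraMap ℝ _ be := by
    intro xs hxs
    have e := ebe xs hxs
    rwa [toGm_mul', toGm_U, toGm_U] at e
  have p := par2_of hT hal hbe h (eal' _ h0) (ebe' _ h0) h' (eal' _ h1) (ebe' _ h1)
    hw (eal' _ h2) (ebe' _ h2) hy (eal' _ h3) (ebe' _ h3)
  -- the linear form
  have hL : RP S (fun x => (x i)⁻¹ + (x l)⁻¹ + (a : ℂ) * ((x j)⁻¹ + (x k)⁻¹)) :=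
    ((C.rpU i).add (C.rpU l)).add ((RP.const p.hb).mul ((C.rpU j).add (C.rpU k)))
  have hg : ∀ xs : ℕ → Fin 4 → ℂ, toGm FF (fun n => (xs n i)⁻¹ + (xs n l)⁻¹ +
      (a : ℂ) * ((xs n j)⁻¹ + (xs n k)⁻¹)) = gU xs i + gU xs l
      + algebraMap ℝ _ a * (gU xs j + gU xs k) := by
    intro xs
    rw [toGm_add', toGm_add', toGm_mul', toGm_add', toGm_U, toGm_U, toGm_U, toGm_U, toGm_real]
  obtain ⟨e, he, hconst⟩ := C.const hL (fun xs hxs hE => by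
    rw [hg]
    obtain ⟨b, h1 | h1 | h1 | h1⟩ := hcases xs hxs hE
    · exact p.lin_ijkl h1
    · exact p.lin_klij h1
    · exact p.lin_ikjl h1
    · exact p.lin_jlik h1)
  have h4 := hconst xs0 h0
  rw [hg] at h4
  have hS := sys_germ FF (fun n => hsys _ (h0 n))
  obtain ⟨d1, d2, d3, d4, d5, d6⟩ := hd
  have hS4 := sys4_of (gmPl FF) hT hS d1 d2 d3 d4 d5 d6
  exact stepC hS4 p hdim h (eal' _ h0) (ebe' _ h0) he h4

/-- There is no end of the first kind. -/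
theorem no_E1 (hT : Sym T) (hT0 : ∀ i j k, 0 ≤ T i j k) {γ : Fin 4 → ℝ} {d : Fin 4 → ℕ}
    (hdim : ∀ i, 0 < d i) (hsys : ∀ x ∈ Z, Pl.Sys T γ (fun i => (d i : ℝ)) Finset.univ x 0)
    (hd : Dist i j k l) {xs0 : ℕ → Fin 4 → ℂ} (h0 : ∀ n, xs0 n ∈ Z)
    (h : E1 (gmPl FF) T (gU xs0) i j k l a) : False := by
  obtain ⟨xs, hxs, t, h' | h'⟩ := C.stepD_first hT hT0 hd h0 h
  · exact C.stepD_aux hT hT0 hdim hsys hd h0 h hxs h'
  · have hd' : Dist i j l k := by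
      obtain ⟨d1, d2, d3, d4, d5, d6⟩ := hd
      exact ⟨d1, d3, d2, d5, d4, d6.symm⟩
    exact C.stepD_aux hT hT0 hdim hsys hd' h0 (h.swap34 hT) hxs h'

/-- There is no such situation. -/
theorem false_of (hT : Sym T) (hT0 : ∀ i j k, 0 ≤ T i j k) {γ : Fin 4 → ℝ} {d : Fin 4 → ℕ}
    (hdim : ∀ i, 0 < d i) (hsys : ∀ x ∈ Z, Pl.Sys T γ (fun i => (d i : ℝ)) Finset.univ x 0) :
    False := by
  have hno : ∀ xs : ℕ → Fin 4 → ℂ, (∀ n, xs n ∈ Z) → ¬ IsEnd (gmPl FF) T (gU xs) := by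
    rintro xs hxs ⟨i, j, k, l, hd, ⟨a, h⟩ | ⟨a, ρ, h⟩⟩
    · exact C.no_E1 hT hT0 hdim hsys hd hxs h
    · exact C.no_E3 hT hT0 hd hxs h
  have hconst : ∀ m : Fin 4, ∃ c, ∀ x ∈ Z, x m = c := by
    intro m
    exact C.cl.const_of_places (Reg.crd m) fun xs hxs => by
      rcases C.ends xs hxs with h1 | h1
      · exact (h1 m).1
      · exact (hno xs hxs h1).elim
  choose c hc using hconst
  apply C.cl.inf
  refine (Set.finite_singleton c).subset fun x hx => ?_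
  rw [Set.mem_singleton_iff]
  funext m
  exact hc m x (C.cl.sub hx)

end Ctx

end Pool.Agent.H.MP_deabf1_gt.Four
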