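import Pool.Agent.H.MP_deabf1_gt.helper94.Od

/-!
Symmetries of the two kinds of ends.
-/

namespace Pool.Agent.H.MP_deabf1_gt.Four

variable {K : Type*} [Field K] [Algebra ℝ K] {P : Pl K}
  {T : Fin 4 → Fin 4 → Fin 4 → ℝ} {u : Fin 4 → K} {i j k l : Fin 4} {a ρ : ℝ}

theorem E1.swap12 (hT : Sym T) (h : E1 P T u i j k l a) : E1 P T u j i k l a⁻¹ := by
  have ha := h.ha
  have ha0 := ha.ne'
  have nk := h.pk.ne'
  have nl := h.pl.ne'
  have ni := h.ne_i
  have nj := h.ne_j
  have hκ : algebraMap ℝ K a ≠ 0 := (map_ne_zero _).2 ha0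
  have hLij := P.lim_inv h.Lij (neg_cast_ne ha)
  rw [inv_div] at hLij
  constructor
  · exact inv_pos.2 ha
  · rw [h.jjk]
    exact mul_pos (pow_pos ha 2) h.pk
  · rw [h.jjl]
    exact mul_pos (pow_pos ha 2) h.pl
  · rw [hT.1 j i k, h.ijk, h.jjk]
    field_simp
  · rw [h.jjk]
    field_simp
  · rw [hT.1 j i l, h.ijl, h.jjl]
    field_simp
  · rw [h.jjl]
    field_simp
  · intro h0
    apply h.D0
    rw [h0]
    field_simp
  · refine P.lim_val hLij ?_
    push_cast
    rw [inv_neg]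
  · refine P.lim_val h.Lkl ?_
    rw [h.jjk, h.jjl]
    congr 2
    field_simp
  · have h1 := P.mul h.Lj hLij
    rw [zero_mul] at h1
    refine P.lim_eq ?_ h1
    field_simp
  · exact h.Ll
  · obtain ⟨θ, hθ, hL⟩ := h.Ljl
    refine ⟨_, mul_ne_zero (neg_cast_ne ha) hθ, P.lim_eq ?_ (P.mul h.Lij hL)⟩
    field_simp
  · have h1 := (Pl.B.cst (P := P) a⁻¹).mul h.Bz
    have e : algebraMap ℝ K a⁻¹ * (u i + algebraMap ℝ K a * u j) =
        u j + algebraMap ℝ K a⁻¹ * u i := by
      rw [map_inv₀]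
      field_simp
      ring
    rwa [e] at h1

theorem E1.swap34 (hT : Sym T) (h : E1 P T u i j k l a) : E1 P T u i j l k a := by
  have nk := h.pk.ne'
  have nl := h.pl.ne'
  have nuk := h.ne_k
  have nul := h.ne_l
  have hLkl := P.lim_inv h.Lkl (neg_cast_ne h.hs)
  rw [inv_div] at hLkl
  constructor
  · exact h.ha
  · exact h.pl
  · exact h.pk
  · exact h.ijl
  · exact h.jjl
  · exact h.ijk
  · exact h.jjk
  · rw [hT.2 j l k, hT.2 i l k]
    exact h.D0
  · exact h.Lij
  · refine P.lim_val hLkl ?_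
    push_cast
    rw [inv_neg, inv_div]
  · exact h.Lj
  · have h1 := P.mul h.Ll h.Lkl
    rw [zero_mul] at h1
    refine P.lim_eq ?_ h1
    field_simp
  · obtain ⟨θ, hθ, hL⟩ := h.Ljl
    refine ⟨_, mul_ne_zero hθ (neg_cast_ne h.hs), P.lim_eq ?_ (P.mul hL h.Lkl)⟩
    field_simp
  · exact h.Bz

theorem E3.swap12 (hT : Sym T) (h : E3 P T u i j k l a ρ) : E3 P T u j i k l a⁻¹ (ρ / a) := by
  have ha := h.ha
  have ha0 := ha.ne'
  have nl := h.pl.ne'
  have ni := h.ne_i
  have nj := h.ne_j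
  have hκ : algebraMap ℝ K a ≠ 0 := (map_ne_zero _).2 ha0
  have hLij := P.lim_inv h.Lij (neg_cast_ne ha)
  rw [inv_div] at hLij
  constructor
  · exact inv_pos.2 ha
  · exact div_nonneg h.hρ ha.le
  · rw [h.jjl]
    exact mul_pos (pow_pos ha 2) h.pl
  · rw [hT.1 j i l, h.ijl, h.jjl]
    field_simp
  · rw [h.jjl]
    field_simp
  · rw [h.jkl, h.jjl]
    field_simp
  · rw [h.kkl, h.jjl]
    field_simp
  · rw [h.ikl, h.jjl]
    field_simp
  · have h1 := h.root
    rw [hT.1 j i k]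
    field_simp
    linear_combination h1
  · intro h0
    apply h.simple
    have h1 := h.root
    rw [hT.1 j i k] at h0
    have h2 : T j j k = a * T i j k := by
      rw [h0]
      field_simp
    rw [h2] at h1
    have h3 : a * (T i i k * a - T i j k) = 0 := by linear_combination h1
    rcases mul_eq_zero.1 h3 with h4 | h4
    · exact absurd h4 ha0
    · linarith
  · refine P.lim_val hLij ?_
    push_cast
    rw [inv_neg]
  · have h1 := P.mul h.Lj hLij
    rw [zero_mul] at h1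
    refine P.lim_eq ?_ h1
    field_simp
  · obtain ⟨z, τ, hz, hτ, hL, hL'⟩ := h.Lkl
    refine ⟨z, a ^ 2 * τ, hz, by positivity, hL, ?_⟩
    refine P.lim_val (P.lim_eq ?_ (P.mul (P.lim_pow h.Lij 2) hL')) ?_
    · field_simp
    · push_cast
      ring
  · have h1 := P.mul (P.cst a⁻¹) h.Lz
    rw [mul_zero] at h1
    refine P.lim_eq ?_ h1
    rw [map_inv₀, map_div₀]
    field_simp
    ring

/-- Every index is one of four different ones. -/
theorem Dist.cov (h : Dist i j k l) (m : Fin 4) : m = i ∨ m = j ∨ m = k ∨ m = l := by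
  unfold Dist at h
  revert i j k l m
  decide

/-- The normal forms of an end of the first kind. -/
theorem E1.normal (hT : Sym T) {i' j' k' l' : Fin 4} (hd : Dist i j k l) (hd' : Dist i' j' k' l')
    (h : E1 P T u i' j' k' l' a) :
    ∃ b, E1 P T u i j k l b ∨ E1 P T u k l i j b ∨ E1 P T u i k j l b ∨ E1 P T u j l i k b ∨
      E1 P T u i l j k b ∨ E1 P T u j k i l b := by
  have h2 := h.swap12 hT
  have h3 := h.swap34 hT
  have h4 := h2.swap34 hT
  obtain ⟨d1, d2, d3, d4, d5, d6⟩ := hd'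
  have ci := hd.cov i'
  have cj := hd.cov j'
  have ck := hd.cov k'
  have cl := hd.cov l'
  rcases ci with rfl | rfl | rfl | rfl <;> rcases cj with rfl | rfl | rfl | rfl <;>
    first
    | exact absurd rfl d1
    | (rcases ck with rfl | rfl | rfl | rfl <;>
        first
        | exact absurd rfl d2
        | exact absurd rfl d4
        | (rcases cl with rfl | rfl | rfl | rfl <;>
            first
            | exact absurd rfl d3
            | exact absurd rfl d5
            | exact absurd rfl d6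
            | exact ⟨_, Or.inl h⟩ | exact ⟨_, Or.inl h2⟩ | exact ⟨_, Or.inl h3⟩
            | exact ⟨_, Or.inl h4⟩
            | exact ⟨_, Or.inr (Or.inl h)⟩ | exact ⟨_, Or.inr (Or.inl h2)⟩
            | exact ⟨_, Or.inr (Or.inl h3)⟩ | exact ⟨_, Or.inr (Or.inl h4)⟩
            | exact ⟨_, Or.inr (Or.inr (Or.inl h))⟩ | exact ⟨_, Or.inr (Or.inr (Or.inl h2))⟩
            | exact ⟨_, Or.inr (Or.inr (Or.inl h3))⟩ | exact ⟨_, Or.inr (Or.inr (Or.inl h4))⟩
            | exact ⟨_, Or.inr (Or.inr (Or.inr (Or.inl h)))⟩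
            | exact ⟨_, Or.inr (Or.inr (Or.inr (Or.inl h2)))⟩
            | exact ⟨_, Or.inr (Or.inr (Or.inr (Or.inl h3)))⟩
            | exact ⟨_, Or.inr (Or.inr (Or.inr (Or.inl h4)))⟩
            | exact ⟨_, Or.inr (Or.inr (Or.inr (Or.inr (Or.inl h))))⟩
            | exact ⟨_, Or.inr (Or.inr (Or.inr (Or.inr (Or.inl h2))))⟩
            | exact ⟨_, Or.inr (Or.inr (Or.inr (Or.inr (Or.inl h3))))⟩
            | exact ⟨_, Or.inr (Or.inr (Or.inr (Or.inr (Or.inl h4))))⟩
            | exact ⟨_, Or.inr (Or.inr (Or.inr (Or.inr (Or.inr h))))⟩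
            | exact ⟨_, Or.inr (Or.inr (Or.inr (Or.inr (Or.inr h2))))⟩
            | exact ⟨_, Or.inr (Or.inr (Or.inr (Or.inr (Or.inr h3))))⟩
            | exact ⟨_, Or.inr (Or.inr (Or.inr (Or.inr (Or.inr h4))))⟩))

/-- The normal forms of an end of the second kind. -/
theorem E3.normal (hT : Sym T) {i' j' k' l' : Fin 4} (hd : Dist i j k l) (hd' : Dist i' j' k' l')
    (h : E3 P T u i' j' k' l' a ρ) :
    ∃ b σ, (E3 P T u i j k l b σ ∨ E3 P T u i k j l b σ ∨ E3 P T u j k i l b σ) ∨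
      (E3 P T u i j l k b σ ∨ E3 P T u i l j k b σ ∨ E3 P T u j l i k b σ) ∨
      (E3 P T u i k l j b σ ∨ E3 P T u i l k j b σ ∨ E3 P T u k l i j b σ) ∨
      (E3 P T u j k l i b σ ∨ E3 P T u j l k i b σ ∨ E3 P T u k l j i b σ) := by
  have h2 := h.swap12 hT
  obtain ⟨d1, d2, d3, d4, d5, d6⟩ := hd'
  have ci := hd.cov i'
  have cj := hd.cov j'
  have ck := hd.cov k'
  have cl := hd.cov l'
  rcases cl with rfl | rfl | rfl | rfl <;> rcases ck with rfl | rfl | rfl | rfl <;>
    first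
    | exact absurd rfl d6
    | (rcases cj with rfl | rfl | rfl | rfl <;>
        first
        | exact absurd rfl d4
        | exact absurd rfl d5
        | (rcases ci with rfl | rfl | rfl | rfl <;>
            first
            | exact absurd rfl d1
            | exact absurd rfl d2
            | exact absurd rfl d3
            | exact ⟨_, _, Or.inl (Or.inl h)⟩ | exact ⟨_, _, Or.inl (Or.inl h2)⟩
            | exact ⟨_, _, Or.inl (Or.inr (Or.inl h))⟩ | exact ⟨_, _, Or.inl (Or.inr (Or.inl h2))⟩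
            | exact ⟨_, _, Or.inl (Or.inr (Or.inr h))⟩ | exact ⟨_, _, Or.inl (Or.inr (Or.inr h2))⟩
            | exact ⟨_, _, Or.inr (Or.inl (Or.inl h))⟩ | exact ⟨_, _, Or.inr (Or.inl (Or.inl h2))⟩
            | exact ⟨_, _, Or.inr (Or.inl (Or.inr (Or.inl h)))⟩
            | exact ⟨_, _, Or.inr (Or.inl (Or.inr (Or.inl h2)))⟩
            | exact ⟨_, _, Or.inr (Or.inl (Or.inr (Or.inr h)))⟩
            | exact ⟨_, _, Or.inr (Or.inl (Or.inr (Or.inr h2)))⟩
            | exact ⟨_, _, Or.inr (Or.inr (Or.inl (Or.inl h)))⟩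
            | exact ⟨_, _, Or.inr (Or.inr (Or.inl (Or.inl h2)))⟩
            | exact ⟨_, _, Or.inr (Or.inr (Or.inl (Or.inr (Or.inl h))))⟩
            | exact ⟨_, _, Or.inr (Or.inr (Or.inl (Or.inr (Or.inl h2))))⟩
            | exact ⟨_, _, Or.inr (Or.inr (Or.inl (Or.inr (Or.inr h))))⟩
            | exact ⟨_, _, Or.inr (Or.inr (Or.inl (Or.inr (Or.inr h2))))⟩
            | exact ⟨_, _, Or.inr (Or.inr (Or.inr (Or.inl h)))⟩
            | exact ⟨_, _, Or.inr (Or.inr (Or.inr (Or.inl h2)))⟩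
            | exact ⟨_, _, Or.inr (Or.inr (Or.inr (Or.inr (Or.inl h))))⟩
            | exact ⟨_, _, Or.inr (Or.inr (Or.inr (Or.inr (Or.inl h2))))⟩
            | exact ⟨_, _, Or.inr (Or.inr (Or.inr (Or.inr (Or.inr h))))⟩
            | exact ⟨_, _, Or.inr (Or.inr (Or.inr (Or.inr (Or.inr h2))))⟩))

end Pool.Agent.H.MP_deabf1_gt.Four
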