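import Mathlib
import Pool.Agent.H.MP_deabf1_gt.PDefs

/-!
The ultraproduct: a sequence of real systems with infinitely many solutions and larger and larger
bounds for the relations gives one system over an ordered field.
-/

namespace Pool.Agent.H.MP_deabf1_gt.Gen

open Filter

theorem eqL_germ {q : ℕ} (T : ℕ → Fin q → Fin q → Fin q → ℝ) (γ u : ℕ → Fin q → ℝ) (i : Fin q) :
    eqL (fun i j l => ((fun N => T N i j l : ℕ → ℝ) : Germ (hyperfilter ℕ : Filter ℕ) ℝ))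
      (fun i => ((fun N => γ N i : ℕ → ℝ) : Germ (hyperfilter ℕ : Filter ℕ) ℝ))
      (fun i => ((fun N => u N i : ℕ → ℝ) : Germ (hyperfilter ℕ : Filter ℕ) ℝ)) i =
      ((fun N => eqL (T N) (γ N) (u N) i : ℕ → ℝ) : Germ (hyperfilter ℕ : Filter ℕ) ℝ) := by
  have h0 : (fun N => eqL (T N) (γ N) (u N) i : ℕ → ℝ) = (fun N => γ N i) * (fun N => u N i) +
      1 / 4 * ∑ j, ∑ l, (fun N => T N i j l) * (2 * (fun N => u N i) +
        (fun N => u N j) * (fun N => u N l) / (fun N => u N i)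
        - (fun N => u N i) * (fun N => u N l) / (fun N => u N j)
        - (fun N => u N i) * (fun N => u N j) / (fun N => u N l)) := by
    funext N
    simp [eqL, Finset.sum_apply]
  have h2 : ((2 : ℕ → ℝ) : Germ (hyperfilter ℕ : Filter ℕ) ℝ) = 2 := rfl
  have h1 : ((1 : ℕ → ℝ) : Germ (hyperfilter ℕ : Filter ℕ) ℝ) = 1 := rfl
  have h4 : ((4 : ℕ → ℝ) : Germ (hyperfilter ℕ : Filter ℕ) ℝ) = 4 := rfl
  have hs : ∀ f : Fin q → ℕ → ℝ, ((∑ j, f j : ℕ → ℝ) : Germ (hyperfilter ℕ : Filter ℕ) ℝ) =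
      ∑ j, (f j : Germ (hyperfilter ℕ : Filter ℕ) ℝ) := fun f =>
    map_sum (Germ.coeRingHom (hyperfilter ℕ : Filter ℕ)) f Finset.univ
  rw [h0]
  unfold eqL
  rw [Germ.coe_add, Germ.coe_mul, Germ.coe_mul, Germ.coe_div, h1, h4, hs]
  simp only [hs, Germ.coe_mul, Germ.coe_sub, Germ.coe_add, Germ.coe_div, h2]

/-- The ultraproduct. -/
theorem exists_ordered {q : ℕ} (h : ∀ N : ℕ, ∃ (T : Fin q → Fin q → Fin q → ℝ) (γ : Fin q → ℝ)
    (d : Fin q → ℕ), Sym T ∧ (∀ i j l, 0 ≤ T i j l) ∧ (∀ i, 0 ≤ γ i) ∧ (∀ i, 0 < d i) ∧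
      {u : Fin q → ℝ | (∀ i, 0 < u i) ∧ ∀ i, eqL T γ u i = d i}.Infinite ∧
      ∀ r r' : Fin q → ℤ, (∀ i, |r i| ≤ N) → (∀ i, |r' i| ≤ N) → ∑ i, r i * d i = 0 →
        ∑ i, r' i * d i = 0 → ∀ i j, r i * r' j = r j * r' i) :
    ∃ (k : Type) (_ : Field k) (_ : LinearOrder k) (_ : IsStrictOrderedRing k)
      (T : Fin q → Fin q → Fin q → k) (γ d : Fin q → k), Sym T ∧ (∀ i j l, 0 ≤ T i j l) ∧
      (∀ i, 0 ≤ γ i) ∧ (∀ i, 0 < d i) ∧
      {u : Fin q → k | (∀ i, 0 < u i) ∧ ∀ i, eqL T γ u i = d i}.Infinite ∧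
      ∀ r r' : Fin q → ℤ, ∑ i, (r i : k) * d i = 0 → ∑ i, (r' i : k) * d i = 0 →
        ∀ i j, r i * r' j = r j * r' i := by
  choose T γ d hT hT0 hγ hd hinf hrel using h
  refine ⟨Germ (hyperfilter ℕ : Filter ℕ) ℝ, inferInstance, inferInstance, inferInstance,
    fun i j l => ((fun N => T N i j l : ℕ → ℝ) : Germ (hyperfilter ℕ : Filter ℕ) ℝ),
    fun i => ((fun N => γ N i : ℕ → ℝ) : Germ (hyperfilter ℕ : Filter ℕ) ℝ),
    fun i => ((fun N => (d N i : ℝ) : ℕ → ℝ) : Germ (hyperfilter ℕ : Filter ℕ) ℝ), ?_, ?_, ?_, ?_,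
    ?_, ?_⟩
  · refine ⟨fun i j l => ?_, fun i j l => ?_⟩
    · exact congrArg _ (funext fun N => (hT N).1 i j l)
    · exact congrArg _ (funext fun N => (hT N).2 i j l)
  · intro i j l
    exact Germ.coe_nonneg.2 (Eventually.of_forall fun N => hT0 N i j l)
  · intro i
    exact Germ.coe_nonneg.2 (Eventually.of_forall fun N => hγ N i)
  · intro i
    exact Germ.coe_pos.2 (Eventually.of_forall fun N => by exact_mod_cast hd N i)
  · -- infinitely many solutions
    let e : ∀ N, ℕ ↪ _ := fun N => (hinf N).natEmbedding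
    refine Set.infinite_of_injective_forall_mem (α := ℕ)
      (f := fun m i => ((fun N => ((e N m : _) : Fin q → ℝ) i : ℕ → ℝ) :
        Germ (hyperfilter ℕ : Filter ℕ) ℝ)) ?_ ?_
    · intro m m' hmm
      have h1 : ∀ i, ∀ᶠ N in (hyperfilter ℕ : Filter ℕ),
          ((e N m : _) : Fin q → ℝ) i = ((e N m' : _) : Fin q → ℝ) i := fun i =>
        Germ.coe_eq.1 (congrFun hmm i)
      obtain ⟨N, hN⟩ := (eventually_all.2 h1).exists
      exact (e N).injective (Subtype.ext (funext hN))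
    · intro m
      refine ⟨fun i => Germ.coe_pos.2 (Eventually.of_forall fun N => (e N m).2.1 i), fun i => ?_⟩
      rw [eqL_germ T γ (fun N => ((e N m : _) : Fin q → ℝ)) i]
      exact congrArg _ (funext fun N => (e N m).2.2 i)
  · -- relations
    intro r r' hr hr'
    have key : ∀ r : Fin q → ℤ, ∑ i, (r i : Germ (hyperfilter ℕ : Filter ℕ) ℝ) *
        ((fun N => (d N i : ℝ) : ℕ → ℝ) : Germ (hyperfilter ℕ : Filter ℕ) ℝ) = 0 →
        ∀ᶠ N in (hyperfilter ℕ : Filter ℕ), ∑ i, r i * (d N i : ℤ) = 0 := by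
      intro r hr
      have h1 : ((fun N => ∑ i, (r i : ℝ) * (d N i : ℝ) : ℕ → ℝ) :
          Germ (hyperfilter ℕ : Filter ℕ) ℝ) = 0 := by
        rw [← hr]
        have h2 : (fun N => ∑ i, (r i : ℝ) * (d N i : ℝ) : ℕ → ℝ) =
            ∑ i, ((r i : ℤ) : ℕ → ℝ) * (fun N => (d N i : ℝ)) := by
          funext N
          simp [Finset.sum_apply]
        rw [h2]
        refine (map_sum (Germ.coeRingHom (hyperfilter ℕ : Filter ℕ)) _ Finset.univ).trans ?_
        refine Finset.sum_congr rfl fun i _ => ?_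
        exact Germ.coe_mul _ _
      have h3 : ∀ᶠ N in (hyperfilter ℕ : Filter ℕ), ∑ i, (r i : ℝ) * (d N i : ℝ) = 0 :=
        Germ.coe_eq.1 h1
      filter_upwards [h3] with N hN
      exact_mod_cast hN
    obtain ⟨M, hM⟩ : ∃ M : ℕ, (∀ i, |r i| ≤ M) ∧ ∀ i, |r' i| ≤ M := by
      refine ⟨(∑ i, |r i| + ∑ i, |r' i|).toNat, fun i => ?_, fun i => ?_⟩
      · rw [Int.toNat_of_nonneg (by positivity)]
        have h1 := Finset.single_le_sum (f := fun i => |r i|) (fun i _ => abs_nonneg _)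
          (Finset.mem_univ i)
        have h2 : 0 ≤ ∑ i, |r' i| := by positivity
        linarith
      · rw [Int.toNat_of_nonneg (by positivity)]
        have h1 := Finset.single_le_sum (f := fun i => |r' i|) (fun i _ => abs_nonneg _)
          (Finset.mem_univ i)
        have h2 : 0 ≤ ∑ i, |r i| := by positivity
        linarith
    have h3 : ∀ᶠ N in (hyperfilter ℕ : Filter ℕ), M ≤ N :=
      Nat.hyperfilter_le_atTop (eventually_ge_atTop M)
    obtain ⟨N, ⟨h4, h5⟩, h6⟩ := (((key r hr).and (key r' hr')).and h3).exists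
    exact hrel N r r' (fun i => (hM.1 i).trans (by exact_mod_cast h6))
      (fun i => (hM.2 i).trans (by exact_mod_cast h6)) h4 h5

end Pool.Agent.H.MP_deabf1_gt.Gen
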